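import Mathlib
import Pool.Agent.Q90.SM.Eqv
import Pool.Agent.Q90.SM.All

/-!
# Project SR (helper820), hard page MP_16b0ee_an (strong Marshall conjecture)

Goal: the strong (uniform) Marshall bound for the class `Σ` is equivalent to the spectral bound
`∫ |ψ' ^ t| ≤ (R - 1) ^ (- |t|² / 4 - ε)` for SINGLE maps `ψ` in `Σ`, along some sequence of radii `R → 1` only.
It is enough to have it for self-similar maps.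

The construction. Let `ψ` be in `Σ`, `r = exp (-3 κ)`, `|v₀| = exp (-κ)` and `F(z) = r (ψ (z / r) - ψ (1 / v₀))`, `|z| > exp (-2κ)`.
In the coordinate `w = 1 / z` one has `1 / F(1/w) = w exp (-γ w)`, and `ℓ w = log (w b'(w) / b(w))`, `b(w) = w exp (-γ w)`.
We solve `A(v) = A(v^N) / N - γ (v exp (A(v^N) / N))`. Then `β(v) = v exp (A v)` satisfies `β(v) = b(τ(v))`, `τ(v)^N = β(v^N)`,
so `β` is injective and `E(v) = log (v β'(v) / β(v))` satisfies `E(v) = ℓ(τ v) + E(v^N)`. The map `ψ*(z) = 1 / β(1/z)` is in `Σ`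
and the means of `|ψ*' ^ t|` at the radius `exp (N^(-n))` are at least (const) times the `n`-th power of the mean for `ψ`.
-/

set_option autoImplicit false
open Complex Filter Topology Set Metric MeasureTheory

namespace Run7.h820.SR

open Pool.Agent.TH325.SI (mn em la)
open Pool.Agent.W677.Mar (Sg IsG0 NN hat)
open Q90.SM (IsSig marshall pmean circ FF)

/-- The block: `γ`, `ℓ` are holomorphic for `|w| < exp (2κ)`, bounded by `B` for `|w| ≤ exp κ`,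
`b(w) = w exp (-γ w)` is injective and `exp (ℓ w) = w b'(w) / b(w)`. -/
structure Blk (κ B : ℝ) (γ ℓ : ℂ → ℂ) : Prop where
  κ0 : 0 < κ
  κ1 : κ ≤ 1
  B1 : 1 ≤ B
  dγ : DifferentiableOn ℂ γ (ball 0 (Real.exp (2 * κ)))
  dℓ : DifferentiableOn ℂ ℓ (ball 0 (Real.exp (2 * κ)))
  γ0 : γ 0 = 0
  ℓ0 : ℓ 0 = 0
  eq : ∀ w ∈ ball (0:ℂ) (Real.exp (2 * κ)), Complex.exp (ℓ w) = 1 - w * deriv γ w
  inj : InjOn (fun w => w * Complex.exp (-γ w)) (ball 0 (Real.exp (2 * κ)))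
  bγ : ∀ w : ℂ, ‖w‖ ≤ Real.exp κ → ‖γ w‖ ≤ B
  bℓ : ∀ w : ℂ, ‖w‖ ≤ Real.exp κ → ‖ℓ w‖ ≤ B

/-- the mean of `|exp (t ℓ)|` over the unit circle -/
noncomputable def J1 (t : ℂ) (ℓ : ℂ → ℂ) : ℝ :=
  (2 * Real.pi)⁻¹ * ∫ θ in (0:ℝ)..(2 * Real.pi), Real.exp (t * ℓ (circleMap 0 1 θ)).re

/-- `-log (1 - e^(-κ))` -/
noncomputable def bb (κ : ℝ) : ℝ := -Real.log (1 - Real.exp (-κ))

/-- LIP. Lipschitz bounds. Proof: Cauchy estimate (`Complex.norm_deriv_le_of_forall_mem_sphere_norm_le` or similar) on the disc of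
centre `w`, `‖w‖ ≤ exp (κ/2)`, and radius `exp κ - exp (κ/2) ≥ κ/2`; mean value inequality on the convex set
`closedBall 0 (exp (κ/2))`. -/
def S_LIP : Prop := ∀ (κ B : ℝ) (g : ℂ → ℂ), 0 < κ → 0 ≤ B → DifferentiableOn ℂ g (ball 0 (Real.exp (2 * κ))) →
  (∀ w : ℂ, ‖w‖ ≤ Real.exp κ → ‖g w‖ ≤ B) → ∀ w w' : ℂ, ‖w‖ ≤ Real.exp (κ / 2) → ‖w'‖ ≤ Real.exp (κ / 2) →
  ‖g w - g w'‖ ≤ 2 * B / κ * ‖w - w'‖

/-- FIX. The fixed point. Proof: `A_0 = 0`, `A_{k+1}(v) = A_k(v^N)/N - γ(v exp (A_k(v^N)/N))` for `v` in the open unit disc. By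
induction `‖A_k‖ ≤ 2B` there: `‖A_k(v^N)/N‖ ≤ 2B/N ≤ κ/8`, so the argument of `γ` has modulus at most `exp (κ/8)`. By LIP for `γ`
and `‖exp x - exp x'‖ ≤ 2 ‖x - x'‖` for `‖x‖, ‖x'‖ ≤ 1/8` one gets `sup ‖A_{k+1} - A_k‖ ≤ (1/2) sup ‖A_k - A_{k-1}‖`
(`1/N + 4B/(κN) ≤ 1/2`). So the `A_k` converge uniformly on the disc, the limit is holomorphic
(`TendstoLocallyUniformlyOn.differentiableOn`) and satisfies the equation. -/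
def S_FIX : Prop := ∀ (κ B : ℝ) (γ ℓ : ℂ → ℂ) (N : ℕ), Blk κ B γ ℓ → 16 * B ^ 2 / κ ≤ N →
  ∃ A : ℂ → ℂ, DifferentiableOn ℂ A (ball 0 1) ∧ A 0 = 0 ∧ (∀ v ∈ ball (0:ℂ) 1, ‖A v‖ ≤ 2 * B) ∧
    ∀ v ∈ ball (0:ℂ) 1, A v = A (v ^ N) / N - γ (v * Complex.exp (A (v ^ N) / N))

/-- The data produced by FIX. -/
structure Fx (κ B : ℝ) (γ ℓ : ℂ → ℂ) (N : ℕ) (A : ℂ → ℂ) : Prop where
  blk : Blk κ B γ ℓ
  hN : 16 * B ^ 2 / κ ≤ N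
  dA : DifferentiableOn ℂ A (ball 0 1)
  A0 : A 0 = 0
  bA : ∀ v ∈ ball (0:ℂ) 1, ‖A v‖ ≤ 2 * B
  fe : ∀ v ∈ ball (0:ℂ) 1, A v = A (v ^ N) / N - γ (v * Complex.exp (A (v ^ N) / N))

/-- INJ. Injectivity. Proof: put `τ(v) = v exp (A(v^N)/N)`, `‖τ v‖ ≤ exp (κ/8)`. Then `v exp (A v) = τ(v) exp (-γ (τ v))`, and
`τ(v)^N = v^N exp (A(v^N))`. If `v exp (A v) = v' exp (A v')` then `τ v = τ v'` by `Blk.inj`, hence the same relation holds for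
`v^N, v'^N`, and so for all `v^(N^n), v'^(N^n)`. These tend to `0`, where `v exp (A v)` is locally injective (derivative `1`), so
`v^(N^n) = v'^(N^n)` for large `n`; going down, `v^(N^(n+1)) = v'^(N^(n+1))` and `τ` equal at `v^(N^n)`, `v'^(N^n)` give
`v^(N^n) = v'^(N^n)`. -/
def S_INJ : Prop := ∀ (κ B : ℝ) (γ ℓ : ℂ → ℂ) (N : ℕ) (A : ℂ → ℂ), Fx κ B γ ℓ N A →
  InjOn (fun v => v * Complex.exp (A v)) (ball 0 1)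

/-- LOG. The logarithm of `v β'(v) / β(v) = 1 + v A'(v)`. Proof: differentiate the functional equation, with
`τ(v) = v exp (A(v^N)/N)`: `1 + v A'(v) = exp (ℓ (τ v)) (1 + v^N A'(v^N))`. So a zero `v` of `1 + v A'` gives the zeros
`v^(N^n) → 0`, but the value at `0` is `1`. Take the holomorphic logarithm `E` on the disc with `E 0 = 0` (for instance with
`Complex.exists_continuousOn_eqOn_exp_comp` and `Pool.Agent.W677.Mar.log_diff`); the functional equation for `E` follows from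
`Pool.Agent.W677.Mar.exp_unique`. -/
def S_LOG : Prop := ∀ (κ B : ℝ) (γ ℓ : ℂ → ℂ) (N : ℕ) (A : ℂ → ℂ), Fx κ B γ ℓ N A →
  ∃ E : ℂ → ℂ, DifferentiableOn ℂ E (ball 0 1) ∧ E 0 = 0 ∧ (∀ v ∈ ball (0:ℂ) 1, Complex.exp (E v) = 1 + v * deriv A v) ∧
    ∀ v ∈ ball (0:ℂ) 1, E v = ℓ (v * Complex.exp (A (v ^ N) / N)) + E (v ^ N)

/-- The self-similar maps: `ψ = F ∘ τ` with `F` univalent in a neighbourhood of the closed exterior disc and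
`τ(z)^N = ψ(z^N)`; so `ψ` conjugates `z^N` to the expanding map `(F⁻¹)^N` near the boundary. -/
def SelfSim (ψ : ℂ → ℂ) : Prop := ∃ (N : ℕ) (F τ : ℂ → ℂ) (ρ : ℝ), 2 ≤ N ∧ 0 < ρ ∧ ρ < 1 ∧
  DifferentiableOn ℂ F {z : ℂ | ρ < ‖z‖} ∧ InjOn F {z : ℂ | ρ < ‖z‖} ∧
  ∀ z : ℂ, 1 < ‖z‖ → Real.sqrt ρ < ‖τ z‖ ∧ ψ z = F (τ z) ∧ τ z ^ N = ψ (z ^ N)

/-- SIG. The exterior map. Proof: `ψ z = z exp (-A z⁻¹)`, `h z = E z⁻¹ - A z⁻¹`; `F z = z exp (γ z⁻¹)`, `ρ = exp (-2κ)`,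
`τ z = z exp (- A ((z⁻¹)^N) / N)`. -/
def S_SIG : Prop := ∀ (κ B : ℝ) (γ ℓ : ℂ → ℂ) (N : ℕ) (A E : ℂ → ℂ), Fx κ B γ ℓ N A →
  InjOn (fun v => v * Complex.exp (A v)) (ball 0 1) →
  DifferentiableOn ℂ E (ball 0 1) → E 0 = 0 → (∀ v ∈ ball (0:ℂ) 1, Complex.exp (E v) = 1 + v * deriv A v) →
  ∃ ψ h : ℂ → ℂ, IsSig ψ h ∧ SelfSim ψ ∧ ∀ z : ℂ, 1 < ‖z‖ → h z = E z⁻¹ - A z⁻¹

/-- NI. Near independence of `g(θ), g(Nθ), g(N²θ), ...`. Proof by induction on `n`: put `S_n(θ) = ∑_{j<n} g(N^j θ)`,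
`M = N^n`. For `0 ≤ a ≤ 2π/M` we have `|S_n(θ+a) - S_n(θ)| ≤ Λ a (M-1)/(N-1) ≤ δ`. By periodicity, for each such `a`,
`∫_0^{2π} exp (S_n(θ) + g(Mθ)) dθ = ∫_0^{2π} exp (S_n(θ+a) + g(M(θ+a))) dθ ≥ e^{-δ} ∫_0^{2π} exp (S_n(θ)) exp (g(Mθ+Ma)) dθ`.
Integrate over `a` in `[0, 2π/M]` and exchange the integrals (continuous integrand): the inner integral is
`∫_0^{2π/M} exp (g(Mθ+Ma)) da = (1/M) ∫_0^{2π} exp (g)` . -/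
def S_NI : Prop := ∀ (g : ℝ → ℝ) (Λ δ : ℝ) (N : ℕ), (∀ x y : ℝ, |g x - g y| ≤ Λ * |x - y|) → Function.Periodic g (2 * Real.pi) →
  2 ≤ N → 0 ≤ Λ → 2 * Real.pi * Λ ≤ δ * ((N:ℝ) - 1) → ∀ n : ℕ,
  (Real.exp (-δ) * ((2 * Real.pi)⁻¹ * ∫ θ in (0:ℝ)..(2 * Real.pi), Real.exp (g θ))) ^ n ≤
    (2 * Real.pi)⁻¹ * ∫ θ in (0:ℝ)..(2 * Real.pi), Real.exp (∑ j ∈ Finset.range n, g ((N:ℝ) ^ j * θ))

/-- LOW. The lower bound for the means of the self-similar map. Proof: `R = exp (1 / N^n)`, `v = 1/z`, `‖v‖ = exp (-1/N^n)`.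
`E v = ∑_{j<n} ℓ (τ (v^(N^j))) + E (v^(N^n))` with `‖v^(N^n)‖ = exp (-1)`, so the last term is bounded by a constant `C'`
(compactness), and `‖A‖ ≤ 2B`. For `j < n` the point `τ (v^(N^j))` differs from `exp (∓ i N^j θ)` by at most
`(1 - exp (-1/N)) + (exp (2B/N) - 1) ≤ 5B/N`, so by LIP `‖ℓ (τ (v^(N^j))) - ℓ (exp (i N^j θ'))‖ ≤ (2B/κ)(5B/N) ≤ 1`.
Then NI with `g(θ) = Re (t ℓ (e^{iθ}))`, `Λ = ‖t‖ 2B/κ`, `δ = ‖t‖` (`2π Λ ≤ ‖t‖ (N-1)` because `N ≥ 16 B²/κ`). The change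
`θ → -θ` (points `1/z`) does not change the integral over the period. -/
def S_LOW : Prop := ∀ (κ B : ℝ) (γ ℓ : ℂ → ℂ) (N : ℕ) (A E h : ℂ → ℂ), Fx κ B γ ℓ N A →
  DifferentiableOn ℂ E (ball 0 1) → (∀ v ∈ ball (0:ℂ) 1, E v = ℓ (v * Complex.exp (A (v ^ N) / N)) + E (v ^ N)) →
  (∀ z : ℂ, 1 < ‖z‖ → h z = E z⁻¹ - A z⁻¹) →
  ∃ C' : ℝ, 0 ≤ C' ∧ ∀ (t : ℂ) (n : ℕ), Real.exp (-(‖t‖ * (C' + 2 * n))) * J1 t ℓ ^ n ≤ pmean t (Real.exp (1 / (N:ℝ) ^ n)) h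

/-- BND. The sup bound for the logarithm of the difference quotient in two different points (Cauchy-Schwarz, exactly as in
`Pool.Agent.W677.Mar.log_bound`, where the two points coincide). -/
def S_BND : Prop := ∀ (Y H A : ℂ → ℂ) (ζ z : ℂ), Sg Y H → ζ ≠ 0 → ζ ∈ ball (0:ℂ) 1 → z ∈ ball (0:ℂ) 1 →
  DifferentiableOn ℂ A (ball 0 1) → A 0 = 0 → (∀ z ∈ ball (0:ℂ) 1, Complex.exp (A z) = NN Y ζ z) →
  ‖A z‖ ^ 2 ≤ la ‖ζ‖ * la ‖z‖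

/-- AVG. The `L²` mean of the logarithm of the difference quotient: for fixed `ζ` the mean over `|z| = s` of `‖A z‖²` is at most
`-log (1 - |ζ|²)`. Proof: Parseval `Pool.Agent.TH325.SI.par`, `‖c_k‖² s^(2k) ≤ k ‖c_k‖²` (`c_0 = 0`) and
`Pool.Agent.W677.Mar.area_log`. -/
def S_AVG : Prop := ∀ (Y H A : ℂ → ℂ) (ζ : ℂ) (s : ℝ), Sg Y H → ζ ≠ 0 → ζ ∈ ball (0:ℂ) 1 → 0 < s → s < 1 →
  DifferentiableOn ℂ A (ball 0 1) → A 0 = 0 → (∀ z ∈ ball (0:ℂ) 1, Complex.exp (A z) = NN Y ζ z) →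
  mn A s ≤ la ‖ζ‖

/-- AVL. The `L²` mean of `log (1 - z / v)` over `|v| = s`, `|z| < s`, is at most `2` (it is `∑ (|z|/s)^(2k) / k² ≤ π²/6`). Proof:
Parseval for `w ↦ log (1 - w)` on `|w| = |z|/s` (`Pool.Agent.TH325.SI.par`, Taylor coefficients `-1/k`), and the rotation
`v ↦ z / v` of the circle; or Parseval in `L²` of the circle. -/
def S_AVL : Prop := ∀ (z : ℂ) (s : ℝ), ‖z‖ < s →
  (2 * Real.pi)⁻¹ * ∫ φ in (0:ℝ)..(2 * Real.pi), ‖Complex.log (1 - z / circleMap 0 s φ)‖ ^ 2 ≤ 2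

/-- SYM. Symmetry of the two variable logarithm `f` of `Pool.Agent.W677.Mar.exists_log`. Proof: both sides are continuous
logarithms of the same function on the convex set `ball ×ˢ ball`, equal at `(0,0)` (`Pool.Agent.W677.Mar.exp_unique`). -/
def S_SYM : Prop := ∀ (Y H : ℂ → ℂ) (f : ℂ × ℂ → ℂ), Sg Y H → ContinuousOn f (ball 0 1 ×ˢ ball 0 1) →
  (∀ ζ ∈ ball (0 : ℂ) 1, ∀ z ∈ ball (0 : ℂ) 1, Complex.exp (f (ζ, z)) = NN Y ζ z) →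
  (∀ ζ ∈ ball (0 : ℂ) 1, f (ζ, 0) = 0) → ∀ ζ ∈ ball (0 : ℂ) 1, ∀ z ∈ ball (0 : ℂ) 1, f (ζ, z) = f (z, ζ)

/-- BLK. The block of a map in `Σ`. Proof: `γ w = f (v₀, r w) + log (1 - r w / v₀)`, `ℓ w = H (r w) - γ w`, `r = exp (-3κ)`,
`‖v₀‖ = exp (-κ)`. For `‖w‖ < exp (2κ)` one has `exp (γ w) = Y (r w) - r w Y(v₀) / v₀` (`NN_mul`), so differentiation gives
`exp (γ w) (1 - w γ'(w)) = Y (r w) - r w Y' (r w) = exp (H (r w))`. Injectivity of `w exp (-γ w)`: its inverse is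
`r (Y (r w) / (r w) - Y(v₀) / v₀)`, and `IsG0.inj`. Bounds for `‖w‖ ≤ exp κ`: `‖H (r w)‖ ≤ -log (1 - e^(-4κ)) ≤ bb κ`
(`goluzin`), `‖f (v₀, r w)‖ ≤ bb κ` (BND), `‖log (1 - r w / v₀)‖ ≤ -log (1 - e^(-κ)) = bb κ`; `3 bb κ ≥ 1` since `κ ≤ 1`. -/
def S_BLK : Prop := ∀ (Y H : ℂ → ℂ) (f : ℂ × ℂ → ℂ) (κ : ℝ) (v₀ : ℂ), Sg Y H → ContinuousOn f (ball 0 1 ×ˢ ball 0 1) →
  (∀ ζ ∈ ball (0 : ℂ) 1, ∀ z ∈ ball (0 : ℂ) 1, Complex.exp (f (ζ, z)) = NN Y ζ z) →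
  (∀ ζ ∈ ball (0 : ℂ) 1, f (ζ, 0) = 0) → 0 < κ → κ ≤ 1 → ‖v₀‖ = Real.exp (-κ) →
  Blk κ (3 * bb κ) (fun w => f (v₀, (Real.exp (-3 * κ) : ℂ) * w) + Complex.log (1 - (Real.exp (-3 * κ) : ℂ) * w / v₀))
    (fun w => H ((Real.exp (-3 * κ) : ℂ) * w) - (f (v₀, (Real.exp (-3 * κ) : ℂ) * w) + Complex.log (1 - (Real.exp (-3 * κ) : ℂ) * w / v₀)))

/-- DAT. The choice of `v₀`. Proof: `r = exp (-3κ)`, `P(θ) = |exp (t H (r e^{iθ}))|`, and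
`K(φ,θ) = ‖f (v₀(φ), r e^{iθ}) + log (1 - r e^{iθ} / v₀(φ))‖`, `v₀(φ) = e^{-κ} e^{iφ}`. By SYM, AVG and AVL the mean of `K²` over `φ` is at
most `2 la r + 4` for every `θ` (`(a+b)² ≤ 2a² + 2b²`). By Fubini there is `φ` with
`mean_θ (K(φ,θ)² P(θ)) ≤ (2 la r + 4) mean_θ P`. By Jensen (or: `e^{-x} ≥ e^{-y} (1 - (x - y))` and Cauchy-Schwarz)
`mean (e^{-|t| K} P) ≥ e^{-|t| √(2 la r + 4)} mean P`, and `|exp (t ℓ)| ≥ e^{-|t| K} P` for the `ℓ` of BLK. -/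
def S_DAT : Prop := ∀ (Y H : ℂ → ℂ) (κ : ℝ) (t : ℂ), Sg Y H → 0 < κ → κ ≤ 1 →
  ∃ γ ℓ : ℂ → ℂ, Blk κ (3 * bb κ) γ ℓ ∧
    mn (FF t H) (Real.exp (-3 * κ)) * Real.exp (-(‖t‖ * Real.sqrt (2 * la (Real.exp (-3 * κ)) + 4))) ≤ J1 t ℓ

/-- MON. The means increase. Proof: `Pool.Agent.TH325.SI.par`, termwise. -/
def S_MON : Prop := ∀ (F : ℂ → ℂ) (s s' : ℝ), DifferentiableOn ℂ F (ball 0 1) → 0 < s → s ≤ s' → s' < 1 → mn F s ≤ mn F s'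

/-- the spectral bound for one map along a sequence of radii -/
def SpecB (ψ h : ℂ → ℂ) : Prop := ∀ t : ℂ, ‖t‖ < 2 → ∀ ε : ℝ, 0 < ε →
  ∃ᶠ R in 𝓝[>] (1:ℝ), pmean t R h ≤ (1 / (R - 1)) ^ (‖t‖ ^ 2 / 4 + ε)

/-- MAIN. Proof (helper820): LOW for the self-similar map of the block, MON between the radii `exp (1/N^n)`. -/
def S_MAIN : Prop := (∀ ψ h : ℂ → ℂ, IsSig ψ h → SelfSim ψ → SpecB ψ h) →
  ∀ ψ h : ℂ → ℂ, IsSig ψ h → ∀ (κ : ℝ) (t : ℂ) (N : ℕ), 0 < κ → κ ≤ 1 → ‖t‖ < 2 → 16 * (3 * bb κ) ^ 2 / κ ≤ N →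
  Real.log (pmean t (Real.exp (3 * κ)) h) ≤
    ‖t‖ ^ 2 / 4 * Real.log N + 2 * ‖t‖ + ‖t‖ * Real.sqrt (2 * la (Real.exp (-3 * κ)) + 4)

/-- ASY. Real analysis. Proof: `la (e^(-3κ)) = -log (1 - e^(-6κ)) ≥ log (1/(6κ))`, `bb κ ≤ log (2/κ)`, so
`log N ≤ log (1/κ) + 2 log (log (2/κ)) + C ≤ (1+η) la + C_η`, and `T √(2 L + 4) ≤ η T² (2L+4) + 1/(4η)`, `T ≤ 2`. -/
def S_ASY : Prop := ∀ c : ℝ, 1 / 4 < c → ∃ K : ℝ, ∀ κ T : ℝ, 0 < κ → κ ≤ 1 → 0 ≤ T → T ≤ 2 →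
  T ^ 2 / 4 * Real.log (⌈16 * (3 * bb κ) ^ 2 / κ⌉₊ : ℝ) + 2 * T + T * Real.sqrt (2 * la (Real.exp (-3 * κ)) + 4) ≤
    K + c * T ^ 2 * la (Real.exp (-3 * κ))

/-- Q2. From `‖t‖ < 2` to `‖t‖ < 4`. Proof: `h = univ`, `A = 1` in `Q90.SM.Q2`. For `‖t‖ < 2` the bound with the constant `c' = (c + 1/4)/2`.
For `2 ≤ ‖t‖ < 4` use `Q90.SM.gol`: `|exp (t h)| ≤ exp ((‖t‖ - s) L) |exp (s (t/‖t‖) h)|` with `s < 2` close to `2`, and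
`‖t‖ - s + c' s² ≤ c ‖t‖²`. -/
def S_Q2 : Prop := (∀ c : ℝ, 1 / 4 < c → ∃ K : ℝ, ∀ R : ℝ, 1 < R → R < 2 → ∀ ψ h : ℂ → ℂ, IsSig ψ h → ∀ t : ℂ, ‖t‖ < 2 →
    Real.log (pmean t R h) ≤ K + c * ‖t‖ ^ 2 * Real.log (R ^ 2 / (R ^ 2 - 1))) → Q90.SM.Q2 Set.univ 1

end Run7.h820.SR
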