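import Pool.Agent.Run7.h820.SR.Stm

set_option autoImplicit false
open Complex Filter Topology Set Metric MeasureTheory

namespace Run7.h820.SR

open Pool.Agent.TH325.SI (mn em la)
open Pool.Agent.W677.Mar (Sg IsG0 NN hat)
open Pool.Agent.H713R2 (tc)

theorem t_AVG : S_AVG := by
  intro Y H A ζ s S hζ0 hζ hs hs1 hA hA0 hAe
  have hc : ∀ z ∈ ball (0:ℂ) 1, HasSum (fun j => tc A j * z ^ j) (A z) :=
    fun z hz => Pool.Agent.H713R2.hasSum_tc hA hz
  have hc0 : tc A 0 = 0 := by rw [Pool.Agent.H713R2.tc_zero, hA0]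
  have hpar := Pool.Agent.TH325.SI.par hA hs hs1
  refine le_of_tendsto' hpar.tendsto_sum_nat fun N => ?_
  have h1 := Pool.Agent.W677.Mar.area_log S hζ0 hζ hA hAe hc N
  refine le_trans (Finset.sum_le_sum fun k _ => ?_) h1
  rcases Nat.eq_zero_or_pos k with h | h
  · rw [h, hc0]
    simp
  · have hk : (1:ℝ) ≤ k := by exact_mod_cast h
    have h2 : s ^ (2 * k) ≤ 1 := pow_le_one₀ hs.le hs1.le
    have h3 : 0 ≤ ‖tc A k‖ ^ 2 := by positivity
    calc ‖tc A k‖ ^ 2 * s ^ (2 * k) ≤ ‖tc A k‖ ^ 2 * 1 := by gcongr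
      _ = 1 * ‖tc A k‖ ^ 2 := by ring
      _ ≤ k * ‖tc A k‖ ^ 2 := by gcongr

end Run7.h820.SR
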