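import Pool.Agent.Run7.h820.SR.Stm

set_option autoImplicit false
open Complex Filter Topology Set Metric MeasureTheory

namespace Run7.h820.SR

open Pool.Agent.TH325.SI (mn em la)
open Pool.Agent.W677.Mar (Sg IsG0 NN hat)
open Pool.Agent.H713R2 (tc)

theorem la_log_nonneg {x : ℝ} (h0 : 0 ≤ x) (h1 : x < 1) : 0 ≤ la x := by
  unfold la
  have h2 : x ^ 2 < 1 := by nlinarith
  have := Real.log_nonpos (by linarith : 0 ≤ 1 - x ^ 2) (by nlinarith)
  linarith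

theorem t_BND : S_BND := by
  intro Y H A ζ z S hζ0 hζ hz hA hA0 hAe
  have hn : ‖ζ‖ < 1 := mem_ball_zero_iff.1 hζ
  have hnz : ‖z‖ < 1 := mem_ball_zero_iff.1 hz
  have hp : 0 < ‖ζ‖ := norm_pos_iff.2 hζ0
  have hx1 : ‖z‖ ^ 2 < 1 := pow_lt_one₀ (norm_nonneg _) hnz two_ne_zero
  have hc : ∀ z ∈ ball (0:ℂ) 1, HasSum (fun j => tc A j * z ^ j) (A z) :=
    fun z hz => Pool.Agent.H713R2.hasSum_tc hA hz
  have hc0 : tc A 0 = 0 := by rw [Pool.Agent.H713R2.tc_zero, hA0]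
  have hL1 : 0 ≤ la ‖ζ‖ := la_log_nonneg hp.le hn
  have hL2 : 0 ≤ la ‖z‖ := la_log_nonneg (norm_nonneg _) hnz
  have hpart : ∀ N : ℕ, ‖∑ k ∈ Finset.range N, tc A k * z ^ k‖ ^ 2 ≤ la ‖ζ‖ * la ‖z‖ := by
    intro N
    have h1 : ‖∑ k ∈ Finset.range N, tc A k * z ^ k‖ ≤
        ∑ k ∈ Finset.range N, (Real.sqrt k * ‖tc A k‖) * (‖z‖ ^ k / Real.sqrt k) := by
      refine (norm_sum_le _ _).trans (Finset.sum_le_sum fun k _ => ?_)
      rw [norm_mul, norm_pow]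
      rcases Nat.eq_zero_or_pos k with h | h
      · rw [h, hc0]
        simp
      · have hk : Real.sqrt k ≠ 0 := by
          have : (0 : ℝ) < k := by exact_mod_cast h
          positivity
        apply le_of_eq
        field_simp
    have h2 := Finset.sum_mul_sq_le_sq_mul_sq (Finset.range N) (fun k : ℕ => Real.sqrt k * ‖tc A k‖)
      (fun k : ℕ => ‖z‖ ^ k / Real.sqrt k)
    have h3 : ∑ k ∈ Finset.range N, (Real.sqrt (k : ℝ) * ‖tc A k‖) ^ 2 ≤ la ‖ζ‖ := by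
      have := Pool.Agent.W677.Mar.area_log S hζ0 hζ hA hAe hc N
      refine le_trans (le_of_eq (Finset.sum_congr rfl fun k _ => ?_)) this
      rw [mul_pow, Real.sq_sqrt (Nat.cast_nonneg k)]
    have h4 : ∑ k ∈ Finset.range N, (‖z‖ ^ k / Real.sqrt (k : ℝ)) ^ 2 ≤ la ‖z‖ := by
      have h5 := Pool.Agent.W677.Mar.hasSum_log (by positivity) hx1
      refine le_trans (le_of_eq (Finset.sum_congr rfl fun k _ => ?_)) (sum_le_hasSum
        (Finset.range N) (fun k _ => by positivity) h5)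
      rw [div_pow, Real.sq_sqrt (Nat.cast_nonneg k), ← pow_mul, ← pow_mul, mul_comm]
    calc ‖∑ k ∈ Finset.range N, tc A k * z ^ k‖ ^ 2 ≤
        (∑ k ∈ Finset.range N, (Real.sqrt k * ‖tc A k‖) * (‖z‖ ^ k / Real.sqrt k)) ^ 2 := by gcongr
      _ ≤ _ := h2
      _ ≤ _ := mul_le_mul h3 h4 (Finset.sum_nonneg fun k _ => sq_nonneg _) hL1
  exact le_of_tendsto (((hc z hz).tendsto_sum_nat.norm).pow 2) (Eventually.of_forall hpart)

end Run7.h820.SR
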