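import Pool.Agent.Run7.h820.SR.Stm

set_option autoImplicit false
open Complex Filter Topology Set Metric MeasureTheory

namespace Run7.h820.SR

open Pool.Agent.TH325.SI (mn em la cm_mem norm_cm cont_cm)
open Pool.Agent.W677.Mar (Sg IsG0 NN hat)
open Q90.SM (IsSig marshall pmean circ FF)

/-- abstract choice of a good parameter -/
theorem dat_choice (K : ℝ → ℝ → ℝ) (P : ℝ → ℝ) (hK : Continuous fun p : ℝ × ℝ => K p.1 p.2) (hP : Continuous P)
    (hP0 : ∀ θ, 0 < P θ) {c : ℝ}
    (hm : ∀ θ, (2 * Real.pi)⁻¹ * ∫ φ in (0:ℝ)..(2 * Real.pi), K φ θ ^ 2 ≤ c) :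
    ∃ φ : ℝ, (2 * Real.pi)⁻¹ * ∫ θ in (0:ℝ)..(2 * Real.pi), K φ θ ^ 2 * P θ ≤ c * ((2 * Real.pi)⁻¹ * ∫ θ in (0:ℝ)..(2 * Real.pi), P θ) := by
  have hpi : 0 < 2 * Real.pi := by positivity
  by_contra hcon
  push Not at hcon
  have hcontKP : Continuous fun p : ℝ × ℝ => K p.1 p.2 ^ 2 * P p.2 := (hK.pow 2).mul (hP.comp continuous_snd)
  have hG : Continuous fun φ : ℝ => ∫ θ in (0:ℝ)..(2 * Real.pi), K φ θ ^ 2 * P θ :=
    intervalIntegral.continuous_parametric_intervalIntegral_of_continuous' (f := fun φ θ => K φ θ ^ 2 * P θ) hcontKP 0 (2 * Real.pi)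
  set M : ℝ := c * ∫ θ in (0:ℝ)..(2 * Real.pi), P θ with hM
  have hlt : ∀ φ : ℝ, M < ∫ θ in (0:ℝ)..(2 * Real.pi), K φ θ ^ 2 * P θ := by
    intro φ
    have h1 := hcon φ
    have h2 : c * ((2 * Real.pi)⁻¹ * ∫ θ in (0:ℝ)..(2 * Real.pi), P θ) = (2 * Real.pi)⁻¹ * M := by
      rw [hM]
      ring
    rw [h2] at h1
    exact lt_of_mul_lt_mul_left h1 (by positivity)
  have hpos : 0 < ∫ φ in (0:ℝ)..(2 * Real.pi), ((∫ θ in (0:ℝ)..(2 * Real.pi), K φ θ ^ 2 * P θ) - M) := by
    apply intervalIntegral.intervalIntegral_pos_of_pos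
    · exact (hG.sub continuous_const).intervalIntegrable _ _
    · intro φ
      linarith [hlt φ]
    · exact hpi
  have hswap : ∫ φ in (0:ℝ)..(2 * Real.pi), ∫ θ in (0:ℝ)..(2 * Real.pi), K φ θ ^ 2 * P θ =
      ∫ θ in (0:ℝ)..(2 * Real.pi), ∫ φ in (0:ℝ)..(2 * Real.pi), K φ θ ^ 2 * P θ := by
    apply MeasureTheory.intervalIntegral_intervalIntegral_swap
    apply IntegrableOn.mono_set (t := uIcc 0 (2 * Real.pi) ×ˢ uIcc 0 (2 * Real.pi)) _ (Set.prod_mono uIoc_subset_uIcc uIoc_subset_uIcc)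
    exact (hcontKP.continuousOn).integrableOn_compact (isCompact_uIcc.prod isCompact_uIcc)
  rw [intervalIntegral.integral_sub (hG.intervalIntegrable _ _) (continuous_const.intervalIntegrable _ _), hswap,
    intervalIntegral.integral_const] at hpos
  have hup : ∫ θ in (0:ℝ)..(2 * Real.pi), ∫ φ in (0:ℝ)..(2 * Real.pi), K φ θ ^ 2 * P θ ≤
      ∫ θ in (0:ℝ)..(2 * Real.pi), (2 * Real.pi * c) * P θ := by
    apply intervalIntegral.integral_mono_on hpi.le
    · have hcont2 : Continuous fun p : ℝ × ℝ => K p.2 p.1 ^ 2 * P p.1 :=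
        ((hK.comp (continuous_snd.prodMk continuous_fst)).pow 2).mul (hP.comp continuous_fst)
      exact (intervalIntegral.continuous_parametric_intervalIntegral_of_continuous' (f := fun θ φ => K φ θ ^ 2 * P θ)
        hcont2 0 (2 * Real.pi)).intervalIntegrable _ _
    · exact (continuous_const.mul hP).intervalIntegrable _ _
    · intro θ _
      rw [intervalIntegral.integral_mul_const]
      have h1 := hm θ
      rw [inv_mul_le_iff₀ hpi] at h1
      exact mul_le_mul_of_nonneg_right h1 (hP0 θ).le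
  rw [intervalIntegral.integral_const_mul] at hup
  rw [sub_zero, smul_eq_mul, hM] at hpos
  nlinarith

/-- Jensen -/
theorem dat_jensen (K P : ℝ → ℝ) (hK : Continuous K) (hP : Continuous P) (hP0 : ∀ θ, 0 < P θ) {c T : ℝ} (hc : 0 < c) (hT : 0 ≤ T)
    (hm : (2 * Real.pi)⁻¹ * ∫ θ in (0:ℝ)..(2 * Real.pi), K θ ^ 2 * P θ ≤ c * ((2 * Real.pi)⁻¹ * ∫ θ in (0:ℝ)..(2 * Real.pi), P θ)) :
    ((2 * Real.pi)⁻¹ * ∫ θ in (0:ℝ)..(2 * Real.pi), P θ) * Real.exp (-(T * Real.sqrt c)) ≤
      (2 * Real.pi)⁻¹ * ∫ θ in (0:ℝ)..(2 * Real.pi), Real.exp (-(T * K θ)) * P θ := by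
  have hpi : 0 < 2 * Real.pi := by positivity
  set y : ℝ := Real.sqrt c with hy
  have hy0 : 0 < y := Real.sqrt_pos.2 hc
  have hyc : y ^ 2 = c := Real.sq_sqrt hc.le
  set E : ℝ := Real.exp (-(T * y)) with hE
  have hE0 : 0 < E := Real.exp_pos _
  have hpt : ∀ x : ℝ, E * (1 - T * (x ^ 2 - c) / (2 * y)) ≤ Real.exp (-(T * x)) := by
    intro x
    have h1 : Real.exp (-(T * x)) = E * Real.exp (-(T * (x - y))) := by
      rw [hE, ← Real.exp_add]
      congr 1
      ring
    have h2 : 1 - T * (x - y) ≤ Real.exp (-(T * (x - y))) := by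
      have := Real.add_one_le_exp (-(T * (x - y)))
      linarith
    have h3 : T * (x - y) ≤ T * (x ^ 2 - c) / (2 * y) := by
      rw [le_div_iff₀ (by positivity), ← hyc]
      have : 0 ≤ T * (x - y) ^ 2 := by positivity
      nlinarith
    rw [h1]
    apply mul_le_mul_of_nonneg_left _ hE0.le
    linarith
  have hint : ∫ θ in (0:ℝ)..(2 * Real.pi), E * (1 + T * c / (2 * y)) * P θ - E * T / (2 * y) * (K θ ^ 2 * P θ) ≤
      ∫ θ in (0:ℝ)..(2 * Real.pi), Real.exp (-(T * K θ)) * P θ := by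
    apply intervalIntegral.integral_mono_on hpi.le
    · exact ((continuous_const.mul hP).sub (continuous_const.mul ((hK.pow 2).mul hP))).intervalIntegrable _ _
    · exact ((Real.continuous_exp.comp (continuous_const.mul hK).neg).mul hP).intervalIntegrable _ _
    · intro θ _
      have h1 := mul_le_mul_of_nonneg_right (hpt (K θ)) (hP0 θ).le
      refine le_trans (le_of_eq ?_) h1
      field_simp
      ring
  have hi1 : IntervalIntegrable (fun θ => E * (1 + T * c / (2 * y)) * P θ) volume 0 (2 * Real.pi) :=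
    (continuous_const.mul hP).intervalIntegrable _ _
  have hi2 : IntervalIntegrable (fun θ => E * T / (2 * y) * (K θ ^ 2 * P θ)) volume 0 (2 * Real.pi) :=
    (continuous_const.mul ((hK.pow 2).mul hP)).intervalIntegrable _ _
  rw [intervalIntegral.integral_sub hi1 hi2, intervalIntegral.integral_const_mul,
    intervalIntegral.integral_const_mul] at hint
  set I : ℝ := ∫ θ in (0:ℝ)..(2 * Real.pi), P θ with hI
  set J : ℝ := ∫ θ in (0:ℝ)..(2 * Real.pi), K θ ^ 2 * P θ with hJ
  have hJI : J ≤ c * I := by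
    have h1 : c * ((2 * Real.pi)⁻¹ * I) = (2 * Real.pi)⁻¹ * (c * I) := by ring
    rw [h1] at hm
    exact le_of_mul_le_mul_left hm (by positivity)
  have h4 : E * T / (2 * y) * J ≤ E * T / (2 * y) * (c * I) := by gcongr
  have h5 : E * (1 + T * c / (2 * y)) * I - E * T / (2 * y) * (c * I) = I * E := by
    field_simp
    ring
  have h6 : I * E ≤ ∫ θ in (0:ℝ)..(2 * Real.pi), Real.exp (-(T * K θ)) * P θ := by linarith
  rw [mul_assoc]
  exact mul_le_mul_of_nonneg_left h6 (by positivity)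

theorem t_DAT (hBLK : S_BLK) (hSYM : S_SYM) (hAVG : S_AVG) (hAVL : S_AVL) : S_DAT := by
  intro Y H κ t S hκ hκ1
  obtain ⟨f, hf, hfe, hf0⟩ := Pool.Agent.W677.Mar.exists_log S
  set r : ℝ := Real.exp (-3 * κ) with hr
  set s : ℝ := Real.exp (-κ) with hs
  have hr0 : 0 < r := Real.exp_pos _
  have hs0 : 0 < s := Real.exp_pos _
  have hrs : r < s := by
    rw [hr, hs]
    apply Real.exp_lt_exp.2
    linarith
  have hs1 : s < 1 := by
    rw [hs, Real.exp_lt_one_iff]
    linarith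
  have hr1 : r < 1 := hrs.trans hs1
  have hzne : ∀ φ : ℝ, circleMap 0 s φ ≠ 0 := fun φ => by
    rw [← norm_pos_iff, norm_cm hs0]
    exact hs0
  -- the argument of the logarithm
  have hslit : ∀ φ θ : ℝ, 1 - circleMap 0 r θ / circleMap 0 s φ ∈ slitPlane := by
    intro φ θ
    have h1 : ‖-(circleMap 0 r θ / circleMap 0 s φ)‖ < 1 := by
      rw [norm_neg, norm_div, norm_cm hs0, norm_cm hr0, div_lt_one hs0]
      exact hrs
    have := Complex.mem_slitPlane_of_norm_lt_one h1
    rwa [← sub_eq_add_neg] at this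
  set K : ℝ → ℝ → ℝ := fun φ θ => ‖f (circleMap 0 s φ, circleMap 0 r θ) +
    Complex.log (1 - circleMap 0 r θ / circleMap 0 s φ)‖ with hKdef
  have hKc : Continuous fun p : ℝ × ℝ => K p.1 p.2 := by
    have c1 : Continuous fun p : ℝ × ℝ => circleMap 0 s p.1 := (continuous_circleMap 0 s).comp continuous_fst
    have c2 : Continuous fun p : ℝ × ℝ => circleMap 0 r p.2 := (continuous_circleMap 0 r).comp continuous_snd
    have c3 : Continuous fun p : ℝ × ℝ => f (circleMap 0 s p.1, circleMap 0 r p.2) := by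
      rw [← continuousOn_univ]
      refine hf.comp (c1.prodMk c2).continuousOn fun p _ => ?_
      exact ⟨cm_mem hs0 hs1 _, cm_mem hr0 hr1 _⟩
    have c4 : Continuous fun p : ℝ × ℝ => Complex.log (1 - circleMap 0 r p.2 / circleMap 0 s p.1) := by
      rw [continuous_iff_continuousAt]
      intro p
      refine ContinuousAt.clog ?_ (hslit p.1 p.2)
      exact continuousAt_const.sub (c2.continuousAt.div c1.continuousAt (hzne _))
    exact (c3.add c4).norm
  set P : ℝ → ℝ := fun θ => ‖FF t H (circleMap 0 r θ)‖ ^ 2 with hPdef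
  have hFFd : DifferentiableOn ℂ (FF t H) (ball 0 1) := (S.dH.const_mul (t / 2)).cexp
  have hPc : Continuous P := (cont_cm hFFd hr0 hr1).norm.pow 2
  have hP0 : ∀ θ, 0 < P θ := by
    intro θ
    have : FF t H (circleMap 0 r θ) ≠ 0 := Complex.exp_ne_zero _
    have := norm_pos_iff.2 this
    positivity
  have hPe : ∀ θ, P θ = Real.exp (t * H (circleMap 0 r θ)).re := by
    intro θ
    show ‖Complex.exp (t / 2 * H (circleMap 0 r θ))‖ ^ 2 = _
    rw [Complex.norm_exp, ← Real.exp_nat_mul]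
    congr 1
    push_cast
    have : t * H (circleMap 0 r θ) = ((2:ℝ) : ℂ) * (t / 2 * H (circleMap 0 r θ)) := by
      push_cast
      ring
    rw [this, Complex.re_ofReal_mul]
  have hL0 : 0 ≤ la r := Pool.Agent.TH325.SI.la_nonneg hr0 hr1
  have hpi : 0 < 2 * Real.pi := by positivity
  have hmean : ∀ θ, (2 * Real.pi)⁻¹ * ∫ φ in (0:ℝ)..(2 * Real.pi), K φ θ ^ 2 ≤ 2 * la r + 4 := by
    intro θ
    set z : ℂ := circleMap 0 r θ with hz
    have hzn : ‖z‖ = r := norm_cm hr0 θ
    have hzb : z ∈ ball (0:ℂ) 1 := cm_mem hr0 hr1 θ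
    have hz0 : z ≠ 0 := by
      rw [← norm_pos_iff, hzn]
      exact hr0
    have hAc : ContinuousOn (fun w => f (z, w)) (ball 0 1) := by
      apply hf.comp (by fun_prop)
      intro w hw
      exact ⟨hzb, hw⟩
    have hAd : DifferentiableOn ℂ (fun w => f (z, w)) (ball 0 1) :=
      Pool.Agent.W677.Mar.log_diff isOpen_ball hAc (Pool.Agent.W677.Mar.NN_diff S.G.diff hzb) (fun w hw => hfe z hzb w hw)
    have h1 := hAVG Y H (fun w => f (z, w)) z s S hz0 hzb hs0 hs1 hAd (hf0 z hzb) (fun w hw => hfe z hzb w hw)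
    rw [hzn] at h1
    unfold mn at h1
    have h2 := hAVL z s (by rw [hzn]; exact hrs)
    have hc1 : Continuous fun φ : ℝ => f (z, circleMap 0 s φ) := cont_cm hAd hs0 hs1
    have hc2 : Continuous fun φ : ℝ => Complex.log (1 - z / circleMap 0 s φ) := by
      rw [continuous_iff_continuousAt]
      intro φ
      refine ContinuousAt.clog ?_ (hslit φ θ)
      exact continuousAt_const.sub (continuousAt_const.div (continuous_circleMap 0 s).continuousAt (hzne _))
    have hpt : ∀ φ : ℝ, K φ θ ^ 2 ≤ 2 * ‖f (z, circleMap 0 s φ)‖ ^ 2 + 2 * ‖Complex.log (1 - z / circleMap 0 s φ)‖ ^ 2 := by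
      intro φ
      have h3 : f (circleMap 0 s φ, z) = f (z, circleMap 0 s φ) :=
        hSYM Y H f S hf hfe hf0 _ (cm_mem hs0 hs1 φ) _ hzb
      have h4 : K φ θ ≤ ‖f (z, circleMap 0 s φ)‖ + ‖Complex.log (1 - z / circleMap 0 s φ)‖ := by
        show ‖f (circleMap 0 s φ, z) + Complex.log (1 - z / circleMap 0 s φ)‖ ≤ _
        rw [h3]
        exact norm_add_le _ _
      have h5 : 0 ≤ K φ θ := norm_nonneg _
      calc K φ θ ^ 2 ≤ (‖f (z, circleMap 0 s φ)‖ + ‖Complex.log (1 - z / circleMap 0 s φ)‖) ^ 2 := by gcongr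
        _ ≤ _ := by nlinarith [sq_nonneg (‖f (z, circleMap 0 s φ)‖ - ‖Complex.log (1 - z / circleMap 0 s φ)‖)]
    have hKθ : Continuous fun φ : ℝ => K φ θ := hKc.comp (continuous_id.prodMk continuous_const)
    have h6 : ∫ φ in (0:ℝ)..(2 * Real.pi), K φ θ ^ 2 ≤ ∫ φ in (0:ℝ)..(2 * Real.pi),
        (2 * ‖f (z, circleMap 0 s φ)‖ ^ 2 + 2 * ‖Complex.log (1 - z / circleMap 0 s φ)‖ ^ 2) := by
      apply intervalIntegral.integral_mono_on hpi.le
      · exact (hKθ.pow 2).intervalIntegrable _ _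
      · exact ((continuous_const.mul (hc1.norm.pow 2)).add (continuous_const.mul (hc2.norm.pow 2))).intervalIntegrable _ _
      · intro φ _
        exact hpt φ
    have hi1 : IntervalIntegrable (fun φ => 2 * ‖f (z, circleMap 0 s φ)‖ ^ 2) volume 0 (2 * Real.pi) :=
      (continuous_const.mul (hc1.norm.pow 2)).intervalIntegrable _ _
    have hi2 : IntervalIntegrable (fun φ => 2 * ‖Complex.log (1 - z / circleMap 0 s φ)‖ ^ 2) volume 0 (2 * Real.pi) :=
      (continuous_const.mul (hc2.norm.pow 2)).intervalIntegrable _ _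
    rw [intervalIntegral.integral_add hi1 hi2, intervalIntegral.integral_const_mul,
      intervalIntegral.integral_const_mul] at h6
    rw [inv_mul_le_iff₀ hpi] at h1 h2 ⊢
    linarith
  obtain ⟨φ, hφ⟩ := dat_choice K P hKc hPc hP0 hmean
  have hKφ : Continuous fun θ : ℝ => K φ θ := hKc.comp (continuous_const.prodMk continuous_id)
  have hJ := dat_jensen (fun θ => K φ θ) P hKφ hPc hP0 (c := 2 * la r + 4) (T := ‖t‖) (by linarith) (norm_nonneg _) hφ
  have hv : ‖circleMap 0 s φ‖ = Real.exp (-κ) := norm_cm hs0 φ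
  have hB := hBLK Y H f κ (circleMap 0 s φ) S hf hfe hf0 hκ hκ1 hv
  refine ⟨_, _, hB, ?_⟩
  have e1 : mn (FF t H) r = (2 * Real.pi)⁻¹ * ∫ θ in (0:ℝ)..(2 * Real.pi), P θ := rfl
  rw [e1]
  refine hJ.trans ?_
  unfold J1
  apply mul_le_mul_of_nonneg_left _ (by positivity)
  have hv0 : circleMap 0 s φ ≠ 0 := hzne φ
  have hcircle : ∀ θ : ℝ, (r : ℂ) * circleMap 0 1 θ = circleMap 0 r θ := by
    intro θ
    simp [circleMap]
  have hpt : ∀ θ : ℝ, Real.exp (-(‖t‖ * K φ θ)) * P θ ≤ Real.exp (t * (H ((r : ℂ) * circleMap 0 1 θ) -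
      (f (circleMap 0 s φ, (r : ℂ) * circleMap 0 1 θ) + Complex.log (1 - (r : ℂ) * circleMap 0 1 θ / circleMap 0 s φ)))).re := by
    intro θ
    rw [hcircle, hPe, ← Real.exp_add]
    apply Real.exp_le_exp.2
    rw [mul_sub, Complex.sub_re]
    have h1 : (t * (f (circleMap 0 s φ, circleMap 0 r θ) + Complex.log (1 - circleMap 0 r θ / circleMap 0 s φ))).re ≤ ‖t‖ * K φ θ := by
      rw [hKdef]
      show _ ≤ ‖t‖ * ‖_‖
      rw [← norm_mul]
      exact Complex.re_le_norm _
    linarith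
  have hint : ∫ θ in (0:ℝ)..(2 * Real.pi), Real.exp (-(‖t‖ * K φ θ)) * P θ ≤ ∫ θ in (0:ℝ)..(2 * Real.pi),
      Real.exp (t * (H ((r : ℂ) * circleMap 0 1 θ) -
      (f (circleMap 0 s φ, (r : ℂ) * circleMap 0 1 θ) + Complex.log (1 - (r : ℂ) * circleMap 0 1 θ / circleMap 0 s φ)))).re := by
    apply intervalIntegral.integral_mono_on hpi.le
    · exact ((Real.continuous_exp.comp (continuous_const.mul hKφ).neg).mul hPc).intervalIntegrable _ _
    · apply Continuous.intervalIntegrable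
      simp only [hcircle]
      have c1 : Continuous fun θ : ℝ => H (circleMap 0 r θ) := cont_cm S.dH hr0 hr1
      have c3 : Continuous fun θ : ℝ => f (circleMap 0 s φ, circleMap 0 r θ) := by
        rw [← continuousOn_univ]
        refine hf.comp (continuous_const.prodMk (continuous_circleMap 0 r)).continuousOn fun p _ => ?_
        exact ⟨cm_mem hs0 hs1 _, cm_mem hr0 hr1 _⟩
      have c4 : Continuous fun θ : ℝ => Complex.log (1 - circleMap 0 r θ / circleMap 0 s φ) := by
        rw [continuous_iff_continuousAt]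
        intro θ
        refine ContinuousAt.clog ?_ (hslit φ θ)
        exact continuousAt_const.sub ((continuous_circleMap 0 r).continuousAt.div_const _)
      exact Real.continuous_exp.comp (Complex.continuous_re.comp (continuous_const.mul (c1.sub (c3.add c4))))
    · intro θ _
      exact hpt θ
  exact hint

end Run7.h820.SR
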