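import Pool.Agent.Run7.h820.SR.Stm

set_option autoImplicit false
open Complex Filter Topology Set Metric MeasureTheory

namespace Run7.h820.SR

open Pool.Agent.TH325.SI (mn em la cm_mem norm_cm cont_cm)
open Pool.Agent.W677.Mar (Sg IsG0 NN hat)
open Q90.SM (IsSig marshall pmean circ FF)

section

variable {κ B : ℝ} {γ ℓ A E : ℂ → ℂ} {N : ℕ}

theorem low_N (F : Fx κ B γ ℓ N A) : 16 * B ^ 2 ≤ κ * N ∧ 16 * B ≤ κ * N ∧ (16:ℝ) ≤ N := by
  have h1 : 16 * B ^ 2 ≤ κ * N := by
    have := F.hN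
    rw [div_le_iff₀ F.blk.κ0] at this
    linarith
  have h2 : 16 * B ≤ κ * N := by nlinarith [F.blk.B1]
  refine ⟨h1, h2, ?_⟩
  have h3 : κ * (N:ℝ) ≤ 1 * N := mul_le_mul_of_nonneg_right F.blk.κ1 (Nat.cast_nonneg _)
  nlinarith [F.blk.B1]

theorem low_pow {v : ℂ} (hv : v ∈ ball (0:ℂ) 1) {m : ℕ} (hm : m ≠ 0) : v ^ m ∈ ball (0:ℂ) 1 := by
  rw [mem_ball_zero_iff] at hv ⊢
  rw [norm_pow]
  exact pow_lt_one₀ (norm_nonneg _) hv hm

theorem low_sum (hN : N ≠ 0) (hfe : ∀ v ∈ ball (0:ℂ) 1, E v = ℓ (v * Complex.exp (A (v ^ N) / N)) + E (v ^ N)) (n : ℕ) :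
    ∀ v ∈ ball (0:ℂ) 1, E v = ∑ j ∈ Finset.range n, ℓ (v ^ (N ^ j) * Complex.exp (A ((v ^ (N ^ j)) ^ N) / N)) + E (v ^ (N ^ n)) := by
  induction n with
  | zero =>
    intro v _
    simp
  | succ n ih =>
    intro v hv
    have hm : N ^ n ≠ 0 := pow_ne_zero _ hN
    rw [Finset.sum_range_succ, add_assoc, ih v hv, hfe _ (low_pow hv hm), ← pow_mul v (N ^ n) N, ← pow_succ]

theorem low_term (hLIP : S_LIP) (F : Fx κ B γ ℓ N A) {w u : ℂ} (hw : w ∈ ball (0:ℂ) 1) (hu : ‖u‖ = 1) (hwu : ‖w - u‖ ≤ 1 / N) :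
    ‖ℓ (w * Complex.exp (A (w ^ N) / N)) - ℓ u‖ ≤ 1 := by
  obtain ⟨h1, h2, h3⟩ := low_N F
  have hκ := F.blk.κ0
  have hB := F.blk.B1
  have hN0 : (0:ℝ) < N := by linarith
  have hNn : N ≠ 0 := by
    intro h0
    rw [h0] at h3
    norm_num at h3
  have hwn : ‖w‖ < 1 := mem_ball_zero_iff.1 hw
  have hx : ‖A (w ^ N) / N‖ ≤ 2 * B / N := by
    rw [norm_div, Complex.norm_natCast]
    gcongr
    exact F.bA _ (low_pow hw hNn)
  have hx2 : 2 * B / N ≤ κ / 8 := by
    rw [div_le_div_iff₀ hN0 (by norm_num)]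
    linarith
  have hx3 : ‖A (w ^ N) / N‖ ≤ 1 := by
    have := F.blk.κ1
    linarith
  have h4 := Complex.norm_exp_sub_one_le hx3
  have h5 : ‖w * Complex.exp (A (w ^ N) / N)‖ ≤ Real.exp (κ / 2) := by
    rw [norm_mul, Complex.norm_exp]
    have h6 : Real.exp (A (w ^ N) / N).re ≤ Real.exp (κ / 2) := by
      apply Real.exp_le_exp.2
      have := Complex.re_le_norm (A (w ^ N) / N)
      linarith
    calc ‖w‖ * Real.exp (A (w ^ N) / N).re ≤ 1 * Real.exp (κ / 2) := by gcongr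
      _ = _ := one_mul _
  have h6 : ‖u‖ ≤ Real.exp (κ / 2) := by
    rw [hu]
    exact Real.one_le_exp (by linarith)
  have h7 := hLIP κ B ℓ hκ (by linarith) F.blk.dℓ F.blk.bℓ _ _ h5 h6
  refine h7.trans ?_
  have h8 : ‖w * Complex.exp (A (w ^ N) / N) - u‖ ≤ 5 * B / N := by
    have e : w * Complex.exp (A (w ^ N) / N) - u = w * (Complex.exp (A (w ^ N) / N) - 1) + (w - u) := by ring
    rw [e]
    calc ‖w * (Complex.exp (A (w ^ N) / N) - 1) + (w - u)‖ ≤ ‖w‖ * ‖Complex.exp (A (w ^ N) / N) - 1‖ + ‖w - u‖ := by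
          rw [← norm_mul]
          exact norm_add_le _ _
      _ ≤ 1 * (2 * (2 * B / N)) + 1 / N := by
          gcongr
          exact h4.trans (by gcongr)
      _ ≤ 5 * B / N := by
          rw [show 5 * B / N = 1 * (2 * (2 * B / N)) + B / N by ring]
          gcongr
  calc 2 * B / κ * ‖w * Complex.exp (A (w ^ N) / N) - u‖ ≤ 2 * B / κ * (5 * B / N) := by gcongr
    _ = 10 * B ^ 2 / (κ * N) := by
        field_simp
        ring
    _ ≤ 1 := by
        rw [div_le_one (by positivity)]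
        nlinarith

end

/-- the point `1 / (R e^{iθ})`, `R = exp a` -/
theorem low_pt (a θ : ℝ) : (circ (Real.exp a) θ)⁻¹ = Complex.exp (-((a:ℂ) + θ * I)) := by
  unfold circ
  rw [Complex.ofReal_exp, ← Complex.exp_add, ← Complex.exp_neg]

theorem low_pt_pow (a θ : ℝ) (m : ℕ) : (Complex.exp (-((a:ℂ) + θ * I))) ^ m =
    ((Real.exp (-(m * a)) : ℝ) : ℂ) * circleMap 0 1 (m * -θ) := by
  rw [← Complex.exp_nat_mul, circleMap, Complex.ofReal_exp, zero_add, Complex.ofReal_one, one_mul, ← Complex.exp_add]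
  congr 1
  push_cast
  ring

theorem circle_lip (x y : ℝ) : ‖circleMap 0 1 x - circleMap 0 1 y‖ ≤ |x - y| := by
  have h := (lipschitzWith_circleMap 0 1).dist_le_mul x y
  simpa [dist_eq_norm] using h

theorem t_LOW (hLIP : S_LIP) (hNI : S_NI) : S_LOW := by
  intro κ B γ ℓ N A E h F hE hfe hh
  obtain ⟨h1, h2, h3⟩ := low_N F
  have hκ := F.blk.κ0
  have hB := F.blk.B1
  have hN0 : (0:ℝ) < N := by linarith
  have hNn : N ≠ 0 := by
    intro h0
    rw [h0] at h3
    norm_num at h3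
  have hN2 : 2 ≤ N := by
    have : (2:ℝ) ≤ N := by linarith
    exact_mod_cast this
  -- the bound on the circle `|w| = 1/e`
  obtain ⟨C1, hC1⟩ := (isCompact_sphere (0:ℂ) (Real.exp (-1))).exists_bound_of_continuousOn (f := E) (by
    apply hE.continuousOn.mono
    intro w hw
    rw [mem_sphere_zero_iff_norm] at hw
    rw [mem_ball_zero_iff, hw, Real.exp_lt_one_iff]
    norm_num)
  have hC10 : 0 ≤ C1 := by
    have h4 := hC1 ((Real.exp (-1) : ℝ) : ℂ) (by
      rw [mem_sphere_zero_iff_norm, Complex.norm_real, Real.norm_of_nonneg (Real.exp_pos _).le])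
    exact (norm_nonneg _).trans h4
  refine ⟨C1 + 2 * B, by linarith, ?_⟩
  intro t n
  have hpi : 0 < 2 * Real.pi := by positivity
  set a : ℝ := 1 / (N:ℝ) ^ n with ha
  have ha0 : 0 < a := by rw [ha]; positivity
  set v : ℝ → ℂ := fun θ => Complex.exp (-((a:ℂ) + θ * I)) with hv
  have hvn : ∀ θ, ‖v θ‖ = Real.exp (-a) := by
    intro θ
    rw [hv]
    show ‖Complex.exp (-((a:ℂ) + θ * I))‖ = _
    rw [Complex.norm_exp]
    simp
  have hvb : ∀ θ, v θ ∈ ball (0:ℂ) 1 := by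
    intro θ
    rw [mem_ball_zero_iff, hvn, Real.exp_lt_one_iff]
    linarith
  have hvc : Continuous v := by
    rw [hv]
    fun_prop
  have hhe : ∀ θ, h (circ (Real.exp a) θ) = E (v θ) - A (v θ) := by
    intro θ
    have h5 : 1 < ‖circ (Real.exp a) θ‖ := by
      rw [Q90.SM.norm_circ (Real.exp_pos _).le]
      exact Real.one_lt_exp_iff.2 ha0
    rw [hh _ h5, low_pt]
  set g : ℝ → ℝ := fun x => (t * ℓ (circleMap 0 1 x)).re with hg
  -- pointwise bound
  have hkey : ∀ θ, ∑ j ∈ Finset.range n, g ((N:ℝ) ^ j * -θ) - ‖t‖ * (C1 + 2 * B + n) ≤ (t * (E (v θ) - A (v θ))).re := by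
    intro θ
    have hs := low_sum (E := E) hNn hfe n (v θ) (hvb θ)
    have hlast : ‖E ((v θ) ^ (N ^ n))‖ ≤ C1 := by
      apply hC1
      rw [mem_sphere_zero_iff_norm, norm_pow, hvn, ← Real.exp_nat_mul]
      congr 1
      rw [ha]
      push_cast
      field_simp
    have hterm : ∀ j ∈ Finset.range n, g ((N:ℝ) ^ j * -θ) - ‖t‖ ≤
        (t * ℓ ((v θ) ^ (N ^ j) * Complex.exp (A (((v θ) ^ (N ^ j)) ^ N) / N))).re := by
      intro j hj
      rw [Finset.mem_range] at hj
      have hu : ‖circleMap 0 1 ((N:ℝ) ^ j * -θ)‖ = 1 := by simp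
      have hpw := low_pt_pow a θ (N ^ j)
      push_cast at hpw
      have hwu : ‖(v θ) ^ (N ^ j) - circleMap 0 1 ((N:ℝ) ^ j * -θ)‖ ≤ 1 / N := by
        rw [hv]
        show ‖(Complex.exp (-((a:ℂ) + θ * I))) ^ (N ^ j) - _‖ ≤ _
        rw [low_pt_pow]
        push_cast
        have e : Complex.exp (-((N:ℂ) ^ j * (a:ℂ))) * circleMap 0 1 ((N:ℝ) ^ j * -θ) - circleMap 0 1 ((N:ℝ) ^ j * -θ) =
            (((Real.exp (-((N:ℝ) ^ j * a)) - 1 : ℝ)) : ℂ) * circleMap 0 1 ((N:ℝ) ^ j * -θ) := by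
          push_cast
          ring
        rw [e, norm_mul, hu, mul_one, Complex.norm_real, Real.norm_eq_abs, abs_sub_comm, abs_of_nonneg]
        · have h6 := Real.add_one_le_exp (-((N:ℝ) ^ j * a))
          have h7 : (N:ℝ) ^ j * a ≤ 1 / N := by
            rw [ha, mul_one_div, div_le_div_iff₀ (by positivity) hN0, one_mul, ← pow_succ]
            exact pow_le_pow_right₀ (by linarith) hj
          linarith
        · rw [sub_nonneg, Real.exp_le_one_iff]
          have : 0 ≤ (N:ℝ) ^ j * a := by positivity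
          linarith
      have h8 := low_term hLIP F (low_pow (hvb θ) (pow_ne_zero j hNn)) hu hwu
      have h9 : (t * ℓ (circleMap 0 1 ((N:ℝ) ^ j * -θ))).re -
          (t * ℓ ((v θ) ^ (N ^ j) * Complex.exp (A (((v θ) ^ (N ^ j)) ^ N) / N))).re ≤ ‖t‖ * 1 := by
        rw [← Complex.sub_re, ← mul_sub]
        refine (Complex.re_le_norm _).trans ?_
        rw [norm_mul, norm_sub_rev]
        gcongr
      show (t * ℓ (circleMap 0 1 ((N:ℝ) ^ j * -θ))).re - ‖t‖ ≤ _
      linarith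
    have hsum := Finset.sum_le_sum hterm
    rw [Finset.sum_sub_distrib, Finset.sum_const, Finset.card_range, nsmul_eq_mul] at hsum
    have e1 : (t * (E (v θ) - A (v θ))).re = ∑ j ∈ Finset.range n, (t * ℓ ((v θ) ^ (N ^ j) * Complex.exp (A (((v θ) ^ (N ^ j)) ^ N) / N))).re
        + (t * E ((v θ) ^ (N ^ n))).re - (t * A (v θ)).re := by
      rw [mul_sub, Complex.sub_re, hs, mul_add, Complex.add_re, Finset.mul_sum, Complex.re_sum]
    have h10 : -(‖t‖ * C1) ≤ (t * E ((v θ) ^ (N ^ n))).re := by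
      have := Complex.abs_re_le_norm (t * E ((v θ) ^ (N ^ n)))
      rw [norm_mul] at this
      have h11 : ‖t‖ * ‖E ((v θ) ^ (N ^ n))‖ ≤ ‖t‖ * C1 := by gcongr
      linarith [neg_abs_le (t * E ((v θ) ^ (N ^ n))).re]
    have h12 : (t * A (v θ)).re ≤ ‖t‖ * (2 * B) := by
      refine (Complex.re_le_norm _).trans ?_
      rw [norm_mul]
      gcongr
      exact F.bA _ (hvb θ)
    rw [e1]
    linarith
  -- near independence
  have hgl : ∀ x y : ℝ, |g x - g y| ≤ ‖t‖ * (2 * B / κ) * |x - y| := by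
    intro x y
    rw [hg]
    show |(t * ℓ (circleMap 0 1 x)).re - (t * ℓ (circleMap 0 1 y)).re| ≤ _
    rw [← Complex.sub_re, ← mul_sub]
    refine (Complex.abs_re_le_norm _).trans ?_
    rw [norm_mul, mul_assoc]
    have hc : ∀ x : ℝ, ‖circleMap 0 1 x‖ ≤ Real.exp (κ / 2) := by
      intro x
      have : ‖circleMap 0 1 x‖ = 1 := by simp
      rw [this]
      exact Real.one_le_exp (by linarith)
    have h13 := hLIP κ B ℓ hκ (by linarith) F.blk.dℓ F.blk.bℓ _ _ (hc x) (hc y)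
    gcongr
    refine h13.trans ?_
    gcongr
    exact circle_lip x y
  have hgp : Function.Periodic g (2 * Real.pi) := by
    intro x
    rw [hg]
    show (t * ℓ (circleMap 0 1 (x + 2 * Real.pi))).re = _
    rw [periodic_circleMap 0 1 x]
  have hδ : 2 * Real.pi * (‖t‖ * (2 * B / κ)) ≤ ‖t‖ * ((N:ℝ) - 1) := by
    have h14 : 2 * Real.pi * (2 * B / κ) ≤ (N:ℝ) - 1 := by
      have hp := Real.pi_lt_d2
      have h15 : 2 * Real.pi * (2 * B / κ) = (4 * Real.pi * B) / κ := by ring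
      rw [h15, div_le_iff₀ hκ]
      have h16 := F.blk.κ1
      nlinarith
    calc 2 * Real.pi * (‖t‖ * (2 * B / κ)) = ‖t‖ * (2 * Real.pi * (2 * B / κ)) := by ring
      _ ≤ _ := by gcongr
  have hni := hNI g (‖t‖ * (2 * B / κ)) ‖t‖ N hgl hgp hN2 (by positivity) hδ n
  have hgc : Continuous g := by
    have hLip : LipschitzWith (Real.toNNReal (‖t‖ * (2 * B / κ))) g := by
      apply LipschitzWith.of_dist_le_mul
      intro x y
      rw [Real.dist_eq, Real.dist_eq, Real.coe_toNNReal _ (by positivity)]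
      exact hgl x y
    exact hLip.continuous
  set S : ℝ → ℝ := fun θ => Real.exp (∑ j ∈ Finset.range n, g ((N:ℝ) ^ j * θ)) with hS
  have hSc : Continuous S := by
    rw [hS]
    apply Real.continuous_exp.comp
    apply continuous_finsetSum
    intro j _
    exact hgc.comp (continuous_const.mul continuous_id)
  have hSp : Function.Periodic S (2 * Real.pi) := by
    intro x
    rw [hS]
    show Real.exp (∑ j ∈ Finset.range n, g ((N:ℝ) ^ j * (x + 2 * Real.pi))) = Real.exp (∑ j ∈ Finset.range n, g ((N:ℝ) ^ j * x))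
    congr 1
    apply Finset.sum_congr rfl
    intro j _
    have := hgp.nat_mul (N ^ j) ((N:ℝ) ^ j * x)
    rw [mul_add]
    push_cast at this
    exact this
  have hrefl := Pool.Agent.TH325.SI.refl_int hSp
  unfold pmean
  rw [one_div]
  have hmono : ∫ θ in (0:ℝ)..(2 * Real.pi), Real.exp (-(‖t‖ * (C1 + 2 * B + n))) * S (-θ) ≤
      ∫ θ in (0:ℝ)..(2 * Real.pi), ‖Complex.exp (t * h (circ (Real.exp a) θ))‖ := by
    apply intervalIntegral.integral_mono_on hpi.le
    · exact (continuous_const.mul (hSc.comp continuous_neg)).intervalIntegrable _ _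
    · apply Continuous.intervalIntegrable
      simp only [hhe]
      have c1 : Continuous fun θ => E (v θ) := by
        rw [← continuousOn_univ]
        exact hE.continuousOn.comp hvc.continuousOn fun θ _ => hvb θ
      have c2 : Continuous fun θ => A (v θ) := by
        rw [← continuousOn_univ]
        exact F.dA.continuousOn.comp hvc.continuousOn fun θ _ => hvb θ
      exact (Complex.continuous_exp.comp (continuous_const.mul (c1.sub c2))).norm
    · intro θ _
      rw [hhe, Complex.norm_exp, hS]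
      show Real.exp _ * Real.exp _ ≤ _
      rw [← Real.exp_add]
      apply Real.exp_le_exp.2
      linarith [hkey θ]
  rw [intervalIntegral.integral_const_mul, hrefl] at hmono
  calc Real.exp (-(‖t‖ * (C1 + 2 * B + 2 * n))) * J1 t ℓ ^ n
      = Real.exp (-(‖t‖ * (C1 + 2 * B + n))) * (Real.exp (-‖t‖) * J1 t ℓ) ^ n := by
        rw [mul_pow, ← mul_assoc, ← Real.exp_nat_mul, ← Real.exp_add]
        congr 2
        ring
    _ ≤ Real.exp (-(‖t‖ * (C1 + 2 * B + n))) * ((2 * Real.pi)⁻¹ * ∫ θ in (0:ℝ)..(2 * Real.pi), S θ) := by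
        gcongr
        exact hni
    _ = (2 * Real.pi)⁻¹ * (Real.exp (-(‖t‖ * (C1 + 2 * B + n))) * ∫ θ in (0:ℝ)..(2 * Real.pi), S θ) := by ring
    _ ≤ _ := by gcongr

end Run7.h820.SR
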