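import Pool.Agent.Run7.h820.SR.Stm

set_option autoImplicit false
open Complex Filter Topology Set Metric MeasureTheory

namespace Run7.h820.SR

open Pool.Agent.TH325.SI (mn em la)

theorem t_MON : S_MON := by
  intro F s s' hF hs hss hs'
  have h1 := Pool.Agent.TH325.SI.par hF hs (by linarith)
  have h2 := Pool.Agent.TH325.SI.par hF (by linarith : 0 < s') hs'
  refine hasSum_le (fun n => ?_) h1 h2
  gcongr

end Run7.h820.SR
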