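import Pool.Agent.Run7.h820.SR.Tfae
import Pool.Agent.Run7.h820.SR.DAT
import Pool.Agent.Run7.h820.SR.LOW
import Pool.Agent.Run7.h820.SR.BND
import Pool.Agent.Run7.h820.SR.AVG
import Pool.Agent.Run7.h820.SR.MON
import Pool.Agent.Run7.h321.SR.FIX
import Pool.Agent.Run7.h321.SR.NI
import Pool.Agent.Run7.h416.SR.LIP
import Pool.Agent.Run7.h590.SR.LOG
import Pool.Agent.Run7.h590.SR.SYM
import Pool.Agent.Run7.h705.SR.SIG
import Pool.Agent.Run7.h957.SR.AVL
import Pool.Agent.Run7.h957.SR.BLK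

/-! All pieces together. -/

set_option autoImplicit false

namespace Run7.h820.SR

theorem pcs : Pcs where
  FIX := Run7.h321.SR.t_FIX t_LIP
  INJ := Run7.h590.SR.t_INJ
  LOG := Run7.h590.SR.t_LOG
  SIG := Run7.h705.SR.t_SIG
  LOW := t_LOW t_LIP Run7.h321.SR.t_NI
  DAT := t_DAT (Run7.h957.SR.t_BLK t_BND) Run7.h590.SR.t_SYM t_AVG Run7.h957.SR.t_AVL
  MON := t_MON

end Run7.h820.SR
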