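import Pool.Agent.Run7.h820.SR.TfaeJ
import Pool.Agent.Run7.h820.SR.Asm
import Pool.Agent.Run7.h639.SR.FAB
import Pool.Agent.Run7.h639.SR.EPS
import Pool.Agent.Run7.h617.SR.ETA
import Pool.Agent.Run7.h108.JR.FBD

/-! All pieces together, for polynomial Julia sets. -/

set_option autoImplicit false

namespace Run7.h820.SR

theorem pcsJ : PcsJ where
  P := pcs
  FAB := Run7.h639.SR.t_FAB
  FBD := Pool.Agent.Run7.h108.JR.t_FBD
  EPS := Run7.h639.SR.t_EPS
  ETA := Run7.h617.SR.t_ETA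
  LIP := t_LIP

end Run7.h820.SR
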