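import Pool.Agent.Run7.h820.SR.MainA

/-! The equivalences. -/

set_option autoImplicit false
open Complex Filter Topology Set Metric MeasureTheory

namespace Run7.h820.SR

open Pool.Agent.TH325.SI (mn em la)
open Pool.Agent.W677.Mar (Sg IsG0 NN hat)
open Q90.SM (IsSig marshall pmean circ FF)

/-- near `1` powers of `1/(R-1)` are large -/
theorem ev_large (C : ℝ) {ε : ℝ} (hε : 0 < ε) : ∀ᶠ R in 𝓝[>] (1:ℝ), C ≤ (1 / (R - 1)) ^ ε ∧ 1 < R ∧ R < 3 / 2 := by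
  set D : ℝ := max C 1 with hD
  have hD0 : 0 < D := lt_of_lt_of_le one_pos (le_max_right _ _)
  set d : ℝ := (1 / D) ^ (1 / ε) with hd
  have hd0 : 0 < d := by rw [hd]; positivity
  have h1 : ∀ᶠ R in 𝓝[>] (1:ℝ), R < 1 + d := mem_nhdsWithin_of_mem_nhds (Iio_mem_nhds (by linarith))
  have h2 : ∀ᶠ R in 𝓝[>] (1:ℝ), R < 3 / 2 := mem_nhdsWithin_of_mem_nhds (Iio_mem_nhds (by norm_num))
  filter_upwards [h1, h2, self_mem_nhdsWithin] with R ha hb hc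
  have hc' : (1:ℝ) < R := hc
  refine ⟨?_, hc', hb⟩
  have h3 : 0 < R - 1 := by linarith
  have h4 : 1 / d ≤ 1 / (R - 1) := one_div_le_one_div_of_le h3 (by linarith)
  have h5 : (1 / d) ^ ε = D := by
    rw [hd, one_div, ← Real.inv_rpow (by positivity), one_div, inv_inv, ← Real.rpow_mul hD0.le, one_div,
      inv_mul_cancel₀ hε.ne', Real.rpow_one]
  calc C ≤ D := le_max_left _ _
    _ = (1 / d) ^ ε := h5.symm
    _ ≤ (1 / (R - 1)) ^ ε := Real.rpow_le_rpow (by positivity) h4 hε.le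

theorem q_le {R : ℝ} (h1 : 1 < R) (h2 : R < 3 / 2) : 1 ≤ R ^ 2 / (R ^ 2 - 1) ∧ R ^ 2 / (R ^ 2 - 1) ≤ 1 / (R - 1) := by
  have h3 : 0 < R ^ 2 - 1 := by nlinarith
  have h4 : 0 < R - 1 := by linarith
  constructor
  · rw [le_div_iff₀ h3]
    linarith
  · rw [div_le_div_iff₀ h3 h4]
    nlinarith

theorem one_le_b {R : ℝ} (h1 : 1 < R) (h2 : R < 3 / 2) : 1 ≤ 1 / (R - 1) :=
  (q_le h1 h2).1.trans (q_le h1 h2).2

/-- for `c` slightly larger than `1/(4A)` -/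
theorem exists_c {A T ε : ℝ} (hA : 0 < A) (hε : 0 < ε) : ∃ c : ℝ, 1 / (4 * A) < c ∧ c * T ^ 2 ≤ T ^ 2 / (4 * A) + ε := by
  refine ⟨1 / (4 * A) + ε / (T ^ 2 + 1), by linarith [show 0 < ε / (T ^ 2 + 1) by positivity], ?_⟩
  have h1 : ε / (T ^ 2 + 1) * T ^ 2 ≤ ε := by
    rw [div_mul_eq_mul_div, div_le_iff₀ (by positivity)]
    nlinarith
  have h2 : (1 / (4 * A) + ε / (T ^ 2 + 1)) * T ^ 2 = T ^ 2 / (4 * A) + ε / (T ^ 2 + 1) * T ^ 2 := by ring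
  rw [h2]
  linarith

/-- strong Marshall gives the spectral bound for every map -/
theorem q16 {A : ℝ} (hA : 0 < A) (hQ : Q90.SM.Q1 Set.univ A) {ψ h : ℂ → ℂ} (hS : IsSig ψ h) (t : ℂ) {ε : ℝ} (hε : 0 < ε) :
    ∀ᶠ R in 𝓝[>] (1:ℝ), pmean t R h ≤ (1 / (R - 1)) ^ (‖t‖ ^ 2 / (4 * A) + ε) := by
  have h2 := Q90.SM.q12 (Q90.SM.q11 Q90.SM.ext_all hQ) hA
  obtain ⟨c, hc, hct⟩ := exists_c (T := ‖t‖) hA (half_pos hε)
  obtain ⟨K, hK⟩ := h2 c hc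
  filter_upwards [ev_large K (half_pos hε)] with R hR
  obtain ⟨hR0, hR1, hR2⟩ := hR
  have h3 : 0 < R - 1 := by linarith
  have hb := one_le_b hR1 hR2
  obtain ⟨hq1, hq2⟩ := q_le hR1 hR2
  have hc0 : 0 < c := lt_trans (by positivity) hc
  have e : ‖t‖ ^ 2 / (4 * A) + ε = (‖t‖ ^ 2 / (4 * A) + ε / 2) + ε / 2 := by ring
  have h4 : (R ^ 2 / (R ^ 2 - 1)) ^ (c * ‖t‖ ^ 2) ≤ (1 / (R - 1)) ^ (‖t‖ ^ 2 / (4 * A) + ε / 2) := by
    refine (Real.rpow_le_rpow (by linarith) hq2 (by positivity)).trans ?_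
    exact Real.rpow_le_rpow_of_exponent_le hb hct
  have h5 : 0 ≤ (R ^ 2 / (R ^ 2 - 1)) ^ (c * ‖t‖ ^ 2) := Real.rpow_nonneg (by linarith) _
  rw [e, Real.rpow_add (by positivity)]
  refine (hK R hR1 ψ (Set.mem_univ _) h hS t).trans ?_
  calc K * (R ^ 2 / (R ^ 2 - 1)) ^ (c * ‖t‖ ^ 2) ≤ (1 / (R - 1)) ^ (ε / 2) * (R ^ 2 / (R ^ 2 - 1)) ^ (c * ‖t‖ ^ 2) := by gcongr
    _ ≤ (1 / (R - 1)) ^ (ε / 2) * (1 / (R - 1)) ^ (‖t‖ ^ 2 / (4 * A) + ε / 2) := by gcongr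
    _ = _ := mul_comm _ _

/-- Young's inequality -/
theorem young {ψ h : ℂ → ℂ} (hS : IsSig ψ h) (t : ℂ) {a R : ℝ} (ha : 0 < a) (hR : 1 < R) :
    pmean t R h ≤ marshall a R h * Real.exp (‖t‖ ^ 2 / (4 * a) * Real.log (R ^ 2 / (R ^ 2 - 1))) := by
  have hL := Q90.SM.L_pos hR
  have hcont := hS.cont hR
  set L : ℝ := Real.log (R ^ 2 / (R ^ 2 - 1)) with hLdef
  calc pmean t R h ≤ (1 / (2 * Real.pi)) * ∫ θ in (0:ℝ)..(2 * Real.pi),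
        Real.exp (a * ‖h (circ R θ)‖ ^ 2 / L) * Real.exp (‖t‖ ^ 2 / (4 * a) * L) := by
        apply Q90.SM.mean_le
        · exact (Complex.continuous_exp.comp (continuous_const.mul hcont)).norm
        · exact (Real.continuous_exp.comp ((continuous_const.mul (hcont.norm.pow 2)).div_const _)).mul continuous_const
        · intro θ
          rw [Complex.norm_exp, ← Real.exp_add]
          apply Real.exp_le_exp.2
          have h3 : (t * h (circ R θ)).re ≤ ‖t‖ * ‖h (circ R θ)‖ := by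
            rw [← norm_mul]
            exact Complex.re_le_norm _
          refine h3.trans ?_
          set y := ‖h (circ R θ)‖
          have h4 : a * y ^ 2 / L + ‖t‖ ^ 2 / (4 * a) * L - ‖t‖ * y = (2 * a * y / L - ‖t‖) ^ 2 * (L / (4 * a)) := by
            field_simp
            ring
          have h5 : 0 ≤ (2 * a * y / L - ‖t‖) ^ 2 * (L / (4 * a)) := by positivity
          linarith
    _ = _ := by
        rw [intervalIntegral.integral_mul_const, ← mul_assoc]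
        rfl

theorem q45 {A : ℝ} (hA : 0 < A) {ψ h : ℂ → ℂ} (hS : IsSig ψ h)
    (hyp : ∀ a : ℝ, 0 < a → a < A → ∀ ε : ℝ, 0 < ε → ∃ᶠ R in 𝓝[>] (1:ℝ), marshall a R h ≤ (1 / (R - 1)) ^ ε) (t : ℂ)
    {ε : ℝ} (hε : 0 < ε) :
    ∃ᶠ R in 𝓝[>] (1:ℝ), pmean t R h ≤ (1 / (R - 1)) ^ (‖t‖ ^ 2 / (4 * A) + ε) := by
  obtain ⟨c, hc, hct⟩ := exists_c (T := ‖t‖) hA (half_pos hε)
  have hc0 : 0 < c := lt_trans (by positivity) hc
  set a : ℝ := 1 / (4 * c) with ha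
  have ha0 : 0 < a := by rw [ha]; positivity
  have haA : a < A := by
    rw [ha, div_lt_iff₀ (by positivity)]
    rw [div_lt_iff₀ (by positivity)] at hc
    linarith
  have hac : ‖t‖ ^ 2 / (4 * a) = c * ‖t‖ ^ 2 := by
    rw [ha]
    field_simp
  refine ((hyp a ha0 haA (ε / 2) (half_pos hε)).and_eventually (ev_large 0 one_pos)).mono ?_
  rintro R ⟨h1, -, hR1, hR2⟩
  have h3 : 0 < R - 1 := by linarith
  have hb := one_le_b hR1 hR2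
  obtain ⟨hq1, hq2⟩ := q_le hR1 hR2
  have e : ‖t‖ ^ 2 / (4 * A) + ε = ε / 2 + (‖t‖ ^ 2 / (4 * A) + ε / 2) := by ring
  have h4 : Real.exp (‖t‖ ^ 2 / (4 * a) * Real.log (R ^ 2 / (R ^ 2 - 1))) ≤ (1 / (R - 1)) ^ (‖t‖ ^ 2 / (4 * A) + ε / 2) := by
    have h5 : Real.exp (‖t‖ ^ 2 / (4 * a) * Real.log (R ^ 2 / (R ^ 2 - 1))) = (R ^ 2 / (R ^ 2 - 1)) ^ (c * ‖t‖ ^ 2) := by
      rw [Real.rpow_def_of_pos (by linarith), hac, mul_comm]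
    rw [h5]
    refine (Real.rpow_le_rpow (by linarith) hq2 (by positivity)).trans ?_
    exact Real.rpow_le_rpow_of_exponent_le hb hct
  rw [e, Real.rpow_add (by positivity)]
  refine (young hS t ha0 hR1).trans ?_
  gcongr

/-- **the equivalences** -/
theorem tfae_all (P : Pcs) {A : ℝ} (hA : 0 < A) : List.TFAE [
    ∀ a : ℝ, 0 < a → a < A → ∃ C R₀ : ℝ, 1 < R₀ ∧ ∀ R : ℝ, 1 < R → R < R₀ → ∀ ψ h : ℂ → ℂ, IsSig ψ h → marshall a R h ≤ C,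
    ∀ ψ h : ℂ → ℂ, IsSig ψ h → ∀ a : ℝ, 0 < a → a < A → ∃ C : ℝ, ∀ᶠ R in 𝓝[>] (1:ℝ), marshall a R h ≤ C,
    ∀ ψ h : ℂ → ℂ, IsSig ψ h → ∀ t : ℂ, ∀ ε : ℝ, 0 < ε →
      ∀ᶠ R in 𝓝[>] (1:ℝ), pmean t R h ≤ (1 / (R - 1)) ^ (‖t‖ ^ 2 / (4 * A) + ε),
    ∀ ψ h : ℂ → ℂ, IsSig ψ h → SelfSim ψ → ∀ a : ℝ, 0 < a → a < A → ∀ ε : ℝ, 0 < ε →
      ∃ᶠ R in 𝓝[>] (1:ℝ), marshall a R h ≤ (1 / (R - 1)) ^ ε,
    ∀ ψ h : ℂ → ℂ, IsSig ψ h → SelfSim ψ → ∀ t : ℂ, ‖t‖ < 2 * A → ∀ ε : ℝ, 0 < ε →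
      ∃ᶠ R in 𝓝[>] (1:ℝ), pmean t R h ≤ (1 / (R - 1)) ^ (‖t‖ ^ 2 / (4 * A) + ε),
    ∀ ψ h : ℂ → ℂ, IsSig ψ h → ∀ κ : ℝ, 0 < κ → κ ≤ 1 → ∀ t : ℂ, ‖t‖ < 2 * A →
      Real.log (pmean t (Real.exp (3 * κ)) h) ≤
        ‖t‖ ^ 2 / (4 * A) * Real.log (⌈144 * Real.log (1 - Real.exp (-κ)) ^ 2 / κ⌉₊ : ℝ) + 2 * ‖t‖ +
          ‖t‖ * Real.sqrt (4 - 2 * Real.log (1 - Real.exp (-(6 * κ))))] := by
  have hex : Expl A ↔ ∀ ψ h : ℂ → ℂ, IsSig ψ h → ∀ κ : ℝ, 0 < κ → κ ≤ 1 → ∀ t : ℂ, ‖t‖ < 2 * A →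
      Real.log (pmean t (Real.exp (3 * κ)) h) ≤
        ‖t‖ ^ 2 / (4 * A) * Real.log (⌈144 * Real.log (1 - Real.exp (-κ)) ^ 2 / κ⌉₊ : ℝ) + 2 * ‖t‖ +
          ‖t‖ * Real.sqrt (4 - 2 * Real.log (1 - Real.exp (-(6 * κ)))) := by
    have e1 : ∀ κ : ℝ, 16 * (3 * bb κ) ^ 2 / κ = 144 * Real.log (1 - Real.exp (-κ)) ^ 2 / κ := by
      intro κ
      unfold bb
      ring
    have e2 : ∀ κ : ℝ, 2 * la (Real.exp (-3 * κ)) + 4 = 4 - 2 * Real.log (1 - Real.exp (-(6 * κ))) := by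
      intro κ
      unfold la
      have e : Real.exp (-3 * κ) ^ 2 = Real.exp (-(6 * κ)) := by
        rw [← Real.exp_nat_mul]
        congr 1
        push_cast
        ring
      rw [e]
      ring
    unfold Expl
    simp only [e1, e2]
  tfae_have 1 → 2 := by
    intro h1 ψ h hS a ha haA
    obtain ⟨C, R₀, hR₀, hC⟩ := h1 a ha haA
    refine ⟨C, ?_⟩
    have h2 : ∀ᶠ R in 𝓝[>] (1:ℝ), R < R₀ := mem_nhdsWithin_of_mem_nhds (Iio_mem_nhds hR₀)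
    filter_upwards [h2, self_mem_nhdsWithin] with R hb hc
    exact hC R hc hb ψ h hS
  tfae_have 1 → 3 := by
    intro h1 ψ h hS t ε hε
    refine q16 hA ?_ hS t hε
    intro a ha haA
    obtain ⟨C, R₀, hR₀, hC⟩ := h1 a ha haA
    exact ⟨C, R₀, hR₀, fun R hR hR' ψ _ h hS => hC R hR hR' ψ h hS⟩
  tfae_have 2 → 4 := by
    intro h2 ψ h hS _ a ha haA ε hε
    obtain ⟨C, hC⟩ := h2 ψ h hS a ha haA
    apply Eventually.frequently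
    filter_upwards [hC, ev_large C hε] with R ha hb
    exact ha.trans hb.1
  tfae_have 3 → 5 := by
    intro h3 ψ h hS _ t _ ε hε
    exact (h3 ψ h hS t ε hε).frequently
  tfae_have 4 → 5 := by
    intro h4 ψ h hS hs t _ ε hε
    exact q45 hA hS (h4 ψ h hS hs) t hε
  tfae_have 5 → 6 := by
    intro h5
    exact hex.1 (explA P hA (fun ψ h hS hs t ht ε hε => h5 ψ h hS hs t ht ε hε))
  tfae_have 6 → 1 := by
    intro h6 a ha haA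
    obtain ⟨C, R₀, hR₀, hC⟩ := q1A hA (hex.2 h6) a ha haA
    exact ⟨C, R₀, hR₀, fun R hR hR' ψ h hS => hC R hR hR' ψ (Set.mem_univ _) h hS⟩
  tfae_finish

end Run7.h820.SR
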