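import Pool.Agent.Run7.h820.SR.JMain
import Pool.Agent.Run7.h820.SR.Tfae

/-! The equivalences, with polynomial Julia sets. -/

set_option autoImplicit false
open Complex Filter Topology Set Metric MeasureTheory

namespace Run7.h820.SR

open Pool.Agent.TH325.SI (mn em la)
open Pool.Agent.W677.Mar (Sg IsG0 NN hat)
open Q90.SM (IsSig marshall pmean circ FF)

/-- **the equivalences** -/
theorem tfae_J (Q : PcsJ) {A : ℝ} (hA : 0 < A) : List.TFAE [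
    ∀ a : ℝ, 0 < a → a < A → ∃ C R₀ : ℝ, 1 < R₀ ∧ ∀ R : ℝ, 1 < R → R < R₀ → ∀ ψ h : ℂ → ℂ, IsSig ψ h → marshall a R h ≤ C,
    ∀ ψ h : ℂ → ℂ, IsSig ψ h → ∀ a : ℝ, 0 < a → a < A → ∃ C : ℝ, ∀ᶠ R in 𝓝[>] (1:ℝ), marshall a R h ≤ C,
    ∀ ψ h : ℂ → ℂ, IsSig ψ h → ∀ t : ℂ, ∀ ε : ℝ, 0 < ε →
      ∀ᶠ R in 𝓝[>] (1:ℝ), pmean t R h ≤ (1 / (R - 1)) ^ (‖t‖ ^ 2 / (4 * A) + ε),
    ∀ ψ h : ℂ → ℂ, IsSig ψ h → JuliaQ ψ → ∀ a : ℝ, 0 < a → a < A → ∀ ε : ℝ, 0 < ε →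
      ∃ᶠ R in 𝓝[>] (1:ℝ), marshall a R h ≤ (1 / (R - 1)) ^ ε,
    ∀ ψ h : ℂ → ℂ, IsSig ψ h → JuliaQ ψ → ∀ t : ℂ, ‖t‖ < 2 * A → ∀ ε : ℝ, 0 < ε →
      ∃ᶠ R in 𝓝[>] (1:ℝ), pmean t R h ≤ (1 / (R - 1)) ^ (‖t‖ ^ 2 / (4 * A) + ε),
    ∀ ψ h : ℂ → ℂ, IsSig ψ h → ∀ κ : ℝ, 0 < κ → κ ≤ 1 → ∀ t : ℂ, ‖t‖ < 2 * A →
      Real.log (pmean t (Real.exp (3 * κ)) h) ≤
        ‖t‖ ^ 2 / (4 * A) * Real.log (⌈1152 * Real.log (1 - Real.exp (-κ)) ^ 2 / κ⌉₊ : ℝ) + 3 * ‖t‖ +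
          ‖t‖ * Real.sqrt (4 - 2 * Real.log (1 - Real.exp (-(6 * κ))))] := by
  have hex : ExplJ A ↔ ∀ ψ h : ℂ → ℂ, IsSig ψ h → ∀ κ : ℝ, 0 < κ → κ ≤ 1 → ∀ t : ℂ, ‖t‖ < 2 * A →
      Real.log (pmean t (Real.exp (3 * κ)) h) ≤
        ‖t‖ ^ 2 / (4 * A) * Real.log (⌈1152 * Real.log (1 - Real.exp (-κ)) ^ 2 / κ⌉₊ : ℝ) + 3 * ‖t‖ +
          ‖t‖ * Real.sqrt (4 - 2 * Real.log (1 - Real.exp (-(6 * κ)))) := by
    have e1 : ∀ κ : ℝ, 128 * (3 * bb κ) ^ 2 / κ = 1152 * Real.log (1 - Real.exp (-κ)) ^ 2 / κ := by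
      intro κ
      unfold bb
      ring
    have e2 : ∀ κ : ℝ, 2 * la (Real.exp (-3 * κ)) + 4 = 4 - 2 * Real.log (1 - Real.exp (-(6 * κ))) := by
      intro κ
      unfold la
      have e : Real.exp (-3 * κ) ^ 2 = Real.exp (-(6 * κ)) := by
        rw [← Real.exp_nat_mul]
        congr 1
        push_cast
        ring
      rw [e]
      ring
    unfold ExplJ
    simp only [e1, e2]
  tfae_have 1 → 2 := by
    intro h1 ψ h hS a ha haA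
    obtain ⟨C, R₀, hR₀, hC⟩ := h1 a ha haA
    refine ⟨C, ?_⟩
    have h2 : ∀ᶠ R in 𝓝[>] (1:ℝ), R < R₀ := mem_nhdsWithin_of_mem_nhds (Iio_mem_nhds hR₀)
    filter_upwards [h2, self_mem_nhdsWithin] with R hb hc
    exact hC R hc hb ψ h hS
  tfae_have 1 → 3 := by
    intro h1 ψ h hS t ε hε
    refine q16 hA ?_ hS t hε
    intro a ha haA
    obtain ⟨C, R₀, hR₀, hC⟩ := h1 a ha haA
    exact ⟨C, R₀, hR₀, fun R hR hR' ψ _ h hS => hC R hR hR' ψ h hS⟩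
  tfae_have 2 → 4 := by
    intro h2 ψ h hS _ a ha haA ε hε
    obtain ⟨C, hC⟩ := h2 ψ h hS a ha haA
    apply Eventually.frequently
    filter_upwards [hC, ev_large C hε] with R ha hb
    exact ha.trans hb.1
  tfae_have 3 → 5 := by
    intro h3 ψ h hS _ t _ ε hε
    exact (h3 ψ h hS t ε hε).frequently
  tfae_have 4 → 5 := by
    intro h4 ψ h hS hs t _ ε hε
    exact q45 hA hS (h4 ψ h hS hs) t hε
  tfae_have 5 → 6 := by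
    intro h5
    exact hex.1 (explJ Q hA (fun ψ h hS hs t ht ε hε => h5 ψ h hS hs t ht ε hε))
  tfae_have 6 → 1 := by
    intro h6 a ha haA
    obtain ⟨C, R₀, hR₀, hC⟩ := q1J hA (hex.2 h6) a ha haA
    exact ⟨C, R₀, hR₀, fun R hR hR' ψ h hS => hC R hR hR' ψ (Set.mem_univ _) h hS⟩
  tfae_finish

end Run7.h820.SR
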