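import Pool.Agent.Run7.h820.SR.Stm

set_option autoImplicit false
open Complex Filter Topology Set Metric MeasureTheory

namespace Run7.h820.SR

open Pool.Agent.TH325.SI (mn em la)

theorem asy_la {κ : ℝ} (h0 : 0 < κ) : Real.log (1 / κ) ≤ la (Real.exp (-3 * κ)) + Real.log 6 := by
  unfold la
  have e : Real.exp (-3 * κ) ^ 2 = Real.exp (-(6 * κ)) := by
    rw [← Real.exp_nat_mul]
    congr 1
    push_cast
    ring
  rw [e]
  have h1 : 1 - Real.exp (-(6 * κ)) ≤ 6 * κ := by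
    have := Real.add_one_le_exp (-(6 * κ))
    linarith
  have h2 : 0 < 1 - Real.exp (-(6 * κ)) := by
    have : Real.exp (-(6 * κ)) < 1 := by rw [Real.exp_lt_one_iff]; linarith
    linarith
  have h3 := Real.log_le_log h2 h1
  rw [Real.log_mul (by norm_num) h0.ne'] at h3
  rw [one_div, Real.log_inv]
  linarith

theorem asy_la0 {κ : ℝ} (h0 : 0 < κ) : 0 ≤ la (Real.exp (-3 * κ)) := by
  apply Pool.Agent.TH325.SI.la_nonneg (Real.exp_pos _)
  rw [Real.exp_lt_one_iff]
  linarith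

theorem asy_bb {κ : ℝ} (h0 : 0 < κ) (h1 : κ ≤ 1) : 0 < bb κ ∧ bb κ ≤ Real.log (2 / κ) := by
  unfold bb
  have h2 : 0 < 1 - Real.exp (-κ) := by
    have : Real.exp (-κ) < 1 := by rw [Real.exp_lt_one_iff]; linarith
    linarith
  constructor
  · rw [Left.neg_pos_iff]
    apply Real.log_neg h2
    have := Real.exp_pos (-κ)
    linarith
  · have h3 : κ / 2 ≤ 1 - Real.exp (-κ) := by
      have h4 : Real.exp (-κ) ≤ 1 / (1 + κ) := by
        rw [Real.exp_neg, ← one_div]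
        apply one_div_le_one_div_of_le (by linarith)
        have := Real.add_one_le_exp κ
        linarith
      have h5 : 1 / (1 + κ) ≤ 1 - κ / 2 := by
        rw [div_le_iff₀ (by linarith)]
        nlinarith
      linarith
    have h6 := Real.log_le_log (by positivity) h3
    have h7 : Real.log (2 / κ) = -Real.log (κ / 2) := by
      rw [← Real.log_inv]
      congr 1
      rw [inv_div]
    rw [h7]
    linarith

theorem t_ASY : S_ASY := by
  intro c hc
  set η : ℝ := (c - 1 / 4) * (2 / 5) with hη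
  have hη0 : 0 < η := by rw [hη]; apply mul_pos (by linarith) (by norm_num)
  set C2 : ℝ := Real.log 147 + 2 * (η - 1 - Real.log η) + (1 + 2 * η) * Real.log 6 with hC2
  refine ⟨|C2| + 4 + 16 * η + 1 / (4 * η), ?_⟩
  intro κ T h0 h1 hT0 hT2
  have hL0 := asy_la0 h0
  have hLu := asy_la h0
  obtain ⟨hb0, hb1⟩ := asy_bb h0 h1
  set L : ℝ := la (Real.exp (-3 * κ)) with hL
  set u : ℝ := Real.log (1 / κ) with hu
  have hu0 : 0 ≤ u := by
    apply Real.log_nonneg
    rw [le_div_iff₀ h0]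
    linarith
  have hl2 : Real.log (2 / κ) = Real.log 2 + u := by
    rw [hu, ← Real.log_mul (by norm_num) (by positivity)]
    congr 1
    ring
  have hln2 := Real.log_two_gt_d9
  have hln2' := Real.log_two_lt_d9
  set y : ℝ := Real.log 2 + u with hy
  have hy0 : 0.69 < y := by rw [hy]; linarith
  have hy1 : y ≤ 1 + u := by rw [hy]; linarith
  -- the ceiling
  have hceil : (⌈16 * (3 * bb κ) ^ 2 / κ⌉₊ : ℝ) ≤ 147 * y ^ 2 / κ := by
    have h2 : (⌈16 * (3 * bb κ) ^ 2 / κ⌉₊ : ℝ) < 16 * (3 * bb κ) ^ 2 / κ + 1 :=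
      Nat.ceil_lt_add_one (by positivity)
    have h3 : 16 * (3 * bb κ) ^ 2 / κ ≤ 144 * y ^ 2 / κ := by
      apply div_le_div_of_nonneg_right _ h0.le
      rw [hl2] at hb1
      have h4 : bb κ ^ 2 ≤ y ^ 2 := by gcongr
      linarith
    have h5 : 1 ≤ 3 * y ^ 2 / κ := by
      rw [le_div_iff₀ h0]
      nlinarith
    have h6 : 144 * y ^ 2 / κ + 3 * y ^ 2 / κ = 147 * y ^ 2 / κ := by ring
    linarith
  have hpos : (0:ℝ) < (⌈16 * (3 * bb κ) ^ 2 / κ⌉₊ : ℝ) := by
    have : 0 < ⌈16 * (3 * bb κ) ^ 2 / κ⌉₊ := Nat.ceil_pos.2 (by positivity)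
    exact_mod_cast this
  have hlog : Real.log (⌈16 * (3 * bb κ) ^ 2 / κ⌉₊ : ℝ) ≤ Real.log 147 + 2 * Real.log y + u := by
    refine (Real.log_le_log hpos hceil).trans (le_of_eq ?_)
    have e : 147 * y ^ 2 / κ = 147 * y ^ 2 * (1 / κ) := by ring
    rw [e, Real.log_mul (by positivity) (by positivity), Real.log_mul (by norm_num) (by positivity), Real.log_pow]
    push_cast
    ring
  have hlogy : Real.log y ≤ η * u + (η - 1 - Real.log η) := by
    have h2 : Real.log y ≤ Real.log (1 + u) := Real.log_le_log (by linarith) hy1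
    have h3 : Real.log (η * (1 + u)) ≤ η * (1 + u) - 1 := Real.log_le_sub_one_of_pos (by positivity)
    rw [Real.log_mul hη0.ne' (by positivity)] at h3
    linarith
  have hlogN : Real.log (⌈16 * (3 * bb κ) ^ 2 / κ⌉₊ : ℝ) ≤ (1 + 2 * η) * L + C2 := by
    have h2 : (1 + 2 * η) * u ≤ (1 + 2 * η) * (L + Real.log 6) := by gcongr
    rw [hC2]
    nlinarith
  have hterm1 : T ^ 2 / 4 * Real.log (⌈16 * (3 * bb κ) ^ 2 / κ⌉₊ : ℝ) ≤ (1 + 2 * η) / 4 * T ^ 2 * L + |C2| := by
    have h2 : T ^ 2 / 4 * Real.log (⌈16 * (3 * bb κ) ^ 2 / κ⌉₊ : ℝ) ≤ T ^ 2 / 4 * ((1 + 2 * η) * L + C2) := by gcongr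
    have h3 : T ^ 2 / 4 * C2 ≤ 1 * |C2| := by
      have h4 : T ^ 2 / 4 * C2 ≤ T ^ 2 / 4 * |C2| := by
        gcongr
        exact le_abs_self _
      have h5 : T ^ 2 / 4 * |C2| ≤ 1 * |C2| := by
        gcongr
        nlinarith
      linarith
    nlinarith
  have hterm2 : T * Real.sqrt (2 * L + 4) ≤ 2 * η * T ^ 2 * L + 16 * η + 1 / (4 * η) := by
    have h2 : Real.sqrt (2 * L + 4) ^ 2 = 2 * L + 4 := Real.sq_sqrt (by linarith)
    set X : ℝ := Real.sqrt (2 * L + 4) with hX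
    have h3 : η * T ^ 2 * X ^ 2 + 1 / (4 * η) - T * X = η * (T * X - 1 / (2 * η)) ^ 2 := by
      field_simp
      ring
    have h4 : 0 ≤ η * (T * X - 1 / (2 * η)) ^ 2 := by positivity
    rw [h2] at h3
    have h5 : η * T ^ 2 * 4 ≤ 16 * η := by
      have h6 : T ^ 2 ≤ 4 := by nlinarith
      have h7 : η * T ^ 2 ≤ η * 4 := by gcongr
      linarith
    nlinarith
  have hfin : (1 + 2 * η) / 4 * T ^ 2 * L + 2 * η * T ^ 2 * L = c * T ^ 2 * L := by
    have : c = 5 / 2 * η + 1 / 4 := by rw [hη]; ring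
    rw [this]
    ring
  linarith

end Run7.h820.SR
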