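import Pool.Agent.Run7.h820.SR.SIGQ

set_option autoImplicit false
open Complex Filter Topology Set Metric MeasureTheory

namespace Run7.h820.SR

open Q90.SM (IsSig marshall pmean circ FF)

theorem crit {P : Polynomial ℂ} {N : ℕ} (hN : 1 ≤ N) (hd : P.natDegree = N) (hm : P.Monic) {F : ℂ → ℂ} {ρ : ℝ} (hρ : 0 ≤ ρ)
    (hinj : InjOn F {z : ℂ | ρ < ‖z‖}) (hF : ∀ z : ℂ, ρ < ‖z‖ → P.eval (F z) = z ^ N) {x : ℂ}
    (hx : P.derivative.eval x = 0) : ‖P.eval x‖ ≤ ρ ^ N := by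
  by_contra hcon
  push Not at hcon
  set y : ℂ := P.eval x with hy
  have hN0 : N ≠ 0 := by omega
  obtain ⟨α, hα⟩ := IsAlgClosed.exists_pow_nat_eq y (by omega : 0 < N)
  have hαn : ρ < ‖α‖ := by
    rw [← hα, norm_pow] at hcon
    exact lt_of_pow_lt_pow_left₀ N (norm_nonneg _) hcon
  have hα0 : α ≠ 0 := by
    rintro rfl
    rw [norm_zero] at hαn
    linarith
  have hζ := Complex.isPrimitiveRoot_exp N hN0
  set ζ : ℂ := Complex.exp (2 * Real.pi * I / N) with hζdef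
  have hζn : ‖ζ‖ = 1 := hζ.norm'_eq_one hN0
  have hzn : ∀ k : ℕ, ρ < ‖ζ ^ k * α‖ := by
    intro k
    rw [norm_mul, norm_pow, hζn, one_pow, one_mul]
    exact hαn
  set Q : Polynomial ℂ := P - Polynomial.C y with hQ
  have hQm : Q.Monic := by
    apply hm.sub_of_left
    refine lt_of_le_of_lt Polynomial.degree_C_le ?_
    rw [← Polynomial.natDegree_pos_iff_degree_pos, hd]
    omega
  have hQd : Q.natDegree = N := by rw [hQ, Polynomial.natDegree_sub_C, hd]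
  set S : Finset ℂ := (Finset.range N).image (fun k => F (ζ ^ k * α)) with hS
  have hScard : S.card = N := by
    rw [hS, Finset.card_image_of_injOn, Finset.card_range]
    intro a ha b hb hab
    have h1 : ζ ^ a * α = ζ ^ b * α := hinj (hzn a) (hzn b) hab
    exact hζ.injOn_pow_mul hα0 ha hb h1
  have hsub : S ⊆ Q.roots.toFinset := by
    intro w hw
    rw [hS, Finset.mem_image] at hw
    obtain ⟨k, -, rfl⟩ := hw
    rw [Multiset.mem_toFinset, Polynomial.mem_roots hQm.ne_zero, Polynomial.IsRoot, hQ, Polynomial.eval_sub, Polynomial.eval_C,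
      hF _ (hzn k), mul_pow, ← pow_mul, mul_comm k N, pow_mul, hζ.pow_eq_one, one_pow, one_mul, hα, sub_self]
  have h1 : N ≤ Q.roots.toFinset.card := by
    rw [← hScard]
    exact Finset.card_le_card hsub
  have h2 : Q.roots.card ≤ N := by
    rw [← hQd]
    exact Q.card_roots'
  have h3 : Q.roots.toFinset.card ≤ Q.roots.card := Multiset.toFinset_card_le _
  have h4 : Q.roots.Nodup := by
    rw [← Multiset.toFinset_card_eq_card_iff_nodup]
    omega
  have h5 : 1 < Q.rootMultiplicity x := by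
    rw [Polynomial.one_lt_rootMultiplicity_iff_isRoot hQm.ne_zero]
    constructor
    · rw [Polynomial.IsRoot, hQ, Polynomial.eval_sub, Polynomial.eval_C, sub_self]
    · rw [Polynomial.IsRoot, hQ, Polynomial.derivative_sub, Polynomial.derivative_C, sub_zero]
      exact hx
  rw [← Polynomial.count_roots] at h5
  have h6 := (Multiset.nodup_iff_count_le_one.1 h4) x
  omega

theorem cover {P : Polynomial ℂ} {N : ℕ} (hN : 1 ≤ N) (hd : P.natDegree = N) (hm : P.Monic) {F : ℂ → ℂ} {ρ : ℝ} (hρ : 0 ≤ ρ)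
    (hinj : InjOn F {z : ℂ | ρ < ‖z‖}) (hF : ∀ z : ℂ, ρ < ‖z‖ → P.eval (F z) = z ^ N) {x : ℂ}
    (hcon : ρ ^ N < ‖P.eval x‖) : ∃ z : ℂ, ρ < ‖z‖ ∧ F z = x := by
  set y : ℂ := P.eval x with hy
  have hN0 : N ≠ 0 := by omega
  obtain ⟨α, hα⟩ := IsAlgClosed.exists_pow_nat_eq y (by omega : 0 < N)
  have hαn : ρ < ‖α‖ := by
    rw [← hα, norm_pow] at hcon
    exact lt_of_pow_lt_pow_left₀ N (norm_nonneg _) hcon
  have hα0 : α ≠ 0 := by
    rintro rfl
    rw [norm_zero] at hαn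
    linarith
  have hζ := Complex.isPrimitiveRoot_exp N hN0
  set ζ : ℂ := Complex.exp (2 * Real.pi * I / N) with hζdef
  have hζn : ‖ζ‖ = 1 := hζ.norm'_eq_one hN0
  have hzn : ∀ k : ℕ, ρ < ‖ζ ^ k * α‖ := by
    intro k
    rw [norm_mul, norm_pow, hζn, one_pow, one_mul]
    exact hαn
  set Q : Polynomial ℂ := P - Polynomial.C y with hQ
  have hQm : Q.Monic := by
    apply hm.sub_of_left
    refine lt_of_le_of_lt Polynomial.degree_C_le ?_
    rw [← Polynomial.natDegree_pos_iff_degree_pos, hd]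
    omega
  have hQd : Q.natDegree = N := by rw [hQ, Polynomial.natDegree_sub_C, hd]
  set S : Finset ℂ := (Finset.range N).image (fun k => F (ζ ^ k * α)) with hS
  have hScard : S.card = N := by
    rw [hS, Finset.card_image_of_injOn, Finset.card_range]
    intro a ha b hb hab
    have h1 : ζ ^ a * α = ζ ^ b * α := hinj (hzn a) (hzn b) hab
    exact hζ.injOn_pow_mul hα0 ha hb h1
  have hsub : S ⊆ Q.roots.toFinset := by
    intro w hw
    rw [hS, Finset.mem_image] at hw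
    obtain ⟨k, -, rfl⟩ := hw
    rw [Multiset.mem_toFinset, Polynomial.mem_roots hQm.ne_zero, Polynomial.IsRoot, hQ, Polynomial.eval_sub, Polynomial.eval_C,
      hF _ (hzn k), mul_pow, ← pow_mul, mul_comm k N, pow_mul, hζ.pow_eq_one, one_pow, one_mul, hα, sub_self]
  have h2 : Q.roots.card ≤ N := by
    rw [← hQd]
    exact Q.card_roots'
  have h3 : Q.roots.toFinset.card ≤ Q.roots.card := Multiset.toFinset_card_le _
  have h4 : S = Q.roots.toFinset := Finset.eq_of_subset_of_card_le hsub (by omega)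
  have h5 : x ∈ S := by
    rw [h4, Multiset.mem_toFinset, Polynomial.mem_roots hQm.ne_zero, Polynomial.IsRoot, hQ, Polynomial.eval_sub,
      Polynomial.eval_C, sub_self]
  rw [hS, Finset.mem_image] at h5
  obtain ⟨k, -, hk⟩ := h5
  exact ⟨_, hzn k, hk⟩

theorem sigq {κ B : ℝ} {γ ℓ : ℂ → ℂ} {N : ℕ} {A E : ℂ → ℂ} {P : Polynomial ℂ} (hF : Fx κ B γ ℓ N A)
    (hinj : InjOn (fun v => v * Complex.exp (A v)) (ball 0 1))
    (hE : DifferentiableOn ℂ E (ball 0 1)) (hE0 : E 0 = 0) (hexp : ∀ v ∈ ball (0:ℂ) 1, Complex.exp (E v) = 1 + v * deriv A v)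
    (hm : P.Monic) (hd : P.natDegree = N)
    (hP : ∀ u ∈ ball (0:ℂ) (Real.exp (2 * κ)), u ≠ 0 → P.eval (Complex.exp (γ u) / u) = (u⁻¹) ^ N) :
    ∃ ψ h : ℂ → ℂ, IsSig ψ h ∧ JuliaP P ψ ∧ ∀ z : ℂ, 1 < ‖z‖ → h z = E z⁻¹ - A z⁻¹ := by
  obtain ⟨hS, hN2, hρ1, hFd, hFi, hrel⟩ := sig_data hF hinj hE hE0 hexp
  set ρ : ℝ := Real.exp (-2 * κ) with hρ
  have hρ0 : 0 < ρ := Real.exp_pos _
  have hPF : ∀ z : ℂ, ρ < ‖z‖ → P.eval (z * Complex.exp (γ z⁻¹)) = z ^ N := by
    intro z hz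
    have hz0 : z ≠ 0 := by
      rintro rfl
      rw [norm_zero] at hz
      linarith
    have h1 : z⁻¹ ∈ ball (0:ℂ) (Real.exp (2 * κ)) := by
      rw [mem_ball_zero_iff, norm_inv, inv_lt_comm₀ (norm_pos_iff.2 hz0) (Real.exp_pos _), ← Real.exp_neg]
      rwa [show -(2 * κ) = -2 * κ by ring]
    have h2 := hP _ h1 (inv_ne_zero hz0)
    rw [inv_inv, div_inv_eq_mul, mul_comm] at h2
    exact h2
  have hsq : ρ < Real.sqrt ρ := by
    rw [Real.lt_sqrt hρ0.le]
    nlinarith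
  have hN1 : N ≠ 0 := by omega
  refine ⟨fun z => z * Complex.exp (-A z⁻¹), fun z => E z⁻¹ - A z⁻¹, hS, ⟨?_, Real.sqrt ρ ^ N, ?_, ?_, ?_⟩, fun z _ => rfl⟩
  · intro z hz
    obtain ⟨h1, h2, h3⟩ := hrel z hz
    show P.eval (z * Complex.exp (-A z⁻¹)) = z ^ P.natDegree * Complex.exp (-A (z ^ P.natDegree)⁻¹)
    rw [h2, hPF _ (hsq.trans h1), hd, h3]
  · intro w hw
    obtain ⟨z, hz⟩ := IsAlgClosed.exists_pow_nat_eq w (by omega : 0 < N)
    have hz1 : 1 < ‖z‖ := by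
      rw [← hz, norm_pow] at hw
      by_contra hcon
      push Not at hcon
      have := pow_le_one₀ (n := N) (norm_nonneg z) hcon
      linarith
    obtain ⟨h1, h2, h3⟩ := hrel z hz1
    show Real.sqrt ρ ^ N < ‖w * Complex.exp (-A w⁻¹)‖
    rw [← hz, ← h3, norm_pow]
    exact pow_lt_pow_left₀ h1 (Real.sqrt_nonneg _) hN1
  · intro x hx
    by_contra hcon
    push Not at hcon
    have hlt : ρ ^ N < Real.sqrt ρ ^ N := pow_lt_pow_left₀ hsq hρ0.le hN1
    obtain ⟨α, hα, hFα⟩ := cover (by omega) hd hm hρ0.le hFi hPF (lt_of_lt_of_le hlt hcon)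
    have h1 : P.eval x = α ^ N := by rw [← hFα, hPF α hα]
    rw [h1, norm_pow] at hcon
    have h2 : Real.sqrt ρ ≤ ‖α‖ := le_of_pow_le_pow_left₀ hN1 (norm_nonneg _) hcon
    have e1 : Real.sqrt ρ = Real.exp (-κ) := by
      rw [hρ, Real.sqrt_eq_iff_mul_self_eq (Real.exp_pos _).le (Real.exp_pos _).le, ← Real.exp_add]
      congr 1; ring
    have hα0 : 0 < ‖α‖ := lt_of_lt_of_le (Real.sqrt_pos.2 hρ0) h2
    have h3 : ‖α⁻¹‖ ≤ Real.exp κ := by
      rw [norm_inv, inv_le_comm₀ hα0 (Real.exp_pos _), ← Real.exp_neg, ← e1]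
      exact h2
    have h4 : ‖γ α⁻¹‖ ≤ B := hF.blk.bγ _ h3
    have h5 : -B ≤ (γ α⁻¹).re := by
      have := (abs_le.1 (Complex.abs_re_le_norm (γ α⁻¹))).1
      linarith
    have h6 : Real.exp (-κ) * Real.exp (-B) ≤ ‖x‖ := by
      rw [← hFα, norm_mul, Complex.norm_exp, ← e1]
      gcongr
    obtain ⟨hN16, hNB⟩ := Run7.h705.SR.N_big hF
    have hκ0 := hF.blk.κ0
    have hκ1 := hF.blk.κ1
    have hB1 := hF.blk.B1
    have h7 : Real.sqrt ρ ^ N < Real.exp (-κ) * Real.exp (-B) := by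
      rw [e1, ← Real.exp_nat_mul, ← Real.exp_add, Real.exp_lt_exp]
      have e5 : 16 * B ≤ N * κ := by
        rw [div_le_iff₀ hκ0] at hNB; exact hNB
      nlinarith
    linarith
  · intro x hx
    refine lt_of_le_of_lt (crit (by omega) hd hm hρ0.le hFi hPF hx) ?_
    exact pow_lt_pow_left₀ hsq hρ0.le hN1

end Run7.h820.SR
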