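import Pool.Agent.Run7.h820.SR.LOW

set_option autoImplicit false
open Complex Filter Topology Set Metric MeasureTheory

namespace Run7.h820.SR

theorem inj_loc {A : ℂ → ℂ} (hA : DifferentiableOn ℂ A (ball 0 1)) :
    ∃ U ∈ 𝓝 (0:ℂ), InjOn (fun v => v * Complex.exp (A v)) U := by
  have hb : DifferentiableOn ℂ (fun v => v * Complex.exp (A v)) (ball 0 1) := differentiableOn_id.mul hA.cexp
  have h0 : (ball (0:ℂ) 1) ∈ 𝓝 (0:ℂ) := ball_mem_nhds 0 one_pos
  have han := hb.analyticAt h0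
  have hst := han.hasStrictDerivAt
  have hA0 : HasDerivAt A (deriv A 0) 0 := (hA.differentiableAt h0).hasDerivAt
  have hd : HasDerivAt (fun v => v * Complex.exp (A v)) (1 * Complex.exp (A 0) + 0 * (Complex.exp (A 0) * deriv A 0)) 0 :=
    (hasDerivAt_id (0:ℂ)).mul hA0.cexp
  have hne : deriv (fun v => v * Complex.exp (A v)) 0 ≠ 0 := by
    rw [hd.deriv, one_mul, zero_mul, add_zero]
    exact Complex.exp_ne_zero _
  have hF := hst.hasStrictFDerivAt_equiv hne
  refine ⟨(hF.toOpenPartialHomeomorph _).source,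
    (hF.toOpenPartialHomeomorph _).open_source.mem_nhds hF.mem_toOpenPartialHomeomorph_source, ?_⟩
  exact (hF.toOpenPartialHomeomorph _).injOn

theorem t_INJ : S_INJ := by
  intro κ B γ ℓ N A F v hv v' hv' hvv
  obtain ⟨h1, h2, h3⟩ := low_N F
  have hκ := F.blk.κ0
  have hB := F.blk.B1
  have hN0 : (0:ℝ) < N := by linarith
  have hNn : N ≠ 0 := by
    intro h0
    rw [h0] at h3
    norm_num at h3
  have hN2 : 2 ≤ N := by
    have : (2:ℝ) ≤ N := by linarith
    exact_mod_cast this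
  set β : ℂ → ℂ := fun v => v * Complex.exp (A v) with hβ
  set τ : ℂ → ℂ := fun v => v * Complex.exp (A (v ^ N) / N) with hτ
  have hτm : ∀ w ∈ ball (0:ℂ) 1, τ w ∈ ball (0:ℂ) (Real.exp (2 * κ)) := by
    intro w hw
    have hwn : ‖w‖ < 1 := mem_ball_zero_iff.1 hw
    have hx : ‖A (w ^ N) / N‖ ≤ 2 * B / N := by
      rw [norm_div, Complex.norm_natCast]
      gcongr
      exact F.bA _ (low_pow hw hNn)
    have hx2 : 2 * B / N ≤ κ / 8 := by
      rw [div_le_div_iff₀ hN0 (by norm_num)]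
      linarith
    rw [mem_ball_zero_iff, hτ]
    show ‖w * Complex.exp (A (w ^ N) / N)‖ < _
    rw [norm_mul, Complex.norm_exp]
    have h6 : Real.exp (A (w ^ N) / N).re < Real.exp (2 * κ) := by
      apply Real.exp_lt_exp.2
      have := Complex.re_le_norm (A (w ^ N) / N)
      linarith
    calc ‖w‖ * Real.exp (A (w ^ N) / N).re ≤ 1 * Real.exp (A (w ^ N) / N).re := by gcongr
      _ < _ := by rw [one_mul]; exact h6
  have hβτ : ∀ w ∈ ball (0:ℂ) 1, β w = τ w * Complex.exp (-γ (τ w)) := by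
    intro w hw
    show w * Complex.exp (A w) = w * Complex.exp (A (w ^ N) / N) * Complex.exp (-γ (w * Complex.exp (A (w ^ N) / N)))
    rw [F.fe w hw, mul_assoc, ← Complex.exp_add, sub_eq_add_neg]
  have hττ : ∀ w ∈ ball (0:ℂ) 1, ∀ w' ∈ ball (0:ℂ) 1, β w = β w' → τ w = τ w' := by
    intro w hw w' hw' h
    rw [hβτ w hw, hβτ w' hw'] at h
    exact F.blk.inj (hτm w hw) (hτm w' hw') h
  have hτN : ∀ w, τ w ^ N = β (w ^ N) := by
    intro w
    show (w * Complex.exp (A (w ^ N) / N)) ^ N = w ^ N * Complex.exp (A (w ^ N))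
    rw [mul_pow, ← Complex.exp_nat_mul]
    congr 2
    have : (N:ℂ) ≠ 0 := by exact_mod_cast hNn
    field_simp
  have hup : ∀ n : ℕ, β (v ^ (N ^ n)) = β (v' ^ (N ^ n)) := by
    intro n
    induction n with
    | zero => simpa using hvv
    | succ n ih =>
      have hm : N ^ n ≠ 0 := pow_ne_zero _ hNn
      have h4 := hττ _ (low_pow hv hm) _ (low_pow hv' hm) ih
      rw [pow_succ, pow_mul, pow_mul, ← hτN, ← hτN, h4]
  -- small
  obtain ⟨U, hU, hinj⟩ := inj_loc F.dA
  have hlim : ∀ w ∈ ball (0:ℂ) 1, Tendsto (fun n : ℕ => w ^ (N ^ n)) atTop (𝓝 0) := by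
    intro w hw
    have h5 : Tendsto (fun n : ℕ => N ^ n) atTop atTop := tendsto_pow_atTop_atTop_of_one_lt (by omega)
    exact (tendsto_pow_atTop_nhds_zero_of_norm_lt_one (mem_ball_zero_iff.1 hw)).comp h5
  obtain ⟨n, hn1, hn2⟩ := (((hlim v hv).eventually hU).and ((hlim v' hv').eventually hU)).exists
  have heq : v ^ (N ^ n) = v' ^ (N ^ n) := hinj hn1 hn2 (hup n)
  have hdown : ∀ m : ℕ, v ^ (N ^ m) = v' ^ (N ^ m) → v = v' := by
    intro m
    induction m with
    | zero =>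
      intro h
      simpa using h
    | succ m ih =>
      intro h
      apply ih
      have hm : N ^ m ≠ 0 := pow_ne_zero _ hNn
      have h4 := hττ _ (low_pow hv hm) _ (low_pow hv' hm) (hup m)
      have h6 : (v ^ (N ^ m)) ^ N = (v' ^ (N ^ m)) ^ N := by
        rw [← pow_mul, ← pow_mul, ← pow_succ]
        exact h
      have h7 : v ^ (N ^ m) * Complex.exp (A ((v ^ (N ^ m)) ^ N) / N) = v' ^ (N ^ m) * Complex.exp (A ((v' ^ (N ^ m)) ^ N) / N) := h4
      rw [h6] at h7
      exact mul_right_cancel₀ (Complex.exp_ne_zero _) h7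
  exact hdown n heq

end Run7.h820.SR
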