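import Pool.Agent.Run7.h820.SR.StmJ

/-! The new block, for a general perturbation `x` (variant of NBK). -/

set_option autoImplicit false
open Complex Filter Topology Set Metric MeasureTheory

namespace Run7.h820.SR

theorem nbkx (hETA : S_ETA) (hLIP : S_LIP) {κ B : ℝ} {γ ℓ x : ℂ → ℂ} {N : ℕ} {P : Polynomial ℂ} (hb : Blk κ B γ ℓ) (hN : 1 ≤ N)
    (hq : DifferentiableOn ℂ x (ball 0 (Real.exp (2 * κ)))) (hx0 : x 0 = 0)
    (hP : ∀ w ∈ ball (0:ℂ) (Real.exp (2 * κ)), w ≠ 0 → P.eval (Complex.exp (γ w) / w) = (w⁻¹) ^ N * (1 + x w))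
    (hx : ∀ w : ℂ, ‖w‖ ≤ Real.exp (3 / 2 * κ) → 300 * B * ‖x w‖ ≤ κ) :
    ∃ γ' ℓ' : ℂ → ℂ, Blk (κ / 2) (2 * B) γ' ℓ' ∧ (∀ u : ℂ, ‖u‖ = 1 → ‖ℓ' u - ℓ u‖ ≤ 1) ∧
      ∀ u ∈ ball (0:ℂ) (Real.exp κ), u ≠ 0 → P.eval (Complex.exp (γ' u) / u) = (u⁻¹) ^ N := by
  have hκ := hb.κ0
  have hκ1 := hb.κ1
  have hB := hb.B1
  have hB0 : 0 < B := by linarith
  have hNR : (1:ℝ) ≤ N := by exact_mod_cast hN
  have hNC : (N:ℂ) ≠ 0 := by
    have : N ≠ 0 := by omega
    exact_mod_cast this
  set δ : ℝ := κ / (200 * B) with hδ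
  have hδ0 : 0 ≤ δ := by rw [hδ]; positivity
  have hδB : 200 * B * δ = κ := by
    rw [hδ]
    field_simp
  have hδ1 : 200 * δ ≤ κ := by nlinarith
  have hxs : ∀ w : ℂ, ‖w‖ ≤ Real.exp (3 / 2 * κ) → ‖x w‖ ≤ 2 / 3 * δ ∧ ‖x w‖ ≤ 1 / 300 := by
    intro w hw
    have h1 := hx w hw
    have h2 : 0 ≤ ‖x w‖ := norm_nonneg _
    constructor
    · have h3 : 200 * B * (3 / 2 * ‖x w‖) ≤ 200 * B * δ := by rw [hδB]; linarith
      have h4 := le_of_mul_le_mul_left h3 (by positivity)
      linarith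
    · nlinarith
  set L : ℂ → ℂ := fun w => Complex.log (1 + x w) / N with hL
  have hslit : ∀ w : ℂ, ‖w‖ ≤ Real.exp (3 / 2 * κ) → 1 + x w ∈ slitPlane := by
    intro w hw
    exact Complex.mem_slitPlane_of_norm_lt_one (by linarith [(hxs w hw).2])
  have hsub : ball (0:ℂ) (Real.exp (3 / 2 * κ)) ⊆ ball 0 (Real.exp (2 * κ)) :=
    ball_subset_ball (Real.exp_le_exp.2 (by linarith))
  have hLd : DifferentiableOn ℂ L (ball 0 (Real.exp (3 / 2 * κ))) := by
    apply DifferentiableOn.div_const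
    apply DifferentiableOn.clog
    · exact (differentiableOn_const _).add (hq.mono hsub)
    · intro w hw
      exact hslit w (mem_ball_zero_iff.1 hw).le
  have hL0 : L 0 = 0 := by
    simp [hL, hx0]
  have hLb : ∀ w ∈ ball (0:ℂ) (Real.exp (3 / 2 * κ)), ‖L w‖ ≤ δ := by
    intro w hw
    have h1 := hxs w (mem_ball_zero_iff.1 hw).le
    have h2 := Complex.norm_log_one_add_half_le_self (z := x w) (by linarith [h1.2])
    show ‖Complex.log (1 + x w) / N‖ ≤ δ
    rw [norm_div, Complex.norm_natCast]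
    have h3 : ‖Complex.log (1 + x w)‖ ≤ δ := by linarith [norm_nonneg (x w)]
    exact (div_le_self (norm_nonneg _) hNR).trans h3
  have hLe : ∀ w ∈ ball (0:ℂ) (Real.exp (3 / 2 * κ)), Complex.exp (N * L w) = 1 + x w := by
    intro w hw
    show Complex.exp (N * (Complex.log (1 + x w) / N)) = _
    rw [mul_div_cancel₀ _ hNC, Complex.exp_log (Complex.slitPlane_ne_zero (hslit w (mem_ball_zero_iff.1 hw).le))]
  obtain ⟨η, hηd, hη0, hηb, hηe⟩ := hETA κ δ L hκ hκ1 hδ0 hδ1 hLd hL0 hLb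
  set W : ℂ → ℂ := fun u => u * Complex.exp (η u) with hW
  have e2 : 2 * (κ / 2) = κ := by ring
  have hsub2 : ball (0:ℂ) (Real.exp κ) ⊆ ball 0 (Real.exp (5 / 4 * κ)) :=
    ball_subset_ball (Real.exp_le_exp.2 (by linarith))
  have hWn : ∀ u ∈ ball (0:ℂ) (Real.exp (5 / 4 * κ)), ‖W u‖ ≤ ‖u‖ * Real.exp δ := by
    intro u hu
    show ‖u * Complex.exp (η u)‖ ≤ _
    rw [norm_mul, Complex.norm_exp]
    have h1 := Complex.re_le_norm (η u)
    have h2 := hηb u hu
    gcongr
    linarith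
  have hWm : ∀ u ∈ ball (0:ℂ) (Real.exp κ), W u ∈ ball (0:ℂ) (Real.exp (3 / 2 * κ)) := by
    intro u hu
    rw [mem_ball_zero_iff]
    have h1 := hWn u (hsub2 hu)
    have h2 : ‖u‖ < Real.exp κ := mem_ball_zero_iff.1 hu
    calc ‖W u‖ ≤ ‖u‖ * Real.exp δ := h1
      _ < Real.exp κ * Real.exp δ := by gcongr
      _ = Real.exp (κ + δ) := by rw [← Real.exp_add]
      _ ≤ Real.exp (3 / 2 * κ) := Real.exp_le_exp.2 (by linarith)
  have hWd : DifferentiableOn ℂ W (ball 0 (Real.exp κ)) := differentiableOn_id.mul (hηd.mono hsub2).cexp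
  have hηder : ∀ u ∈ ball (0:ℂ) (Real.exp κ), HasDerivAt η (deriv η u) u := by
    intro u hu
    exact (hηd.differentiableAt (isOpen_ball.mem_nhds (hsub2 hu))).hasDerivAt
  have hηdb : ∀ u ∈ ball (0:ℂ) (Real.exp κ), ‖u * deriv η u‖ ≤ 12 * δ / κ := by
    intro u hu
    have hun : ‖u‖ < Real.exp κ := mem_ball_zero_iff.1 hu
    have hball : closedBall u (κ / 4) ⊆ ball (0:ℂ) (Real.exp (5 / 4 * κ)) := by
      intro z hz
      rw [mem_closedBall, dist_eq_norm] at hz
      rw [mem_ball_zero_iff]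
      have h1 : ‖z‖ ≤ ‖z - u‖ + ‖u‖ := by
        have := norm_add_le (z - u) u
        rwa [sub_add_cancel] at this
      have h2 : Real.exp κ + κ / 4 ≤ Real.exp (5 / 4 * κ) := by
        have e : Real.exp (5 / 4 * κ) = Real.exp κ * Real.exp (κ / 4) := by
          rw [← Real.exp_add]
          congr 1
          ring
        rw [e]
        have h3 : κ / 4 + 1 ≤ Real.exp (κ / 4) := Real.add_one_le_exp _
        have h4 : 1 ≤ Real.exp κ := Real.one_le_exp hκ.le
        nlinarith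
      linarith
    have h1 := Complex.norm_deriv_le_of_forall_mem_sphere_norm_le (c := u) (R := κ / 4) (C := δ) (f := η) (by positivity)
      ((hηd.mono hball).diffContOnCl_ball (subset_refl _)) (fun z hz => hηb z (hball (sphere_subset_closedBall hz)))
    have h3 : Real.exp κ ≤ 3 := by
      have := Real.exp_one_lt_d9
      have h4 : Real.exp κ ≤ Real.exp 1 := Real.exp_le_exp.2 hκ1
      linarith
    rw [norm_mul]
    calc ‖u‖ * ‖deriv η u‖ ≤ 3 * (δ / (κ / 4)) := by
          gcongr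
          linarith
      _ = 12 * δ / κ := by
          field_simp
          ring
  have h12 : 12 * δ / κ ≤ 3 / 50 := by
    rw [div_le_iff₀ hκ]
    linarith
  have hslit2 : ∀ u ∈ ball (0:ℂ) (Real.exp κ), 1 + u * deriv η u ∈ slitPlane := by
    intro u hu
    exact Complex.mem_slitPlane_of_norm_lt_one (by linarith [hηdb u hu])
  have hlogb : ∀ u ∈ ball (0:ℂ) (Real.exp κ), ‖Complex.log (1 + u * deriv η u)‖ ≤ 1 / 10 := by
    intro u hu
    have h1 := hηdb u hu
    have h2 := Complex.norm_log_one_add_half_le_self (z := u * deriv η u) (by linarith)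
    linarith
  have hsmall : ∀ w : ℂ, ‖w‖ ≤ Real.exp (κ / 2) → w ∈ ball (0:ℂ) (Real.exp κ) ∧ ‖W w‖ ≤ Real.exp κ := by
    intro w hw
    have h1 : w ∈ ball (0:ℂ) (Real.exp κ) := by
      rw [mem_ball_zero_iff]
      exact hw.trans_lt (Real.exp_lt_exp.2 (by linarith))
    refine ⟨h1, (hWn w (hsub2 h1)).trans ?_⟩
    calc ‖w‖ * Real.exp δ ≤ Real.exp (κ / 2) * Real.exp δ := by gcongr
      _ = Real.exp (κ / 2 + δ) := by rw [← Real.exp_add]
      _ ≤ Real.exp κ := Real.exp_le_exp.2 (by linarith)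
  have hδ2 : δ ≤ 1 / 200 := by linarith
  refine ⟨fun u => γ (W u) - η u, fun u => ℓ (W u) + Complex.log (1 + u * deriv η u), ⟨by positivity, by linarith, by linarith,
    ?_, ?_, ?_, ?_, ?_, ?_, ?_, ?_⟩, ?_, ?_⟩
  · rw [e2]
    exact (hb.dγ.comp hWd fun u hu => hsub (hWm u hu)).sub (hηd.mono hsub2)
  · rw [e2]
    apply (hb.dℓ.comp hWd fun u hu => hsub (hWm u hu)).add
    apply DifferentiableOn.clog
    · exact (differentiableOn_const _).add (differentiableOn_id.mul ((hηd.deriv isOpen_ball).mono hsub2))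
    · exact hslit2
  · show γ (0 * Complex.exp (η 0)) - η 0 = 0
    rw [zero_mul, hb.γ0, hη0, sub_zero]
  · show ℓ (0 * Complex.exp (η 0)) + Complex.log (1 + 0 * deriv η 0) = 0
    rw [zero_mul, hb.ℓ0, zero_mul, add_zero, Complex.log_one, add_zero]
  · rw [e2]
    intro u hu
    have hη' := hηder u hu
    have hW' : HasDerivAt W (1 * Complex.exp (η u) + u * (Complex.exp (η u) * deriv η u)) u :=
      (hasDerivAt_id u).mul hη'.cexp
    have hg : HasDerivAt γ (deriv γ (W u)) (W u) :=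
      (hb.dγ.differentiableAt (isOpen_ball.mem_nhds (hsub (hWm u hu)))).hasDerivAt
    have hd : HasDerivAt (fun u => γ (W u) - η u)
        (deriv γ (W u) * (1 * Complex.exp (η u) + u * (Complex.exp (η u) * deriv η u)) - deriv η u) u :=
      (hg.comp u hW').sub hη'
    rw [hd.deriv, Complex.exp_add, hb.eq _ (hsub (hWm u hu)), Complex.exp_log (Complex.slitPlane_ne_zero (hslit2 u hu))]
    show (1 - u * Complex.exp (η u) * deriv γ (W u)) * (1 + u * deriv η u) = _
    ring
  · rw [e2]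
    intro u hu u' hu' h
    have key : ∀ u, u * Complex.exp (-(γ (W u) - η u)) = W u * Complex.exp (-γ (W u)) := by
      intro u
      show _ = u * Complex.exp (η u) * Complex.exp (-γ (W u))
      rw [mul_assoc, ← Complex.exp_add]
      congr 2
      ring
    have h1 : u * Complex.exp (-(γ (W u) - η u)) = u' * Complex.exp (-(γ (W u') - η u')) := h
    rw [key, key] at h1
    have h2 : W u = W u' := hb.inj (hsub (hWm u hu)) (hsub (hWm u' hu')) h1
    have h3 : η u = η u' := by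
      rw [hηe u (hsub2 hu), hηe u' (hsub2 hu')]
      show L (W u) = L (W u')
      rw [h2]
    have h4 : u * Complex.exp (η u) = u' * Complex.exp (η u') := h2
    rw [h3] at h4
    exact mul_right_cancel₀ (Complex.exp_ne_zero _) h4
  · intro w hw
    obtain ⟨h1, h2⟩ := hsmall w hw
    show ‖γ (W w) - η w‖ ≤ 2 * B
    have h3 := hb.bγ _ h2
    have h4 := hηb w (hsub2 h1)
    have h5 := norm_sub_le (γ (W w)) (η w)
    linarith
  · intro w hw
    obtain ⟨h1, h2⟩ := hsmall w hw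
    show ‖ℓ (W w) + Complex.log (1 + w * deriv η w)‖ ≤ 2 * B
    have h3 := hb.bℓ _ h2
    have h4 := hlogb w h1
    have h5 := norm_add_le (ℓ (W w)) (Complex.log (1 + w * deriv η w))
    linarith
  · intro u hu
    have hu1 : ‖u‖ ≤ Real.exp (κ / 2) := by
      rw [hu]
      exact Real.one_le_exp (by linarith)
    obtain ⟨h1, h2⟩ := hsmall u hu1
    have hub := hsub2 h1
    have hWu : ‖W u‖ ≤ Real.exp (κ / 2) := by
      refine (hWn u hub).trans ?_
      rw [hu, one_mul]
      exact Real.exp_le_exp.2 (by linarith)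
    have h3 := hLIP κ B ℓ hκ hB0.le hb.dℓ hb.bℓ (W u) u hWu hu1
    have h4 : ‖W u - u‖ ≤ 2 * δ := by
      have e : W u - u = u * (Complex.exp (η u) - 1) := by
        show u * Complex.exp (η u) - u = _
        ring
      rw [e, norm_mul, hu, one_mul]
      have h5 := hηb u hub
      have h6 := Complex.norm_exp_sub_one_le (x := η u) (by linarith)
      linarith
    have h7 := hlogb u h1
    have h8 : 2 * B / κ * ‖W u - u‖ ≤ 1 / 50 := by
      calc 2 * B / κ * ‖W u - u‖ ≤ 2 * B / κ * (2 * δ) := by gcongr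
        _ = (200 * B * δ) / κ / 50 := by
            ring
        _ ≤ 1 / 50 := by
            rw [hδB, div_self hκ.ne']
    have e : ℓ (W u) + Complex.log (1 + u * deriv η u) - ℓ u = (ℓ (W u) - ℓ u) + Complex.log (1 + u * deriv η u) := by ring
    show ‖ℓ (W u) + Complex.log (1 + u * deriv η u) - ℓ u‖ ≤ 1
    rw [e]
    refine (norm_add_le _ _).trans ?_
    linarith
  · intro u hu hu0
    have hW0 : W u ≠ 0 := mul_ne_zero hu0 (Complex.exp_ne_zero _)
    have e : Complex.exp (γ (W u) - η u) / u = Complex.exp (γ (W u)) / W u := by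
      show _ = Complex.exp (γ (W u)) / (u * Complex.exp (η u))
      rw [Complex.exp_sub]
      field_simp
    show P.eval (Complex.exp (γ (W u) - η u) / u) = _
    rw [e, hP _ (hsub (hWm u hu)) hW0]
    rw [← hLe _ (hWm u hu)]
    have h2 : L (W u) = η u := (hηe u (hsub2 hu)).symm
    rw [h2]
    show (u * Complex.exp (η u))⁻¹ ^ N * Complex.exp (N * η u) = _
    rw [mul_inv, mul_pow, mul_assoc, Complex.exp_nat_mul, ← mul_pow, inv_mul_cancel₀ (Complex.exp_ne_zero _), one_pow, mul_one]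

end Run7.h820.SR
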