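import Pool.Agent.Run7.h820.SR.StmJ

/-! Approximation of the Faber polynomial by polynomials with coefficients in the Gaussian rationals. -/

set_option autoImplicit false
open Complex Filter Topology Set Metric MeasureTheory

namespace Run7.h820.SR

/-- all coefficients are Gaussian rationals -/
def GaussRat (P : Polynomial ℂ) : Prop := ∀ k : ℕ, ∃ a b : ℚ, P.coeff k = (a : ℂ) + (b : ℂ) * I

theorem gauss_dense (c : ℂ) {ε : ℝ} (hε : 0 < ε) : ∃ a b : ℚ, ‖((a : ℂ) + (b : ℂ) * I) - c‖ ≤ ε := by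
  obtain ⟨a, ha1, ha2⟩ := exists_rat_btwn (by linarith : c.re - ε / 2 < c.re)
  obtain ⟨b, hb1, hb2⟩ := exists_rat_btwn (by linarith : c.im - ε / 2 < c.im)
  refine ⟨a, b, ?_⟩
  have h1 := Complex.norm_le_abs_re_add_abs_im (((a : ℂ) + (b : ℂ) * I) - c)
  have e1 : (((a : ℂ) + (b : ℂ) * I) - c).re = a - c.re := by simp
  have e2 : (((a : ℂ) + (b : ℂ) * I) - c).im = b - c.im := by simp
  rw [e1, e2] at h1
  have h2 : |(a:ℝ) - c.re| ≤ ε / 2 := abs_le.2 ⟨by linarith, by linarith⟩
  have h3 : |(b:ℝ) - c.im| ≤ ε / 2 := abs_le.2 ⟨by linarith, by linarith⟩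
  linarith

theorem rat_poly {ρ r : ℝ} {γ : ℂ → ℂ} {N : ℕ} {P : Polynomial ℂ} (hN : 1 ≤ N) (hm : P.Monic) (hd : P.natDegree = N)
    (hr : r < ρ) (hγ : DifferentiableOn ℂ γ (ball 0 ρ)) {ε : ℝ} (hε : 0 < ε) :
    ∃ (P' : Polynomial ℂ) (y : ℂ → ℂ), P'.Monic ∧ P'.natDegree = N ∧ GaussRat P' ∧ DifferentiableOn ℂ y (ball 0 ρ) ∧ y 0 = 0 ∧
      (∀ w : ℂ, w ≠ 0 → P'.eval (Complex.exp (γ w) / w) = P.eval (Complex.exp (γ w) / w) + (w⁻¹) ^ N * y w) ∧
      ∀ w : ℂ, ‖w‖ ≤ r → ‖y w‖ ≤ ε := by
  -- bounds on the compact disc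
  have hcomp : ∀ k : ℕ, ∃ D : ℝ, 0 ≤ D ∧ ∀ w : ℂ, ‖w‖ ≤ r → ‖w ^ (N - k) * Complex.exp (k * γ w)‖ ≤ D := by
    intro k
    have hc : ContinuousOn (fun w : ℂ => w ^ (N - k) * Complex.exp (k * γ w)) (closedBall 0 r) := by
      have h1 : ContinuousOn γ (closedBall 0 r) := hγ.continuousOn.mono fun w hw => by
        rw [mem_closedBall_zero_iff] at hw
        rw [mem_ball_zero_iff]
        linarith
      exact (continuous_id.pow _).continuousOn.mul (continuousOn_const.mul h1).cexp
    obtain ⟨D, hD⟩ := (isCompact_closedBall (0:ℂ) r).exists_bound_of_continuousOn hc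
    refine ⟨max D 0, le_max_right _ _, fun w hw => (hD w ?_).trans (le_max_left _ _)⟩
    rwa [mem_closedBall_zero_iff]
  choose D hD0 hD using hcomp
  have happ : ∀ k : ℕ, ∃ c : ℂ, (∃ a b : ℚ, c = (a : ℂ) + (b : ℂ) * I) ∧ ‖c - P.coeff k‖ ≤ ε / (N * (D k + 1)) := by
    intro k
    have hNR : (0:ℝ) < N := by exact_mod_cast hN
    have h1 := hD0 k
    obtain ⟨a, b, hab⟩ := gauss_dense (P.coeff k) (ε := ε / (N * (D k + 1))) (by positivity)
    exact ⟨_, ⟨a, b, rfl⟩, hab⟩
  choose c hc1 hc2 using happ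
  set R : Polynomial ℂ := ∑ k ∈ Finset.range N, Polynomial.C (c k) * Polynomial.X ^ k with hR
  have hRc : ∀ k : ℕ, R.coeff k = if k < N then c k else 0 := by
    intro k
    rw [hR, Polynomial.finset_sum_coeff]
    simp only [Polynomial.coeff_C_mul, Polynomial.coeff_X_pow, mul_ite, mul_one, mul_zero]
    rw [Finset.sum_ite_eq]
    simp
  have hRd : R.degree < N := by
    rw [Polynomial.degree_lt_iff_coeff_zero]
    intro m hm
    rw [hRc, if_neg (by omega)]
  have hMon : (Polynomial.X ^ N + R).Monic := Polynomial.monic_X_pow_add hRd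
  have hdeg : (Polynomial.X ^ N + R).natDegree = N := by
    apply Polynomial.natDegree_eq_of_degree_eq_some
    rw [Polynomial.degree_add_eq_left_of_degree_lt, Polynomial.degree_X_pow]
    rw [Polynomial.degree_X_pow]
    exact hRd
  have hPs := hm.as_sum
  rw [hd] at hPs
  refine ⟨Polynomial.X ^ N + R, fun w => ∑ k ∈ Finset.range N, (c k - P.coeff k) * (w ^ (N - k) * Complex.exp (k * γ w)), hMon, hdeg,
    ?_, ?_, ?_, ?_, ?_⟩
  · intro k
    rw [Polynomial.coeff_add, Polynomial.coeff_X_pow, hRc]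
    rcases lt_trichotomy k N with h | h | h
    · rw [if_neg (by omega), if_pos h, zero_add]
      exact hc1 k
    · rw [if_pos h, if_neg (by omega), add_zero]
      exact ⟨1, 0, by simp⟩
    · rw [if_neg (by omega), if_neg (by omega), add_zero]
      exact ⟨0, 0, by simp⟩
  · apply DifferentiableOn.fun_sum
    intro k _
    exact (differentiableOn_const _).mul ((differentiableOn_id.pow _).mul (((differentiableOn_const _).mul hγ).cexp))
  · apply Finset.sum_eq_zero
    intro k hk
    rw [Finset.mem_range] at hk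
    have : (0:ℂ) ^ (N - k) = 0 := zero_pow (by omega)
    rw [this, zero_mul, mul_zero]
  · intro w hw
    have e1 : P.eval (Complex.exp (γ w) / w) = (Complex.exp (γ w) / w) ^ N +
        ∑ k ∈ Finset.range N, P.coeff k * (Complex.exp (γ w) / w) ^ k := by
      conv_lhs => rw [hPs]
      simp [Polynomial.eval_finset_sum]
    have e2 : (Polynomial.X ^ N + R).eval (Complex.exp (γ w) / w) = (Complex.exp (γ w) / w) ^ N +
        ∑ k ∈ Finset.range N, c k * (Complex.exp (γ w) / w) ^ k := by
      rw [hR]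
      simp [Polynomial.eval_finset_sum]
    rw [e1, e2, add_assoc]
    congr 1
    rw [Finset.mul_sum, ← Finset.sum_add_distrib]
    apply Finset.sum_congr rfl
    intro k hk
    rw [Finset.mem_range] at hk
    have e3 : (w⁻¹) ^ N * w ^ (N - k) = (w⁻¹) ^ k := by
      have h1 : N = k + (N - k) := by omega
      conv_lhs => rw [h1]
      rw [pow_add, mul_assoc, show k + (N - k) - k = N - k by omega, ← mul_pow, inv_mul_cancel₀ hw, one_pow, mul_one]
    rw [div_pow, ← Complex.exp_nat_mul]
    have e4 : (w⁻¹) ^ N * ((c k - P.coeff k) * (w ^ (N - k) * Complex.exp (k * γ w))) =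
        (c k - P.coeff k) * ((w⁻¹) ^ N * w ^ (N - k)) * Complex.exp (k * γ w) := by ring
    rw [e4, e3]
    rw [inv_pow]
    ring
  · intro w hw
    have hNR : (0:ℝ) < N := by exact_mod_cast hN
    refine (norm_sum_le _ _).trans ?_
    calc ∑ k ∈ Finset.range N, ‖(c k - P.coeff k) * (w ^ (N - k) * Complex.exp (k * γ w))‖
        ≤ ∑ k ∈ Finset.range N, ε / N := by
          apply Finset.sum_le_sum
          intro k _
          rw [norm_mul]
          have h1 := hc2 k
          have h2 := hD k w hw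
          have h3 := hD0 k
          calc ‖c k - P.coeff k‖ * ‖w ^ (N - k) * Complex.exp (k * γ w)‖ ≤ ε / (N * (D k + 1)) * D k := by gcongr
            _ ≤ ε / (N * (D k + 1)) * (D k + 1) := by
                gcongr
                linarith
            _ = ε / N := by
                field_simp
      _ = ε := by
          rw [Finset.sum_const, Finset.card_range, nsmul_eq_mul]
          field_simp

end Run7.h820.SR
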