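import Pool.Agent.Run7.h820.SR.MainA
import Pool.Agent.Run7.h820.SR.CRIT
import Pool.Agent.Run7.h820.SR.RAT
import Pool.Agent.Run7.h820.SR.NBKX

/-! The reduction to polynomial Julia sets: glue. -/

set_option autoImplicit false
open Complex Filter Topology Set Metric MeasureTheory

namespace Run7.h820.SR

open Pool.Agent.TH325.SI (mn em la)
open Pool.Agent.W677.Mar (Sg IsG0 NN hat)
open Q90.SM (IsSig marshall pmean circ FF)

/-- all the pieces -/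
structure PcsJ : Prop where
  P : Pcs
  FAB : S_FAB
  FBD : S_FBD
  EPS : S_EPS
  ETA : S_ETA
  LIP : S_LIP

/-- `ψ` is the Riemann map of the basin of infinity of a monic polynomial with connected Julia set and coefficients in the
Gaussian rationals, all critical values of which lie in a disc about `0` which does not meet the basin and is mapped into itself (so the Julia set is a quasicircle). -/
def JuliaQ (ψ : ℂ → ℂ) : Prop := ∃ P : Polynomial ℂ, P.Monic ∧ 2 ≤ P.natDegree ∧ GaussRat P ∧ JuliaP P ψ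

theorem J1_cont {κ B : ℝ} {γ ℓ : ℂ → ℂ} (hb : Blk κ B γ ℓ) (t : ℂ) :
    Continuous fun θ : ℝ => Real.exp (t * ℓ (circleMap 0 1 θ)).re := by
  have h1 : Continuous fun θ : ℝ => ℓ (circleMap 0 1 θ) := by
    rw [← continuousOn_univ]
    refine hb.dℓ.continuousOn.comp (continuous_circleMap 0 1).continuousOn fun θ _ => ?_
    rw [mem_ball_zero_iff, norm_circleMap_zero, abs_one]
    exact Real.one_lt_exp_iff.2 (by linarith [hb.κ0])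
  exact Real.continuous_exp.comp (Complex.continuous_re.comp (continuous_const.mul h1))

theorem J1_close {κ B κ' B' : ℝ} {γ ℓ γ' ℓ' : ℂ → ℂ} (hb : Blk κ B γ ℓ) (hb' : Blk κ' B' γ' ℓ')
    (h : ∀ u : ℂ, ‖u‖ = 1 → ‖ℓ' u - ℓ u‖ ≤ 1) (t : ℂ) : Real.exp (-‖t‖) * J1 t ℓ ≤ J1 t ℓ' := by
  have hpi : 0 < 2 * Real.pi := by positivity
  unfold J1
  have h1 : ∫ θ in (0:ℝ)..(2 * Real.pi), Real.exp (-‖t‖) * Real.exp (t * ℓ (circleMap 0 1 θ)).re ≤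
      ∫ θ in (0:ℝ)..(2 * Real.pi), Real.exp (t * ℓ' (circleMap 0 1 θ)).re := by
    apply intervalIntegral.integral_mono_on hpi.le
    · exact (continuous_const.mul (J1_cont hb t)).intervalIntegrable _ _
    · exact (J1_cont hb' t).intervalIntegrable _ _
    · intro θ _
      rw [← Real.exp_add]
      apply Real.exp_le_exp.2
      have hu : ‖circleMap 0 1 θ‖ = 1 := by simp
      have h2 : (t * ℓ (circleMap 0 1 θ)).re - (t * ℓ' (circleMap 0 1 θ)).re ≤ ‖t‖ * 1 := by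
        rw [← Complex.sub_re, ← mul_sub]
        refine (Complex.re_le_norm _).trans ?_
        rw [norm_mul, norm_sub_rev]
        gcongr
        exact h _ hu
      linarith
  rw [intervalIntegral.integral_const_mul] at h1
  calc Real.exp (-‖t‖) * ((2 * Real.pi)⁻¹ * ∫ θ in (0:ℝ)..(2 * Real.pi), Real.exp (t * ℓ (circleMap 0 1 θ)).re)
      = (2 * Real.pi)⁻¹ * (Real.exp (-‖t‖) * ∫ θ in (0:ℝ)..(2 * Real.pi), Real.exp (t * ℓ (circleMap 0 1 θ)).re) := by ring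
    _ ≤ _ := by gcongr

theorem approxJ (Q : PcsJ) {ψ h : ℂ → ℂ} (hS : IsSig ψ h) {κ : ℝ} (t : ℂ) {N : ℕ} (hκ : 0 < κ) (hκ1 : κ ≤ 1)
    (hN : 128 * (3 * bb κ) ^ 2 / κ ≤ N) :
    2 ≤ N ∧ ∃ ψ' h' : ℂ → ℂ, IsSig ψ' h' ∧ JuliaQ ψ' ∧ ∃ C : ℝ, 0 ≤ C ∧ ∀ n : ℕ,
      Real.exp (-(‖t‖ * (C + 2 * n))) *
        (Real.exp (-‖t‖) *
          (pmean t (Real.exp (3 * κ)) h * Real.exp (-(‖t‖ * Real.sqrt (2 * la (Real.exp (-3 * κ)) + 4))))) ^ n ≤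
      pmean t (Real.exp (1 / (N:ℝ) ^ n)) h' := by
  have P := Q.P
  have hx := Q90.SM.ext_all ψ h hS
  have hR : 1 < Real.exp (3 * κ) := Real.one_lt_exp_iff.2 (by linarith)
  obtain ⟨γ, ℓ, hB, hJ⟩ := P.DAT _ _ κ t hx.1 hκ hκ1
  have hinv : (Real.exp (3 * κ))⁻¹ = Real.exp (-3 * κ) := by
    rw [← Real.exp_neg]
    congr 1
    ring
  have e1 : pmean t (Real.exp (3 * κ)) h = mn (FF t (hat h 0)) (Real.exp (-3 * κ)) := by
    rw [hx.2.2 t _ hR, hinv]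
  rw [← e1] at hJ
  have hp := pmean_pos hS t hR
  have hB1 := hB.B1
  set B : ℝ := 3 * bb κ with hBdef
  have hN2 : 2 ≤ N := by
    have h1 : (128:ℝ) ≤ 128 * B ^ 2 / κ := by
      rw [le_div_iff₀ hκ]
      nlinarith
    have h2 : (128:ℝ) ≤ N := h1.trans hN
    have : 128 ≤ N := by exact_mod_cast h2
    omega
  -- the Faber polynomial
  obtain ⟨p, q, hm, hd, hq, hq0, hpq⟩ := Q.FAB (Real.exp (2 * κ)) γ N (Real.exp_pos _) (by omega) hB.dγ hB.γ0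
  have hfb := Q.FBD κ γ q N p hκ (by omega) hB.dγ hB.γ0 hB.inj hq hq0 hpq
  have hsm : ∀ w : ℂ, ‖w‖ ≤ Real.exp (3 / 2 * κ) → 400 * B * ‖w ^ N * q w‖ ≤ κ := by
    intro w hw
    have h1 := Q.EPS κ B ‖q w‖ N hκ hκ1 (by rw [hBdef]; linarith) hB1 hN (norm_nonneg _) (hfb w hw)
    refine le_trans ?_ h1
    have h2 : ‖w‖ ^ N ≤ Real.exp (3 / 2 * κ * N) := by
      calc ‖w‖ ^ N ≤ Real.exp (3 / 2 * κ) ^ N := by gcongr
        _ = Real.exp (3 / 2 * κ * N) := by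
            rw [← Real.exp_nat_mul]
            congr 1
            ring
    rw [norm_mul, norm_pow]
    gcongr
  have hB0 : 0 < B := by linarith
  obtain ⟨p', y, hm', hd', hrat, hyd, hy0, hpy, hyb⟩ := rat_poly (ρ := Real.exp (2 * κ)) (r := Real.exp (3 / 2 * κ)) (by omega) hm hd
    (Real.exp_lt_exp.2 (by linarith)) hB.dγ (ε := κ / (1200 * B)) (by positivity)
  obtain ⟨γ', ℓ', hB', hcl, hp'⟩ := nbkx Q.ETA Q.LIP (x := fun w => w ^ N * q w + y w) (P := p') (N := N) hB (by omega)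
    (((differentiableOn_id.pow N).mul hq).add hyd) (by
      show (0:ℂ) ^ N * q 0 + y 0 = 0
      rw [hq0, hy0, mul_zero, add_zero]) (by
      intro w hw hw0
      rw [hpy w hw0, hpq w hw hw0]
      show _ = (w⁻¹) ^ N * (1 + (w ^ N * q w + y w))
      have h1 : (w⁻¹) ^ N * w ^ N = 1 := by rw [← mul_pow, inv_mul_cancel₀ hw0, one_pow]
      linear_combination (-q w) * h1) (by
      intro w hw
      have h1 := hsm w hw
      have h2 := hyb w hw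
      have h3 : 300 * B * ‖y w‖ ≤ κ / 4 := by
        calc 300 * B * ‖y w‖ ≤ 300 * B * (κ / (1200 * B)) := by gcongr
          _ = κ / 4 := by
              field_simp
              ring
      have h4 : ‖w ^ N * q w + y w‖ ≤ ‖w ^ N * q w‖ + ‖y w‖ := norm_add_le _ _
      calc 300 * B * ‖w ^ N * q w + y w‖ ≤ 300 * B * (‖w ^ N * q w‖ + ‖y w‖) := by gcongr
        _ = 3 / 4 * (400 * B * ‖w ^ N * q w‖) + 300 * B * ‖y w‖ := by ring
        _ ≤ κ := by linarith)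
  have hN' : 16 * (2 * B) ^ 2 / (κ / 2) ≤ N := by
    have e : 16 * (2 * B) ^ 2 / (κ / 2) = 128 * B ^ 2 / κ := by
      field_simp
      ring
    rw [e]
    exact hN
  obtain ⟨A, hA1, hA2, hA3, hA4⟩ := P.FIX (κ / 2) _ γ' ℓ' N hB' hN'
  have hFx : Fx (κ / 2) (2 * B) γ' ℓ' N A := ⟨hB', hN', hA1, hA2, hA3, hA4⟩
  have hinj := P.INJ _ _ _ _ _ _ hFx
  obtain ⟨E, hE1, hE2, hE3, hE4⟩ := P.LOG _ _ _ _ _ _ hFx
  have e2 : 2 * (κ / 2) = κ := by ring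
  obtain ⟨ψ', h', hS', hself, hh'⟩ := sigq hFx hinj hE1 hE2 hE3 hm' hd' (by rw [e2]; exact hp')
  obtain ⟨C', hC', hlow⟩ := P.LOW _ _ _ _ _ _ _ h' hFx hE1 hE4 hh'
  refine ⟨hN2, ψ', h', hS', ⟨p', hm', by rw [hd']; exact hN2, hrat, hself⟩, C', hC', fun n => le_trans ?_ (hlow t n)⟩
  have h3 := J1_close hB hB' hcl t
  have h4 : Real.exp (-‖t‖) * (pmean t (Real.exp (3 * κ)) h * Real.exp (-(‖t‖ * Real.sqrt (2 * la (Real.exp (-3 * κ)) + 4)))) ≤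
      J1 t ℓ' := le_trans (by gcongr) h3
  gcongr

theorem mainJ (Q : PcsJ) {A : ℝ} (hA : 0 < A) (hyp : ∀ ψ h : ℂ → ℂ, IsSig ψ h → JuliaQ ψ → SpecA A h)
    {ψ h : ℂ → ℂ} (hS : IsSig ψ h) {κ : ℝ} {t : ℂ} {N : ℕ} (hκ : 0 < κ) (hκ1 : κ ≤ 1) (ht : ‖t‖ < 2 * A)
    (hN : 128 * (3 * bb κ) ^ 2 / κ ≤ N) :
    Real.log (pmean t (Real.exp (3 * κ)) h) ≤
      ‖t‖ ^ 2 / (4 * A) * Real.log N + 3 * ‖t‖ + ‖t‖ * Real.sqrt (2 * la (Real.exp (-3 * κ)) + 4) := by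
  obtain ⟨hN2, ψ', h', hS', hself, C', hC', hlow⟩ := approxJ Q hS t hκ hκ1 hN
  have hR : 1 < Real.exp (3 * κ) := Real.one_lt_exp_iff.2 (by linarith)
  have hp := pmean_pos hS t hR
  have hsp := hyp ψ' h' hS' hself
  have hkey : Real.log (Real.exp (-‖t‖) * (pmean t (Real.exp (3 * κ)) h *
      Real.exp (-(‖t‖ * Real.sqrt (2 * la (Real.exp (-3 * κ)) + 4))))) ≤
      ‖t‖ ^ 2 / (4 * A) * Real.log N + 2 * ‖t‖ := by
    have hlN : 0 < Real.log N := Real.log_pos (by exact_mod_cast (by omega : 1 < N))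
    apply le_of_forall_pos_le_add
    intro δ hδ
    have h1 := freq_bd Q.P.MON hS' t hN2 (by positivity) hC' (q := ‖t‖ ^ 2 / (4 * A) + δ / Real.log N) (by positivity) hlow
      (hsp t ht _ (by positivity))
    have e : (‖t‖ ^ 2 / (4 * A) + δ / Real.log N) * Real.log N = ‖t‖ ^ 2 / (4 * A) * Real.log N + δ := by
      field_simp
    rw [e] at h1
    linarith
  rw [Real.log_mul (by positivity) (by positivity), Real.log_exp, Real.log_mul hp.ne' (by positivity), Real.log_exp] at hkey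
  linarith

/-- the explicit inequality -/
def ExplJ (A : ℝ) : Prop := ∀ ψ h : ℂ → ℂ, IsSig ψ h → ∀ κ : ℝ, 0 < κ → κ ≤ 1 → ∀ t : ℂ, ‖t‖ < 2 * A →
  Real.log (pmean t (Real.exp (3 * κ)) h) ≤
      ‖t‖ ^ 2 / (4 * A) * Real.log (⌈128 * (3 * bb κ) ^ 2 / κ⌉₊ : ℝ) + 3 * ‖t‖ +
        ‖t‖ * Real.sqrt (2 * la (Real.exp (-3 * κ)) + 4)

theorem explJ (Q : PcsJ) {A : ℝ} (hA : 0 < A) (hyp : ∀ ψ h : ℂ → ℂ, IsSig ψ h → JuliaQ ψ → SpecA A h) : ExplJ A :=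
  fun _ _ hS _ h0 h1 _ ht => mainJ Q hA hyp hS h0 h1 ht (Nat.le_ceil _)

theorem asyJ {c₀ c T₀ : ℝ} (hc₀ : 0 < c₀) (hc : c₀ < c) : ∃ K : ℝ, ∀ κ T : ℝ, 0 < κ → κ ≤ 1 → 0 ≤ T → T ≤ T₀ →
    c₀ * T ^ 2 * Real.log (⌈128 * (3 * bb κ) ^ 2 / κ⌉₊ : ℝ) + 3 * T + T * Real.sqrt (2 * la (Real.exp (-3 * κ)) + 4) ≤
    K + c * T ^ 2 * la (Real.exp (-3 * κ)) := by
  obtain ⟨K, hK⟩ := asyA (T₀ := T₀) hc₀ hc
  refine ⟨K + c₀ * T₀ ^ 2 * Real.log 9 + T₀, ?_⟩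
  intro κ T h0 h1 hT0 hT2
  have h2 := hK κ T h0 h1 hT0 hT2
  obtain ⟨hb0, hb1⟩ := asy_bb h0 h1
  -- compare the ceilings
  set x : ℝ := 16 * (3 * bb κ) ^ 2 / κ with hx
  have hxp : 0 < x := by rw [hx]; positivity
  have e : 128 * (3 * bb κ) ^ 2 / κ = 8 * x := by rw [hx]; ring
  have hc1 : (1:ℝ) ≤ (⌈x⌉₊ : ℝ) := by
    have : 0 < ⌈x⌉₊ := Nat.ceil_pos.2 hxp
    exact_mod_cast this
  have hle : (⌈128 * (3 * bb κ) ^ 2 / κ⌉₊ : ℝ) ≤ 9 * (⌈x⌉₊ : ℝ) := by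
    rw [e]
    have h3 : (⌈8 * x⌉₊ : ℝ) < 8 * x + 1 := Nat.ceil_lt_add_one (by positivity)
    have h4 : x ≤ (⌈x⌉₊ : ℝ) := Nat.le_ceil _
    linarith
  have hpos : (0:ℝ) < (⌈128 * (3 * bb κ) ^ 2 / κ⌉₊ : ℝ) := by
    have : 0 < ⌈128 * (3 * bb κ) ^ 2 / κ⌉₊ := Nat.ceil_pos.2 (by positivity)
    exact_mod_cast this
  have hlog : Real.log (⌈128 * (3 * bb κ) ^ 2 / κ⌉₊ : ℝ) ≤ Real.log 9 + Real.log (⌈x⌉₊ : ℝ) := by
    rw [← Real.log_mul (by norm_num) (by linarith)]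
    exact Real.log_le_log hpos hle
  have h9 : 0 < Real.log 9 := Real.log_pos (by norm_num)
  have hTT : T ^ 2 ≤ T₀ ^ 2 := by gcongr
  have h5 : c₀ * T ^ 2 * Real.log (⌈128 * (3 * bb κ) ^ 2 / κ⌉₊ : ℝ) ≤ c₀ * T ^ 2 * (Real.log 9 + Real.log (⌈x⌉₊ : ℝ)) := by gcongr
  have h6 : c₀ * T ^ 2 * Real.log 9 ≤ c₀ * T₀ ^ 2 * Real.log 9 := by gcongr
  linarith

/-- the uniform bound for `‖t‖ < 2 A` -/
theorem unifJ {A : ℝ} (hA : 0 < A) (hyp : ExplJ A) {c : ℝ}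
    (hc : 1 / (4 * A) < c) : ∃ K : ℝ, ∀ R : ℝ, 1 < R → R < 2 → ∀ ψ h : ℂ → ℂ, IsSig ψ h → ∀ t : ℂ, ‖t‖ < 2 * A →
    Real.log (pmean t R h) ≤ K + c * ‖t‖ ^ 2 * Real.log (R ^ 2 / (R ^ 2 - 1)) := by
  obtain ⟨K, hK⟩ := asyJ (c₀ := 1 / (4 * A)) (T₀ := 2 * A) (by positivity) hc
  refine ⟨K, ?_⟩
  intro R hR hR2 ψ h hS t ht
  have hl0 : 0 < Real.log R := Real.log_pos hR
  set κ : ℝ := Real.log R / 3 with hκ
  have hκ0 : 0 < κ := by rw [hκ]; positivity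
  have hκ1 : κ ≤ 1 := by
    have h1 := Real.log_le_sub_one_of_pos (by linarith : 0 < R)
    rw [hκ]
    linarith
  have e1 : Real.exp (3 * κ) = R := by
    have : 3 * κ = Real.log R := by rw [hκ]; ring
    rw [this, Real.exp_log (by linarith)]
  have e2 : Real.exp (-3 * κ) = R⁻¹ := by
    rw [← e1, ← Real.exp_neg]
    congr 1
    ring
  have h1 := hyp ψ h hS κ hκ0 hκ1 t ht
  have h2 := hK κ ‖t‖ hκ0 hκ1 (norm_nonneg _) ht.le
  rw [e2] at h1 h2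
  rw [e1] at h1
  rw [← Pool.Agent.TH325.SI.log_eq hR] at h1 h2
  have e3 : ‖t‖ ^ 2 / (4 * A) = 1 / (4 * A) * ‖t‖ ^ 2 := by ring
  rw [e3] at h1
  linarith

theorem q1J {A : ℝ} (hA : 0 < A) (hyp : ExplJ A) :
    Q90.SM.Q1 Set.univ A :=
  Q90.SM.q21 Q90.SM.ext_all Q90.SM.gavg_all (q2A hA fun _ hc => unifJ hA hyp hc) hA

end Run7.h820.SR
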