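import Pool.Agent.Run7.h820.SR.Stm

set_option autoImplicit false
open Complex Filter Topology Set Metric MeasureTheory

namespace Run7.h820.SR

open Pool.Agent.TH325.SI (mn em la)
open Pool.Agent.W677.Mar (Sg IsG0 NN hat)
open Q90.SM (IsSig marshall pmean circ FF)

theorem pmean_pos {ψ h : ℂ → ℂ} (hS : IsSig ψ h) (t : ℂ) {R : ℝ} (hR : 1 < R) : 0 < pmean t R h := by
  unfold pmean
  have hpi := Real.pi_pos
  apply mul_pos (by positivity)
  apply intervalIntegral.intervalIntegral_pos_of_pos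
  · exact (Complex.continuous_exp.comp (continuous_const.mul (hS.cont hR))).norm.intervalIntegrable _ _
  · intro θ
    exact norm_pos_iff.2 (Complex.exp_ne_zero _)
  · positivity

theorem FF_diff {H : ℂ → ℂ} (hH : DifferentiableOn ℂ H (ball 0 1)) (t : ℂ) : DifferentiableOn ℂ (FF t H) (ball 0 1) :=
  (hH.const_mul (t / 2)).cexp

theorem pmean_anti (hM : S_MON) {ψ h : ℂ → ℂ} (hS : IsSig ψ h) (t : ℂ) {R R' : ℝ} (hR : 1 < R') (hle : R' ≤ R) :
    pmean t R h ≤ pmean t R' h := by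
  have hx := Q90.SM.ext_all ψ h hS
  have hR1 : 1 < R := by linarith
  rw [hx.2.2 t R hR1, hx.2.2 t R' hR]
  apply hM _ _ _ (FF_diff hx.1.dH t)
  · positivity
  · exact inv_anti₀ (by linarith) hle
  · exact inv_lt_one_of_one_lt₀ hR

/-- from a subsequence of radii to the exponent -/
theorem freq_bd (hM : S_MON) {ψ h : ℂ → ℂ} (hS : IsSig ψ h) (t : ℂ) {N : ℕ} (hN : 2 ≤ N) {J C' q : ℝ} (hJ : 0 < J) (hC' : 0 ≤ C')
    (hq : 0 ≤ q) (hlow : ∀ n : ℕ, Real.exp (-(‖t‖ * (C' + 2 * n))) * J ^ n ≤ pmean t (Real.exp (1 / (N:ℝ) ^ n)) h)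
    (hf : ∃ᶠ R in 𝓝[>] (1:ℝ), pmean t R h ≤ (1 / (R - 1)) ^ q) :
    Real.log J ≤ q * Real.log N + 2 * ‖t‖ := by
  have hN0 : (0:ℝ) < N := by
    have : 0 < N := by omega
    exact_mod_cast this
  have hN1 : (1:ℝ) < N := by
    have : 1 < N := by omega
    exact_mod_cast this
  have hlN : 0 < Real.log N := Real.log_pos hN1
  by_contra hcon
  push Not at hcon
  set D : ℝ := Real.log J - (q * Real.log N + 2 * ‖t‖) with hD
  have hD0 : 0 < D := by rw [hD]; linarith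
  obtain ⟨n0, hn0⟩ := exists_nat_gt ((q * Real.log N + ‖t‖ * C') / D)
  -- choose R
  have hev : ∀ᶠ R in 𝓝[>] (1:ℝ), R < Real.exp (1 / (N:ℝ) ^ n0) ∧ 1 < R := by
    have h1 : (1:ℝ) < Real.exp (1 / (N:ℝ) ^ n0) := Real.one_lt_exp_iff.2 (by positivity)
    have h2 : ∀ᶠ R in 𝓝[>] (1:ℝ), R < Real.exp (1 / (N:ℝ) ^ n0) :=
      mem_nhdsWithin_of_mem_nhds (Iio_mem_nhds h1)
    filter_upwards [h2, self_mem_nhdsWithin] with R ha hb
    exact ⟨ha, hb⟩
  obtain ⟨R, hR, hR0, hR1⟩ := (hf.and_eventually hev).exists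
  have hlR : 0 < Real.log R := Real.log_pos hR1
  have hlR1 : Real.log R < 1 / (N:ℝ) ^ n0 := by
    rw [Real.log_lt_iff_lt_exp (by linarith)]
    exact hR0
  have hN1' : 1 / (N:ℝ) < 1 := by
    rw [div_lt_one hN0]
    exact hN1
  have hle1 : 1 / (N:ℝ) ^ n0 ≤ 1 := by
    rw [div_le_one (by positivity)]
    exact one_le_pow₀ hN1.le
  obtain ⟨n, hn1, hn2⟩ := exists_nat_pow_near_of_lt_one hlR (by linarith) (by positivity : 0 < 1 / (N:ℝ)) hN1'
  rw [div_pow, one_pow] at hn1 hn2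
  have hnn : n0 ≤ n := by
    by_contra hlt
    push Not at hlt
    have h3 : (N:ℝ) ^ (n + 1) ≤ (N:ℝ) ^ n0 := pow_le_pow_right₀ hN1.le hlt
    have h4 : 1 / (N:ℝ) ^ n0 ≤ 1 / (N:ℝ) ^ (n + 1) := one_div_le_one_div_of_le (by positivity) h3
    linarith
  have h5 : R ≤ Real.exp (1 / (N:ℝ) ^ n) := by
    rw [← Real.log_le_iff_le_exp (by linarith)]
    exact hn2
  have h6 : 1 / (N:ℝ) ^ (n + 1) ≤ R - 1 := by
    have : Real.log R ≤ R - 1 := Real.log_le_sub_one_of_pos (by linarith)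
    linarith
  have h7 := (hlow n).trans ((pmean_anti hM hS t hR1 h5).trans hR)
  have h8 : (1 / (R - 1)) ^ q ≤ ((N:ℝ) ^ (n + 1)) ^ q := by
    apply Real.rpow_le_rpow (by have : 0 < R - 1 := by linarith
                                positivity) _ hq
    rw [div_le_iff₀ (by linarith)]
    rw [div_le_iff₀ (by positivity)] at h6
    linarith
  have h9 := Real.log_le_log (by positivity) (h7.trans h8)
  rw [Real.log_mul (by positivity) (by positivity), Real.log_exp, Real.log_pow, Real.log_rpow (by positivity), Real.log_pow] at h9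
  rw [div_lt_iff₀ hD0] at hn0
  have h10 : (n0:ℝ) ≤ n := by exact_mod_cast hnn
  have h11 : (n0:ℝ) * D ≤ n * D := by gcongr
  have h12 : (n:ℝ) * D ≤ q * Real.log N + ‖t‖ * C' := by
    rw [hD]
    push_cast at h9
    nlinarith
  linarith

theorem t_MAIN (hFIX : S_FIX) (hINJ : S_INJ) (hLOG : S_LOG) (hSIG : S_SIG) (hLOW : S_LOW) (hDAT : S_DAT) (hMON : S_MON) :
    S_MAIN := by
  intro hyp ψ h hS κ t N hκ hκ1 ht hN
  have hx := Q90.SM.ext_all ψ h hS
  have hR : 1 < Real.exp (3 * κ) := Real.one_lt_exp_iff.2 (by linarith)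
  obtain ⟨γ, ℓ, hB, hJ⟩ := hDAT _ _ κ t hx.1 hκ hκ1
  have hinv : (Real.exp (3 * κ))⁻¹ = Real.exp (-3 * κ) := by
    rw [← Real.exp_neg]
    congr 1
    ring
  have e1 : pmean t (Real.exp (3 * κ)) h = mn (FF t (hat h 0)) (Real.exp (-3 * κ)) := by
    rw [hx.2.2 t _ hR, hinv]
  rw [← e1] at hJ
  have hp := pmean_pos hS t hR
  have hJ0 : 0 < J1 t ℓ := lt_of_lt_of_le (by positivity) hJ
  obtain ⟨A, hA1, hA2, hA3, hA4⟩ := hFIX κ _ γ ℓ N hB hN
  have hFx : Fx κ (3 * bb κ) γ ℓ N A := ⟨hB, hN, hA1, hA2, hA3, hA4⟩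
  have hinj := hINJ _ _ _ _ _ _ hFx
  obtain ⟨E, hE1, hE2, hE3, hE4⟩ := hLOG _ _ _ _ _ _ hFx
  obtain ⟨ψ', h', hS', hself, hh'⟩ := hSIG _ _ _ _ _ _ E hFx hinj hE1 hE2 hE3
  obtain ⟨C', hC', hlow⟩ := hLOW _ _ _ _ _ _ _ h' hFx hE1 hE4 hh'
  have hsp := hyp ψ' h' hS' hself
  have hN2 : 2 ≤ N := by
    have h1 : (16:ℝ) ≤ 16 * (3 * bb κ) ^ 2 / κ := by
      rw [le_div_iff₀ hκ]
      have := hB.B1
      nlinarith
    have h2 : (16:ℝ) ≤ N := h1.trans hN
    have : 16 ≤ N := by exact_mod_cast h2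
    omega
  have hkey : Real.log (J1 t ℓ) ≤ ‖t‖ ^ 2 / 4 * Real.log N + 2 * ‖t‖ := by
    have hlN : 0 < Real.log N := Real.log_pos (by exact_mod_cast (by omega : 1 < N))
    apply le_of_forall_pos_le_add
    intro δ hδ
    have h1 := freq_bd hMON hS' t hN2 hJ0 hC' (q := ‖t‖ ^ 2 / 4 + δ / Real.log N) (by positivity) (hlow t)
      (hsp t ht _ (by positivity))
    have e : (‖t‖ ^ 2 / 4 + δ / Real.log N) * Real.log N = ‖t‖ ^ 2 / 4 * Real.log N + δ := by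
      field_simp
    rw [e] at h1
    linarith
  have h2 := Real.log_le_log (by positivity) hJ
  rw [Real.log_mul hp.ne' (by positivity), Real.log_exp] at h2
  linarith

end Run7.h820.SR
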