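import Pool.Agent.Run7.h820.SR.MAIN
import Pool.Agent.Run7.h820.SR.ASY

/-! General constant `A` instead of `1`. -/

set_option autoImplicit false
open Complex Filter Topology Set Metric MeasureTheory

namespace Run7.h820.SR

open Pool.Agent.TH325.SI (mn em la)
open Pool.Agent.W677.Mar (Sg IsG0 NN hat)
open Q90.SM (IsSig marshall pmean circ FF)

/-- all the pieces -/
structure Pcs : Prop where
  FIX : S_FIX
  INJ : S_INJ
  LOG : S_LOG
  SIG : S_SIG
  LOW : S_LOW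
  DAT : S_DAT
  MON : S_MON

/-- the approximation theorem -/
theorem approx (P : Pcs) {ψ h : ℂ → ℂ} (hS : IsSig ψ h) {κ : ℝ} (t : ℂ) {N : ℕ} (hκ : 0 < κ) (hκ1 : κ ≤ 1)
    (hN : 16 * (3 * bb κ) ^ 2 / κ ≤ N) :
    2 ≤ N ∧ ∃ ψ' h' : ℂ → ℂ, IsSig ψ' h' ∧ SelfSim ψ' ∧ ∃ C : ℝ, 0 ≤ C ∧ ∀ n : ℕ,
      Real.exp (-(‖t‖ * (C + 2 * n))) *
        (pmean t (Real.exp (3 * κ)) h * Real.exp (-(‖t‖ * Real.sqrt (2 * la (Real.exp (-3 * κ)) + 4)))) ^ n ≤
      pmean t (Real.exp (1 / (N:ℝ) ^ n)) h' := by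
  have hx := Q90.SM.ext_all ψ h hS
  have hR : 1 < Real.exp (3 * κ) := Real.one_lt_exp_iff.2 (by linarith)
  obtain ⟨γ, ℓ, hB, hJ⟩ := P.DAT _ _ κ t hx.1 hκ hκ1
  have hinv : (Real.exp (3 * κ))⁻¹ = Real.exp (-3 * κ) := by
    rw [← Real.exp_neg]
    congr 1
    ring
  have e1 : pmean t (Real.exp (3 * κ)) h = mn (FF t (hat h 0)) (Real.exp (-3 * κ)) := by
    rw [hx.2.2 t _ hR, hinv]
  rw [← e1] at hJ
  have hp := pmean_pos hS t hR
  obtain ⟨A, hA1, hA2, hA3, hA4⟩ := P.FIX κ _ γ ℓ N hB hN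
  have hFx : Fx κ (3 * bb κ) γ ℓ N A := ⟨hB, hN, hA1, hA2, hA3, hA4⟩
  have hinj := P.INJ _ _ _ _ _ _ hFx
  obtain ⟨E, hE1, hE2, hE3, hE4⟩ := P.LOG _ _ _ _ _ _ hFx
  obtain ⟨ψ', h', hS', hself, hh'⟩ := P.SIG _ _ _ _ _ _ E hFx hinj hE1 hE2 hE3
  obtain ⟨C', hC', hlow⟩ := P.LOW _ _ _ _ _ _ _ h' hFx hE1 hE4 hh'
  have hN2 : 2 ≤ N := by
    have h1 : (16:ℝ) ≤ 16 * (3 * bb κ) ^ 2 / κ := by
      rw [le_div_iff₀ hκ]
      have := hB.B1
      nlinarith
    have h2 : (16:ℝ) ≤ N := h1.trans hN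
    have : 16 ≤ N := by exact_mod_cast h2
    omega
  refine ⟨hN2, ψ', h', hS', hself, C', hC', fun n => le_trans ?_ (hlow t n)⟩
  gcongr

/-- the bound for one map along a sequence of radii, with the constant `A` -/
def SpecA (A : ℝ) (h : ℂ → ℂ) : Prop := ∀ t : ℂ, ‖t‖ < 2 * A → ∀ ε : ℝ, 0 < ε →
  ∃ᶠ R in 𝓝[>] (1:ℝ), pmean t R h ≤ (1 / (R - 1)) ^ (‖t‖ ^ 2 / (4 * A) + ε)

theorem mainA (P : Pcs) {A : ℝ} (hA : 0 < A) (hyp : ∀ ψ h : ℂ → ℂ, IsSig ψ h → SelfSim ψ → SpecA A h)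
    {ψ h : ℂ → ℂ} (hS : IsSig ψ h) {κ : ℝ} {t : ℂ} {N : ℕ} (hκ : 0 < κ) (hκ1 : κ ≤ 1) (ht : ‖t‖ < 2 * A)
    (hN : 16 * (3 * bb κ) ^ 2 / κ ≤ N) :
    Real.log (pmean t (Real.exp (3 * κ)) h) ≤
      ‖t‖ ^ 2 / (4 * A) * Real.log N + 2 * ‖t‖ + ‖t‖ * Real.sqrt (2 * la (Real.exp (-3 * κ)) + 4) := by
  obtain ⟨hN2, ψ', h', hS', hself, C', hC', hlow⟩ := approx P hS t hκ hκ1 hN
  have hR : 1 < Real.exp (3 * κ) := Real.one_lt_exp_iff.2 (by linarith)
  have hp := pmean_pos hS t hR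
  have hsp := hyp ψ' h' hS' hself
  have hkey : Real.log (pmean t (Real.exp (3 * κ)) h * Real.exp (-(‖t‖ * Real.sqrt (2 * la (Real.exp (-3 * κ)) + 4)))) ≤
      ‖t‖ ^ 2 / (4 * A) * Real.log N + 2 * ‖t‖ := by
    have hlN : 0 < Real.log N := Real.log_pos (by exact_mod_cast (by omega : 1 < N))
    apply le_of_forall_pos_le_add
    intro δ hδ
    have h1 := freq_bd P.MON hS' t hN2 (by positivity) hC' (q := ‖t‖ ^ 2 / (4 * A) + δ / Real.log N) (by positivity) hlow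
      (hsp t ht _ (by positivity))
    have e : (‖t‖ ^ 2 / (4 * A) + δ / Real.log N) * Real.log N = ‖t‖ ^ 2 / (4 * A) * Real.log N + δ := by
      field_simp
    rw [e] at h1
    linarith
  rw [Real.log_mul hp.ne' (by positivity), Real.log_exp] at hkey
  linarith

theorem asyA {c₀ c T₀ : ℝ} (hc₀ : 0 < c₀) (hc : c₀ < c) : ∃ K : ℝ, ∀ κ T : ℝ, 0 < κ → κ ≤ 1 → 0 ≤ T → T ≤ T₀ →
    c₀ * T ^ 2 * Real.log (⌈16 * (3 * bb κ) ^ 2 / κ⌉₊ : ℝ) + 2 * T + T * Real.sqrt (2 * la (Real.exp (-3 * κ)) + 4) ≤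
    K + c * T ^ 2 * la (Real.exp (-3 * κ)) := by
  set η : ℝ := (c - c₀) / (2 * (c₀ + 1)) with hη
  have hη0 : 0 < η := by
    rw [hη]
    apply div_pos (by linarith) (by linarith)
  set C2 : ℝ := Real.log 147 + 2 * (η - 1 - Real.log η) + (1 + 2 * η) * Real.log 6 with hC2
  refine ⟨c₀ * T₀ ^ 2 * |C2| + 2 * T₀ + 4 * η * T₀ ^ 2 + 1 / (4 * η), ?_⟩
  intro κ T h0 h1 hT0 hT2
  have hL0 := asy_la0 h0
  have hLu := asy_la h0
  obtain ⟨hb0, hb1⟩ := asy_bb h0 h1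
  set L : ℝ := la (Real.exp (-3 * κ)) with hL
  set u : ℝ := Real.log (1 / κ) with hu
  have hu0 : 0 ≤ u := by
    apply Real.log_nonneg
    rw [le_div_iff₀ h0]
    linarith
  have hl2 : Real.log (2 / κ) = Real.log 2 + u := by
    rw [hu, ← Real.log_mul (by norm_num) (by positivity)]
    congr 1
    ring
  have hln2 := Real.log_two_gt_d9
  have hln2' := Real.log_two_lt_d9
  set y : ℝ := Real.log 2 + u with hy
  have hy0 : 0.69 < y := by rw [hy]; linarith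
  have hy1 : y ≤ 1 + u := by rw [hy]; linarith
  -- the ceiling
  have hceil : (⌈16 * (3 * bb κ) ^ 2 / κ⌉₊ : ℝ) ≤ 147 * y ^ 2 / κ := by
    have h2 : (⌈16 * (3 * bb κ) ^ 2 / κ⌉₊ : ℝ) < 16 * (3 * bb κ) ^ 2 / κ + 1 :=
      Nat.ceil_lt_add_one (by positivity)
    have h3 : 16 * (3 * bb κ) ^ 2 / κ ≤ 144 * y ^ 2 / κ := by
      apply div_le_div_of_nonneg_right _ h0.le
      rw [hl2] at hb1
      have h4 : bb κ ^ 2 ≤ y ^ 2 := by gcongr
      linarith
    have h5 : 1 ≤ 3 * y ^ 2 / κ := by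
      rw [le_div_iff₀ h0]
      nlinarith
    have h6 : 144 * y ^ 2 / κ + 3 * y ^ 2 / κ = 147 * y ^ 2 / κ := by ring
    linarith
  have hpos : (0:ℝ) < (⌈16 * (3 * bb κ) ^ 2 / κ⌉₊ : ℝ) := by
    have : 0 < ⌈16 * (3 * bb κ) ^ 2 / κ⌉₊ := Nat.ceil_pos.2 (by positivity)
    exact_mod_cast this
  have hlog : Real.log (⌈16 * (3 * bb κ) ^ 2 / κ⌉₊ : ℝ) ≤ Real.log 147 + 2 * Real.log y + u := by
    refine (Real.log_le_log hpos hceil).trans (le_of_eq ?_)
    have e : 147 * y ^ 2 / κ = 147 * y ^ 2 * (1 / κ) := by ring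
    rw [e, Real.log_mul (by positivity) (by positivity), Real.log_mul (by norm_num) (by positivity), Real.log_pow]
    push_cast
    ring
  have hlogy : Real.log y ≤ η * u + (η - 1 - Real.log η) := by
    have h2 : Real.log y ≤ Real.log (1 + u) := Real.log_le_log (by linarith) hy1
    have h3 : Real.log (η * (1 + u)) ≤ η * (1 + u) - 1 := Real.log_le_sub_one_of_pos (by positivity)
    rw [Real.log_mul hη0.ne' (by positivity)] at h3
    linarith
  have hlogN : Real.log (⌈16 * (3 * bb κ) ^ 2 / κ⌉₊ : ℝ) ≤ (1 + 2 * η) * L + C2 := by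
    have h2 : (1 + 2 * η) * u ≤ (1 + 2 * η) * (L + Real.log 6) := by gcongr
    rw [hC2]
    nlinarith
  have hTT : T ^ 2 ≤ T₀ ^ 2 := by gcongr
  have hterm1 : c₀ * T ^ 2 * Real.log (⌈16 * (3 * bb κ) ^ 2 / κ⌉₊ : ℝ) ≤ c₀ * T ^ 2 * ((1 + 2 * η) * L) + c₀ * T₀ ^ 2 * |C2| := by
    have h2 : c₀ * T ^ 2 * Real.log (⌈16 * (3 * bb κ) ^ 2 / κ⌉₊ : ℝ) ≤ c₀ * T ^ 2 * ((1 + 2 * η) * L + C2) := by gcongr
    have h3 : c₀ * T ^ 2 * C2 ≤ c₀ * T₀ ^ 2 * |C2| := by
      calc c₀ * T ^ 2 * C2 ≤ c₀ * T ^ 2 * |C2| := by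
            gcongr
            exact le_abs_self _
        _ ≤ c₀ * T₀ ^ 2 * |C2| := by gcongr
    linarith
  have hterm2 : T * Real.sqrt (2 * L + 4) ≤ 2 * η * T ^ 2 * L + 4 * η * T₀ ^ 2 + 1 / (4 * η) := by
    have h2 : Real.sqrt (2 * L + 4) ^ 2 = 2 * L + 4 := Real.sq_sqrt (by linarith)
    set X : ℝ := Real.sqrt (2 * L + 4) with hX
    have h3 : η * T ^ 2 * X ^ 2 + 1 / (4 * η) - T * X = η * (T * X - 1 / (2 * η)) ^ 2 := by
      field_simp
      ring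
    have h4 : 0 ≤ η * (T * X - 1 / (2 * η)) ^ 2 := by positivity
    rw [h2] at h3
    have h5 : η * T ^ 2 ≤ η * T₀ ^ 2 := by gcongr
    linarith
  have hfin : c₀ * T ^ 2 * ((1 + 2 * η) * L) + 2 * η * T ^ 2 * L = c * T ^ 2 * L := by
    have h2 : 2 * η * (c₀ + 1) = c - c₀ := by
      rw [hη]
      field_simp
    have h3 : c = c₀ + 2 * η * (c₀ + 1) := by linarith
    rw [h3]
    ring
  linarith

/-- the explicit inequality -/
def Expl (A : ℝ) : Prop := ∀ ψ h : ℂ → ℂ, IsSig ψ h → ∀ κ : ℝ, 0 < κ → κ ≤ 1 → ∀ t : ℂ, ‖t‖ < 2 * A →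
  Real.log (pmean t (Real.exp (3 * κ)) h) ≤
      ‖t‖ ^ 2 / (4 * A) * Real.log (⌈16 * (3 * bb κ) ^ 2 / κ⌉₊ : ℝ) + 2 * ‖t‖ +
        ‖t‖ * Real.sqrt (2 * la (Real.exp (-3 * κ)) + 4)

theorem explA (P : Pcs) {A : ℝ} (hA : 0 < A) (hyp : ∀ ψ h : ℂ → ℂ, IsSig ψ h → SelfSim ψ → SpecA A h) : Expl A :=
  fun _ _ hS _ h0 h1 _ ht => mainA P hA hyp hS h0 h1 ht (Nat.le_ceil _)

/-- the uniform bound for `‖t‖ < 2 A` -/
theorem unif {A : ℝ} (hA : 0 < A) (hyp : Expl A) {c : ℝ}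
    (hc : 1 / (4 * A) < c) : ∃ K : ℝ, ∀ R : ℝ, 1 < R → R < 2 → ∀ ψ h : ℂ → ℂ, IsSig ψ h → ∀ t : ℂ, ‖t‖ < 2 * A →
    Real.log (pmean t R h) ≤ K + c * ‖t‖ ^ 2 * Real.log (R ^ 2 / (R ^ 2 - 1)) := by
  obtain ⟨K, hK⟩ := asyA (c₀ := 1 / (4 * A)) (T₀ := 2 * A) (by positivity) hc
  refine ⟨K, ?_⟩
  intro R hR hR2 ψ h hS t ht
  have hl0 : 0 < Real.log R := Real.log_pos hR
  set κ : ℝ := Real.log R / 3 with hκ
  have hκ0 : 0 < κ := by rw [hκ]; positivity
  have hκ1 : κ ≤ 1 := by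
    have h1 := Real.log_le_sub_one_of_pos (by linarith : 0 < R)
    rw [hκ]
    linarith
  have e1 : Real.exp (3 * κ) = R := by
    have : 3 * κ = Real.log R := by rw [hκ]; ring
    rw [this, Real.exp_log (by linarith)]
  have e2 : Real.exp (-3 * κ) = R⁻¹ := by
    rw [← e1, ← Real.exp_neg]
    congr 1
    ring
  have h1 := hyp ψ h hS κ hκ0 hκ1 t ht
  have h2 := hK κ ‖t‖ hκ0 hκ1 (norm_nonneg _) ht.le
  rw [e2] at h1 h2
  rw [e1] at h1
  rw [← Pool.Agent.TH325.SI.log_eq hR] at h1 h2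
  have e3 : ‖t‖ ^ 2 / (4 * A) = 1 / (4 * A) * ‖t‖ ^ 2 := by ring
  rw [e3] at h1
  linarith

/-- from `‖t‖ < 2 A` to `‖t‖ < 4 A` -/
theorem q2A {A : ℝ} (hA : 0 < A) (hyp : ∀ c : ℝ, 1 / (4 * A) < c → ∃ K : ℝ, ∀ R : ℝ, 1 < R → R < 2 → ∀ ψ h : ℂ → ℂ, IsSig ψ h →
    ∀ t : ℂ, ‖t‖ < 2 * A → Real.log (pmean t R h) ≤ K + c * ‖t‖ ^ 2 * Real.log (R ^ 2 / (R ^ 2 - 1))) :
    Q90.SM.Q2 Set.univ A := by
  intro c hc
  set c₀ : ℝ := 1 / (4 * A) with hc₀
  have hc₀0 : 0 < c₀ := by rw [hc₀]; positivity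
  have hAc : 4 * A * c₀ = 1 := by
    rw [hc₀]
    field_simp
  set c' : ℝ := (c + c₀) / 2 with hc'
  have h1 : c₀ < c' := by rw [hc']; linarith
  have h2 : c' < c := by rw [hc']; linarith
  have hc'0 : 0 < c' := by linarith
  obtain ⟨K, hK⟩ := hyp c' h1
  -- `c' σ² ≤ 4 A² (c - c')`
  set σ : ℝ := min A (4 * A * (c' - c₀) / c') with hσ
  have hσ0 : 0 < σ := by
    rw [hσ]
    apply lt_min hA
    apply div_pos (mul_pos (by positivity) (by linarith)) hc'0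
  have hσ1 : σ ≤ A := min_le_left _ _
  have hσ2 : c' * σ ≤ 4 * A * (c' - c₀) := by
    have h3 : σ ≤ 4 * A * (c' - c₀) / c' := min_le_right _ _
    rw [le_div_iff₀ hc'0] at h3
    linarith
  refine ⟨Real.exp (max K 0), 2, one_lt_two, ?_⟩
  intro R hR hR2 ψ _ h hS t ht4
  have hL := Q90.SM.L_pos hR
  have hcont := hS.cont hR
  have hq : 0 < R ^ 2 / (R ^ 2 - 1) := by
    have : 0 < R ^ 2 - 1 := by nlinarith
    positivity
  set L : ℝ := Real.log (R ^ 2 / (R ^ 2 - 1)) with hLdef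
  have e1 : (R ^ 2 / (R ^ 2 - 1)) ^ (c * ‖t‖ ^ 2) = Real.exp (c * ‖t‖ ^ 2 * L) := by
    rw [Real.rpow_def_of_pos hq, mul_comm]
  rw [e1, ← Real.exp_add]
  have key : ∀ u : ℂ, ‖u‖ < 2 * A → pmean u R h ≤ Real.exp (K + c' * ‖u‖ ^ 2 * L) := by
    intro u hu
    have h3 := hK R hR hR2 ψ h hS u hu
    rw [← Real.log_le_iff_le_exp (pmean_pos hS u hR)]
    exact h3
  rcases lt_or_ge ‖t‖ (2 * A) with hlt | hge
  · refine (key t hlt).trans (Real.exp_le_exp.2 ?_)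
    have h3 : c' * ‖t‖ ^ 2 * L ≤ c * ‖t‖ ^ 2 * L := by gcongr
    have h4 := le_max_left K 0
    linarith
  · have hT0 : 0 < ‖t‖ := by linarith
    set T : ℝ := ‖t‖ with hT
    set s : ℝ := 2 * A - σ with hs
    have hs0 : 0 < s := by rw [hs]; linarith
    have hs2 : s < 2 * A := by rw [hs]; linarith
    have hsT : 0 ≤ T - s := by linarith
    set u : ℂ := ((s / T : ℝ) : ℂ) * t with hu
    have hun : ‖u‖ = s := by
      rw [hu, norm_mul, Complex.norm_real, Real.norm_of_nonneg (by positivity), ← hT]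
      field_simp
    have hpt : ∀ θ : ℝ, ‖Complex.exp (t * h (circ R θ))‖ ≤ ‖Complex.exp (u * h (circ R θ))‖ * Real.exp ((T - s) * L) := by
      intro θ
      rw [Complex.norm_exp, Complex.norm_exp, ← Real.exp_add]
      apply Real.exp_le_exp.2
      have h3 : (u * h (circ R θ)).re = s / T * (t * h (circ R θ)).re := by
        rw [hu, mul_assoc, Complex.re_ofReal_mul]
      have h4 : (t * h (circ R θ)).re ≤ T * L := by
        refine (Complex.re_le_norm _).trans ?_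
        rw [norm_mul]
        gcongr
        have h1 := Q90.SM.gol Q90.SM.ext_all hS (z := circ R θ) (by rw [Q90.SM.norm_circ (by linarith)]; exact hR)
        rw [Q90.SM.norm_circ (by linarith)] at h1
        exact h1
      rw [h3]
      have h5 : (t * h (circ R θ)).re = s / T * (t * h (circ R θ)).re + (T - s) / T * (t * h (circ R θ)).re := by
        field_simp
        ring
      have h6 : (T - s) / T * (t * h (circ R θ)).re ≤ (T - s) / T * (T * L) := by gcongr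
      have h7 : (T - s) / T * (T * L) = (T - s) * L := by
        field_simp
      linarith
    have h8 : pmean t R h ≤ pmean u R h * Real.exp ((T - s) * L) := by
      calc pmean t R h ≤ (1 / (2 * Real.pi)) * ∫ θ in (0:ℝ)..(2 * Real.pi), ‖Complex.exp (u * h (circ R θ))‖ * Real.exp ((T - s) * L) := by
            apply Q90.SM.mean_le
            · exact (Complex.continuous_exp.comp (continuous_const.mul hcont)).norm
            · exact ((Complex.continuous_exp.comp (continuous_const.mul hcont)).norm).mul continuous_const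
            · exact hpt
        _ = _ := by
            rw [intervalIntegral.integral_mul_const, ← mul_assoc]
            rfl
    have h9 := key u (by rw [hun]; exact hs2)
    calc pmean t R h ≤ pmean u R h * Real.exp ((T - s) * L) := h8
      _ ≤ Real.exp (K + c' * ‖u‖ ^ 2 * L) * Real.exp ((T - s) * L) := by gcongr
      _ = Real.exp (K + c' * ‖u‖ ^ 2 * L + (T - s) * L) := by rw [← Real.exp_add]
      _ ≤ Real.exp (max K 0 + c * T ^ 2 * L) := by
          apply Real.exp_le_exp.2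
          rw [hun]
          have h10 : T - s + c' * s ^ 2 ≤ c * T ^ 2 := by
            have e : s = 2 * A - σ := hs
            have e2 : c = 2 * c' - c₀ := by rw [hc']; ring
            -- slack
            have h11 : c' * σ * σ ≤ 4 * A * (c' - c₀) * A := by
              apply mul_le_mul hσ2 hσ1 hσ0.le
              exact mul_nonneg (by positivity) (by linarith)
            have h12 : 0 ≤ c₀ * (T - 2 * A) ^ 2 := by positivity
            have h13 : 0 ≤ (c' - c₀) * (T ^ 2 - 4 * A ^ 2) := by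
              apply mul_nonneg (by linarith)
              nlinarith
            have h14 : 0 ≤ (4 * A * c' - 1) * σ := by
              apply mul_nonneg _ hσ0.le
              have : 4 * A * c₀ ≤ 4 * A * c' := by gcongr
              linarith
            have h15 : T = 4 * A * c₀ * T := by rw [hAc]; ring
            have h16 : A = 4 * A * c₀ * A := by rw [hAc]; ring
            rw [e, e2]
            have h17 : c₀ * (T - 2 * A) ^ 2 = c₀ * T ^ 2 - T + A := by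
              linear_combination (A - T) * hAc
            nlinarith
          have h15 : (T - s + c' * s ^ 2) * L ≤ c * T ^ 2 * L := by gcongr
          have h16 := le_max_left K 0
          nlinarith

/-- the main implication -/
theorem q1A {A : ℝ} (hA : 0 < A) (hyp : Expl A) :
    Q90.SM.Q1 Set.univ A :=
  Q90.SM.q21 Q90.SM.ext_all Q90.SM.gavg_all (q2A hA fun _ hc => unif hA hyp hc) hA

end Run7.h820.SR
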