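import Pool.Agent.Run7.h820.SR.Stm

set_option autoImplicit false
open Complex Filter Topology Set Metric MeasureTheory

namespace Run7.h820.SR

open Q90.SM (IsSig marshall pmean circ FF)

theorem t_Q2 : S_Q2 := by
  intro hyp c hc
  have hc4 : 1 / 4 < c := by
    have : (1:ℝ) / (4 * 1) = 1 / 4 := by norm_num
    linarith
  set c' : ℝ := (c + 1 / 4) / 2 with hc'
  have h1 : 1 / 4 < c' := by rw [hc']; linarith
  have h2 : c' < c := by rw [hc']; linarith
  have hc'0 : 0 < c' := by linarith
  obtain ⟨K, hK⟩ := hyp c' h1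
  set σ : ℝ := min 1 (4 * (c' - 1 / 4) / c') with hσ
  have hσ0 : 0 < σ := by
    rw [hσ]
    apply lt_min one_pos
    apply div_pos (by linarith) hc'0
  have hσ1 : σ ≤ 1 := min_le_left _ _
  have hσ2 : c' * σ ≤ 4 * (c' - 1 / 4) := by
    have h3 : σ ≤ 4 * (c' - 1 / 4) / c' := min_le_right _ _
    rw [le_div_iff₀ hc'0] at h3
    linarith
  refine ⟨Real.exp (max K 0), 2, one_lt_two, ?_⟩
  intro R hR hR2 ψ _ h hS t ht
  have ht4 : ‖t‖ < 4 := by linarith
  have hL := Q90.SM.L_pos hR
  have hcont := hS.cont hR
  have hq : 0 < R ^ 2 / (R ^ 2 - 1) := by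
    have : 0 < R ^ 2 - 1 := by nlinarith
    positivity
  set L : ℝ := Real.log (R ^ 2 / (R ^ 2 - 1)) with hLdef
  have e1 : (R ^ 2 / (R ^ 2 - 1)) ^ (c * ‖t‖ ^ 2) = Real.exp (c * ‖t‖ ^ 2 * L) := by
    rw [Real.rpow_def_of_pos hq, mul_comm]
  rw [e1, ← Real.exp_add]
  -- log form implies the bound
  have key : ∀ u : ℂ, ‖u‖ < 2 → pmean u R h ≤ Real.exp (K + c' * ‖u‖ ^ 2 * L) := by
    intro u hu
    have h3 := hK R hR hR2 ψ h hS u hu
    have hpi := Real.pi_pos
    have hp : 0 < pmean u R h := by
      unfold pmean
      apply mul_pos (by positivity)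
      apply intervalIntegral.intervalIntegral_pos_of_pos
      · exact (Complex.continuous_exp.comp (continuous_const.mul hcont)).norm.intervalIntegrable _ _
      · intro θ
        exact norm_pos_iff.2 (Complex.exp_ne_zero _)
      · positivity
    rw [← Real.log_le_iff_le_exp hp]
    exact h3
  rcases lt_or_ge ‖t‖ 2 with hlt | hge
  · refine (key t hlt).trans (Real.exp_le_exp.2 ?_)
    have h3 : c' * ‖t‖ ^ 2 * L ≤ c * ‖t‖ ^ 2 * L := by gcongr
    have h4 := le_max_left K 0
    linarith
  · -- large t
    have hT0 : 0 < ‖t‖ := by linarith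
    set T : ℝ := ‖t‖ with hT
    set s : ℝ := 2 - σ with hs
    have hs0 : 0 < s := by rw [hs]; linarith
    have hs2 : s < 2 := by rw [hs]; linarith
    have hsT : 0 ≤ T - s := by linarith
    set u : ℂ := ((s / T : ℝ) : ℂ) * t with hu
    have hun : ‖u‖ = s := by
      rw [hu, norm_mul, Complex.norm_real, Real.norm_of_nonneg (by positivity), ← hT]
      field_simp
    have hpt : ∀ θ : ℝ, ‖Complex.exp (t * h (circ R θ))‖ ≤ ‖Complex.exp (u * h (circ R θ))‖ * Real.exp ((T - s) * L) := by
      intro θ
      rw [Complex.norm_exp, Complex.norm_exp, ← Real.exp_add]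
      apply Real.exp_le_exp.2
      have h3 : (u * h (circ R θ)).re = s / T * (t * h (circ R θ)).re := by
        rw [hu, mul_assoc, Complex.re_ofReal_mul]
      have h4 : (t * h (circ R θ)).re ≤ T * L := by
        refine (Complex.re_le_norm _).trans ?_
        rw [norm_mul]
        gcongr
        have h1 := Q90.SM.gol Q90.SM.ext_all hS (z := circ R θ) (by rw [Q90.SM.norm_circ (by linarith)]; exact hR)
        rw [Q90.SM.norm_circ (by linarith)] at h1
        exact h1
      rw [h3]
      have h5 : (t * h (circ R θ)).re = s / T * (t * h (circ R θ)).re + (T - s) / T * (t * h (circ R θ)).re := by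
        field_simp
        ring
      have h6 : (T - s) / T * (t * h (circ R θ)).re ≤ (T - s) / T * (T * L) := by gcongr
      have h7 : (T - s) / T * (T * L) = (T - s) * L := by
        field_simp
      linarith
    have h8 : pmean t R h ≤ pmean u R h * Real.exp ((T - s) * L) := by
      calc pmean t R h ≤ (1 / (2 * Real.pi)) * ∫ θ in (0:ℝ)..(2 * Real.pi), ‖Complex.exp (u * h (circ R θ))‖ * Real.exp ((T - s) * L) := by
            apply Q90.SM.mean_le
            · exact (Complex.continuous_exp.comp (continuous_const.mul hcont)).norm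
            · exact ((Complex.continuous_exp.comp (continuous_const.mul hcont)).norm).mul continuous_const
            · exact hpt
        _ = _ := by
            rw [intervalIntegral.integral_mul_const, ← mul_assoc]
            rfl
    have h9 := key u (by rw [hun]; exact hs2)
    calc pmean t R h ≤ pmean u R h * Real.exp ((T - s) * L) := h8
      _ ≤ Real.exp (K + c' * ‖u‖ ^ 2 * L) * Real.exp ((T - s) * L) := by gcongr
      _ = Real.exp (K + c' * ‖u‖ ^ 2 * L + (T - s) * L) := by rw [← Real.exp_add]
      _ ≤ Real.exp (max K 0 + c * T ^ 2 * L) := by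
          apply Real.exp_le_exp.2
          rw [hun]
          have h10 : T - s + c' * s ^ 2 ≤ c * T ^ 2 := by
            have e : s = 2 - σ := hs
            have e2 : c = 2 * c' - 1 / 4 := by rw [hc']; ring
            rw [e, e2]
            have h11 : c' * σ * σ ≤ 4 * (c' - 1 / 4) * 1 := by
              apply mul_le_mul hσ2 hσ1 hσ0.le
              linarith
            have h12 : 0 ≤ (T / 2 - 1) ^ 2 := sq_nonneg _
            have h13 : 0 ≤ (c' - 1 / 4) * (T ^ 2 - 4) := by
              apply mul_nonneg (by linarith)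
              nlinarith
            have h14 : 0 ≤ (4 * c' - 1) * σ := mul_nonneg (by linarith) hσ0.le
            nlinarith
          have h15 : (T - s + c' * s ^ 2) * L ≤ c * T ^ 2 * L := by gcongr
          have h16 := le_max_left K 0
          nlinarith

end Run7.h820.SR
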