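import Pool.Agent.Run7.h820.SR.StmJ
import Pool.Agent.Run7.h705.SR.SIG

/-! The exterior map is the Riemann map of the basin of infinity of a polynomial. (Copy of helper705's SIG with more output.) -/

set_option autoImplicit false
open Complex Filter Topology Set Metric MeasureTheory

namespace Run7.h820.SR

open Run7.h705.SR (inv_mem ne0 N_big)
open Q90.SM (IsSig marshall pmean circ FF)

theorem sig_data {κ B : ℝ} {γ ℓ : ℂ → ℂ} {N : ℕ} {A E : ℂ → ℂ} (hF : Fx κ B γ ℓ N A)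
    (hinj : InjOn (fun v => v * Complex.exp (A v)) (ball 0 1))
    (hE : DifferentiableOn ℂ E (ball 0 1)) (hE0 : E 0 = 0) (hexp : ∀ v ∈ ball (0:ℂ) 1, Complex.exp (E v) = 1 + v * deriv A v) :
    IsSig (fun z => z * Complex.exp (-A z⁻¹)) (fun z => E z⁻¹ - A z⁻¹) ∧ 2 ≤ N ∧ Real.exp (-2 * κ) < 1 ∧
      DifferentiableOn ℂ (fun z => z * Complex.exp (γ z⁻¹)) {z : ℂ | Real.exp (-2 * κ) < ‖z‖} ∧
      InjOn (fun z => z * Complex.exp (γ z⁻¹)) {z : ℂ | Real.exp (-2 * κ) < ‖z‖} ∧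
      ∀ z : ℂ, 1 < ‖z‖ → Real.sqrt (Real.exp (-2 * κ)) < ‖z * Complex.exp (-(A (z⁻¹ ^ N) / N))‖ ∧
        z * Complex.exp (-A z⁻¹) = z * Complex.exp (-(A (z⁻¹ ^ N) / N)) *
          Complex.exp (γ (z * Complex.exp (-(A (z⁻¹ ^ N) / N)))⁻¹) ∧
        (z * Complex.exp (-(A (z⁻¹ ^ N) / N))) ^ N = z ^ N * Complex.exp (-A (z ^ N)⁻¹) := by
  have h0 := hF.blk.κ0
  have hB := hF.blk.B1
  obtain ⟨hN16, hNB⟩ := N_big hF
  have hNpos : (0:ℝ) < N := by linarith
  have hNC : (N:ℂ) ≠ 0 := by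
    have : (N:ℝ) ≠ 0 := hNpos.ne'
    exact_mod_cast this
  have hN2 : 2 ≤ N := by
    have : (2:ℝ) ≤ N := by linarith
    exact_mod_cast this
  have hopen : IsOpen {z : ℂ | 1 < ‖z‖} := isOpen_lt continuous_const continuous_norm
  have hAat : ∀ v ∈ ball (0:ℂ) 1, DifferentiableAt ℂ A v := fun v hv =>
    (hF.dA v hv).differentiableAt (isOpen_ball.mem_nhds hv)
  have hEat : ∀ v ∈ ball (0:ℂ) 1, DifferentiableAt ℂ E v := fun v hv =>
    (hE v hv).differentiableAt (isOpen_ball.mem_nhds hv)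
  -- derivative of z ↦ A z⁻¹
  have hAinv : ∀ z : ℂ, 1 < ‖z‖ → HasDerivAt (fun z => A z⁻¹) (deriv A z⁻¹ * (-(z ^ 2)⁻¹)) z := by
    intro z hz
    have h1 := (hAat z⁻¹ (inv_mem hz)).hasDerivAt
    have h2 := hasDerivAt_inv (ne0 hz)
    exact h1.comp z h2
  have hψ : ∀ z : ℂ, 1 < ‖z‖ → HasDerivAt (fun z => z * Complex.exp (-A z⁻¹))
      (Complex.exp (E z⁻¹ - A z⁻¹)) z := by
    intro z hz
    have h1 := (hasDerivAt_id z).mul ((hAinv z hz).neg.cexp)
    refine h1.congr_deriv ?_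
    have hz0 := ne0 hz
    simp only [id, Pi.neg_apply]
    rw [Complex.exp_sub, hexp _ (inv_mem hz), Complex.exp_neg]
    field_simp
  refine ⟨⟨?_, ?_, ?_, ?_, ?_, ?_⟩, hN2, ?_, ?_, ?_, ?_⟩
  · intro z hz
    exact (hψ z hz).differentiableAt.differentiableWithinAt
  · intro z hz z' hz' h
    have hz0 := ne0 hz
    have hz0' := ne0 hz'
    have h1 : z⁻¹ * Complex.exp (A z⁻¹) = z'⁻¹ * Complex.exp (A z'⁻¹) := by
      have h2 : (z * Complex.exp (-A z⁻¹))⁻¹ = (z' * Complex.exp (-A z'⁻¹))⁻¹ := by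
        rw [show z * Complex.exp (-A z⁻¹) = z' * Complex.exp (-A z'⁻¹) from h]
      rw [mul_inv, mul_inv, ← Complex.exp_neg, ← Complex.exp_neg, neg_neg, neg_neg] at h2
      exact h2
    have h3 := hinj (inv_mem hz) (inv_mem hz') h1
    exact inv_injective h3
  · refine ⟨-deriv A 0, ?_⟩
    have h1 : HasDerivAt (fun v => Complex.exp (-A v)) (-deriv A 0) 0 := by
      have h2 := ((hAat 0 (by simp)).hasDerivAt.neg).cexp
      simpa [hF.A0] using h2
    have h2 : Tendsto (fun z : ℂ => z⁻¹) (Bornology.cobounded ℂ) (𝓝[≠] 0) :=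
      tendsto_inv₀_cobounded'
    have h3 := (hasDerivAt_iff_tendsto_slope.1 h1).comp h2
    refine h3.congr' ?_
    have hne : ∀ᶠ z : ℂ in Bornology.cobounded ℂ, z ≠ 0 := Bornology.eventually_ne_cobounded 0
    filter_upwards [hne] with z hz
    simp only [Function.comp, slope_def_field, hF.A0, neg_zero, Complex.exp_zero, sub_zero]
    field_simp
  · intro z hz
    have h1 : DifferentiableAt ℂ (fun z => E z⁻¹) z :=
      (hEat z⁻¹ (inv_mem hz)).comp z (hasDerivAt_inv (ne0 hz)).differentiableAt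
    exact (h1.sub (hAinv z hz).differentiableAt).differentiableWithinAt
  · intro z hz
    exact (hψ z hz).deriv.symm
  · have h2 : Tendsto (fun z : ℂ => z⁻¹) (Bornology.cobounded ℂ) (𝓝 0) :=
      tendsto_inv₀_cobounded
    have h3 : Tendsto (fun v => E v - A v) (𝓝 0) (𝓝 (E 0 - A 0)) :=
      ((hEat 0 (by simp)).continuousAt.sub (hAat 0 (by simp)).continuousAt)
    have h4 := h3.comp h2
    simpa [hE0, hF.A0, Function.comp_def] using h4
  · rw [Real.exp_lt_one_iff]; linarith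
  · intro z hz
    have hz' : Real.exp (-2 * κ) < ‖z‖ := hz
    have hz0 : z ≠ 0 := by
      rintro rfl
      rw [norm_zero] at hz'
      linarith [Real.exp_pos (-2 * κ)]
    have hm : z⁻¹ ∈ ball (0:ℂ) (Real.exp (2 * κ)) := by
      rw [mem_ball_zero_iff, norm_inv]
      rw [inv_lt_comm₀ (norm_pos_iff.2 hz0) (Real.exp_pos _), ← Real.exp_neg]
      rwa [show -(2 * κ) = -2 * κ by ring]
    have h1 : DifferentiableAt ℂ γ z⁻¹ := (hF.blk.dγ _ hm).differentiableAt (isOpen_ball.mem_nhds hm)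
    have h2 : DifferentiableAt ℂ (fun z => γ z⁻¹) z := h1.comp z (hasDerivAt_inv hz0).differentiableAt
    exact (differentiableAt_id.mul h2.cexp).differentiableWithinAt
  · intro z hz z' hz' h
    have key : ∀ x : ℂ, Real.exp (-2 * κ) < ‖x‖ → x⁻¹ ∈ ball (0:ℂ) (Real.exp (2 * κ)) := by
      intro x hx
      have hx0 : x ≠ 0 := by
        rintro rfl
        rw [norm_zero] at hx
        linarith [Real.exp_pos (-2 * κ)]
      rw [mem_ball_zero_iff, norm_inv]
      rw [inv_lt_comm₀ (norm_pos_iff.2 hx0) (Real.exp_pos _), ← Real.exp_neg]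
      rwa [show -(2 * κ) = -2 * κ by ring]
    have h2 : (z * Complex.exp (γ z⁻¹))⁻¹ = (z' * Complex.exp (γ z'⁻¹))⁻¹ := by
      rw [show z * Complex.exp (γ z⁻¹) = z' * Complex.exp (γ z'⁻¹) from h]
    rw [mul_inv, mul_inv, ← Complex.exp_neg, ← Complex.exp_neg] at h2
    exact inv_injective (hF.blk.inj (key z hz) (key z' hz') h2)
  · intro z hz
    have hz0 := ne0 hz
    have hv := inv_mem hz
    have hvN : z⁻¹ ^ N ∈ ball (0:ℂ) 1 := by
      rw [mem_ball_zero_iff, norm_pow]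
      rw [mem_ball_zero_iff] at hv
      exact pow_lt_one₀ (norm_nonneg _) hv (by omega)
    have hbA := hF.bA _ hvN
    refine ⟨?_, ?_, ?_⟩
    · have e1 : Real.sqrt (Real.exp (-2 * κ)) = Real.exp (-κ) := by
        rw [Real.sqrt_eq_iff_mul_self_eq (Real.exp_pos _).le (Real.exp_pos _).le, ← Real.exp_add]
        congr 1; ring
      rw [e1, norm_mul, Complex.norm_exp]
      have e2 : -κ ≤ (-(A (z⁻¹ ^ N) / N)).re := by
        have e3 : |(-(A (z⁻¹ ^ N) / N)).re| ≤ ‖A (z⁻¹ ^ N) / N‖ := by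
          rw [← norm_neg]; exact Complex.abs_re_le_norm _
        have e4 : ‖A (z⁻¹ ^ N) / N‖ ≤ κ := by
          rw [norm_div, Complex.norm_natCast, div_le_iff₀ hNpos]
          have e5 : 16 * B ≤ N * κ := by
            rw [div_le_iff₀ h0] at hNB; exact hNB
          nlinarith
        linarith [(abs_le.1 e3).1]
      have e6 : Real.exp (-κ) ≤ Real.exp (-(A (z⁻¹ ^ N) / N)).re := Real.exp_le_exp.2 e2
      have e7 := Real.exp_pos (-κ)
      nlinarith
    · have hfe := hF.fe _ hv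
      have e1 : (z * Complex.exp (-(A (z⁻¹ ^ N) / N)))⁻¹ = z⁻¹ * Complex.exp (A (z⁻¹ ^ N) / N) := by
        rw [mul_inv, ← Complex.exp_neg, neg_neg]
      show z * Complex.exp (-A z⁻¹) = z * Complex.exp (-(A (z⁻¹ ^ N) / N)) *
        Complex.exp (γ (z * Complex.exp (-(A (z⁻¹ ^ N) / N)))⁻¹)
      rw [e1, mul_assoc, ← Complex.exp_add]
      congr 2
      rw [hfe]; ring
    · show (z * Complex.exp (-(A (z⁻¹ ^ N) / N))) ^ N = z ^ N * Complex.exp (-A (z ^ N)⁻¹)
      rw [mul_pow, ← Complex.exp_nat_mul, inv_pow]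
      congr 2
      field_simp


/-- `ψ` is the Riemann map of the basin of infinity of the monic polynomial `P`, and for some `r` the disc of radius `r` about `0`
does not meet the basin, `P` maps it into itself and it contains all critical values of `P` (so the Julia set is a quasicircle). -/
def JuliaP (P : Polynomial ℂ) (ψ : ℂ → ℂ) : Prop :=
  (∀ z : ℂ, 1 < ‖z‖ → P.eval (ψ z) = ψ (z ^ P.natDegree)) ∧
  ∃ r : ℝ, (∀ z : ℂ, 1 < ‖z‖ → r < ‖ψ z‖) ∧ (∀ x : ℂ, ‖x‖ ≤ r → ‖P.eval x‖ < r) ∧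
    ∀ x : ℂ, P.derivative.eval x = 0 → ‖P.eval x‖ < r

end Run7.h820.SR
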