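import Pool.Agent.Run7.h820.SR.Stm

set_option autoImplicit false
open Complex Filter Topology Set Metric MeasureTheory

namespace Run7.h820.SR

open Pool.Agent.W677.Mar (Sg IsG0 NN hat)

theorem NN_symm {Y : ℂ → ℂ} (ζ z : ℂ) : NN Y ζ z = NN Y z ζ := by
  by_cases h : z = ζ
  · rw [h]
  · have h1 := Pool.Agent.W677.Mar.NN_mul Y ζ z
    have h2 := Pool.Agent.W677.Mar.NN_mul Y z ζ
    have h3 : z - ζ ≠ 0 := sub_ne_zero.2 h
    apply mul_right_cancel₀ h3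
    rw [h1]
    linear_combination h2

theorem t_SYM : S_SYM := by
  intro Y H f S hf hfe hf0 ζ hζ z hz
  have h00 : (0 : ℂ) ∈ ball (0 : ℂ) 1 := mem_ball_self one_pos
  have hpre : IsPreconnected (ball (0 : ℂ) 1 ×ˢ ball (0 : ℂ) 1) :=
    ((convex_ball (0 : ℂ) 1).prod (convex_ball (0 : ℂ) 1)).isPreconnected
  have hg : ContinuousOn (fun p : ℂ × ℂ => f (p.2, p.1)) (ball 0 1 ×ˢ ball 0 1) := by
    refine hf.comp (by fun_prop) ?_
    intro p hp
    exact ⟨hp.2, hp.1⟩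
  have := Pool.Agent.W677.Mar.exp_unique hpre hf hg (x₀ := ((0:ℂ), (0:ℂ))) (x := (ζ, z)) (by
    rintro ⟨a, b⟩ ⟨ha, hb⟩
    show Complex.exp (f (a, b)) = Complex.exp (f (b, a))
    rw [hfe a ha b hb, hfe b hb a ha, NN_symm]) ⟨h00, h00⟩ rfl ⟨hζ, hz⟩
  exact this

end Run7.h820.SR
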