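import Pool.Agent.Run7.h820.SR.Stm

/-!
# Project JR (helper820), hard page MP_16b0ee_an: from self-similar maps to polynomial Julia sets

`MP_16b0ee_an.SelfSimilarReduction` (landed) reduces the strong Marshall conjecture to self-similar maps. Here we go on:
the self-similar maps can be taken to be the Riemann maps `ψ` of the basins of infinity of polynomials `P` with connected
Julia set, `P (ψ z) = ψ (z ^ N)`. So the strong Marshall conjecture is equivalent to the spectral bound `|t|²/4` for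
connected polynomial Julia sets.

Idea. In the coordinate `w = 1/z` let `G w = exp (γ w) / w`, `|w| < exp (2κ)`, `G` univalent. The Faber polynomial `P` of degree `N`
satisfies `P (G w) = w^(-N) + q w` with `q` holomorphic, `q 0 = 0`, and the area theorem gives
`|q w|² ≤ N exp (-4κN) bb κ` for `|w| ≤ exp (3κ/2)`. So `w^N q w` is tiny, and with `L w = (1/N) log (1 + w^N q w)` and
`η u = L (u exp (η u))` (fixed point) the function `γ' u = γ (u exp (η u)) - η u` satisfies `P (exp (γ' u) / u) = u^(-N)`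
exactly. The pair `γ'`, `ℓ'` is again a block.
-/

set_option autoImplicit false
open Complex Filter Topology Set Metric MeasureTheory

namespace Run7.h820.SR

open Pool.Agent.TH325.SI (mn em la)
open Pool.Agent.W677.Mar (Sg IsG0 NN hat)
open Q90.SM (IsSig marshall pmean circ FF)

/-- FAB. The Faber polynomial. Proof: by induction on `m`, `1 ≤ m ≤ N + 1`: there are a monic polynomial `P` of degree `N` and
`g` holomorphic on the disc with `w^N P (exp (γ w) / w) = 1 + w^m g w` for all `w ≠ 0` in the disc. For `m = 1` take `P = X^N`: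
`exp (N γ w) = 1 + w g w`, `g = dslope (fun w => exp (N γ w)) 0` (`Complex.differentiableOn_dslope`). Step (`1 ≤ m ≤ N`): replace
`P` by `P - C (g 0) * X ^ (N - m)` (still monic of degree `N`), because
`w^N (exp (γ w) / w)^(N-m) = w^m exp ((N-m) γ w)` and `g w - g 0 * exp ((N-m) γ w)` vanishes at `0`, so it is `w` times a
holomorphic function (`dslope`). At `m = N + 1` put `q w = w * g w` and divide by `w^N`. -/
def S_FAB : Prop := ∀ (ρ : ℝ) (γ : ℂ → ℂ) (N : ℕ), 0 < ρ → 1 ≤ N → DifferentiableOn ℂ γ (ball 0 ρ) → γ 0 = 0 →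
  ∃ (P : Polynomial ℂ) (q : ℂ → ℂ), P.Monic ∧ P.natDegree = N ∧ DifferentiableOn ℂ q (ball 0 ρ) ∧ q 0 = 0 ∧
    ∀ w ∈ ball (0:ℂ) ρ, w ≠ 0 → P.eval (Complex.exp (γ w) / w) = (w⁻¹) ^ N + q w

/-- FBD. The area theorem for `P (G w)`. Proof: `w = exp (2κ) u`, `Y u = exp (γ (exp (2κ) u))`, `IsG0 Y` (the injectivity of `Y u / u`
is the one of `w exp (-γ w)`, inverses), `V = P.comp (C (exp (-2κ)) * X)`, so `V (Y u / u) = exp (-2κN) u^(-N) + q (exp (2κ) u)`.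
`Pool.Agent.W677.Mar.t1` (area inequality for polynomials in `Y u / u`) together with `Pool.Agent.H643R3.BomC4.taskC4` (exactly as
in `Pool.Agent.W677.Mar.area_log`, with `d k = exp (-2κN)` if `k = N`, `0` else; `c k` the Taylor coefficients of
`u ↦ q (exp (2κ) u)`) gives `∑ k ‖c k‖² R^(2k) ≤ N exp (-4κN) R^(-2N)` for all `R < 1`, so `∑_{k<K} k ‖c k‖² ≤ N exp (-4κN)`. By
Cauchy-Schwarz (as in `Pool.Agent.W677.Mar.log_bound`, or `Run7.h820.SR.t_BND` in Pool/Agent/Run7/h820/SR/BND.lean)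
`‖q (exp (2κ) u)‖² ≤ N exp (-4κN) (-log (1 - |u|²))`, and `|u| ≤ exp (-κ/2)`. -/
def S_FBD : Prop := ∀ (κ : ℝ) (γ q : ℂ → ℂ) (N : ℕ) (P : Polynomial ℂ), 0 < κ → 1 ≤ N →
  DifferentiableOn ℂ γ (ball 0 (Real.exp (2 * κ))) → γ 0 = 0 →
  InjOn (fun w => w * Complex.exp (-γ w)) (ball 0 (Real.exp (2 * κ))) →
  DifferentiableOn ℂ q (ball 0 (Real.exp (2 * κ))) → q 0 = 0 →
  (∀ w ∈ ball (0:ℂ) (Real.exp (2 * κ)), w ≠ 0 → P.eval (Complex.exp (γ w) / w) = (w⁻¹) ^ N + q w) →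
  ∀ w : ℂ, ‖w‖ ≤ Real.exp (3 / 2 * κ) → ‖q w‖ ^ 2 ≤ N * Real.exp (-(4 * κ * N)) * bb κ

/-- EPS. Numbers. Proof: put `y = κ N ≥ 128 B²`. `(exp (3κN/2) x)² ≤ N bb κ exp (-y) = (bb κ / κ) y exp (-y)`, and
`y exp (-y/2) ≤ 1`, `bb κ ≤ B ≤ exp B`, `1/κ ≤ exp (bb κ) ≤ exp B` (because `1 - exp (-κ) ≤ κ`). So
`(exp (3κN/2) x)² ≤ exp (2B - 64 B²) ≤ exp (-62 B)`, and `400 B exp (-31 B) ≤ exp (-B) ≤ κ`. -/
def S_EPS : Prop := ∀ (κ B x : ℝ) (N : ℕ), 0 < κ → κ ≤ 1 → bb κ ≤ B → 1 ≤ B → 128 * B ^ 2 / κ ≤ N → 0 ≤ x →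
  x ^ 2 ≤ N * Real.exp (-(4 * κ * N)) * bb κ → 400 * B * (Real.exp (3 / 2 * κ * N) * x) ≤ κ

/-- ETA. Fixed point. Proof: `η_0 = 0`, `η_{k+1}(u) = L (u exp (η_k u))` for `|u| < exp (5κ/4)`; by induction `‖η_k‖ ≤ δ`, so
`|u exp (η_k u)| ≤ exp (11κ/8)` (`δ ≤ κ/200`). On `|w| ≤ exp (11κ/8)` the function `L` has Lipschitz constant
`δ / (exp (3κ/2) - exp (11κ/8)) ≤ 8 δ / κ` (Cauchy estimate and mean value inequality, as in
Pool/Agent/Run7/h416/SR/LIP.lean), and `|u| |exp x - exp x'| ≤ 3.5 * 2 * |x - x'|`, so the iteration is a contraction with the factor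
`56 δ / κ ≤ 1/2`. Uniform limit as in Pool/Agent/Run7/h321/SR/FIX.lean. -/
def S_ETA : Prop := ∀ (κ δ : ℝ) (L : ℂ → ℂ), 0 < κ → κ ≤ 1 → 0 ≤ δ → 200 * δ ≤ κ →
  DifferentiableOn ℂ L (ball 0 (Real.exp (3 / 2 * κ))) → L 0 = 0 →
  (∀ w ∈ ball (0:ℂ) (Real.exp (3 / 2 * κ)), ‖L w‖ ≤ δ) →
  ∃ η : ℂ → ℂ, DifferentiableOn ℂ η (ball 0 (Real.exp (5 / 4 * κ))) ∧ η 0 = 0 ∧
    (∀ u ∈ ball (0:ℂ) (Real.exp (5 / 4 * κ)), ‖η u‖ ≤ δ) ∧
    ∀ u ∈ ball (0:ℂ) (Real.exp (5 / 4 * κ)), η u = L (u * Complex.exp (η u))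

/-- NBK. The new block. Proof: `L w = (1/N) log (1 + w^N q w)` on `|w| < exp (3κ/2)`, `‖L‖ ≤ 2 ‖w^N q w‖ ≤ κ/(200 B) = δ`; `η` from ETA,
`W u = u exp (η u)`, `γ' u = γ (W u) - η u`, `ℓ' u = ℓ (W u) + log (1 + u η'(u))`, for `|u| < exp κ`; `|u η'(u)| ≤ 12 δ/κ` (Cauchy).
`u exp (-γ' u) = b (W u)`, and `W` is injective because `η u = L (W u)`. `1 - u γ'' (u) = (1 + u η'(u)) (1 - W γ'(W))`. On `|u| ≤ exp (κ/2)`:
`|W u| ≤ exp κ`, `‖γ'‖ ≤ B + δ ≤ 2B`, `‖ℓ'‖ ≤ B + 24 δ/κ ≤ 2B`. On `|u| = 1` by LIP: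
`‖ℓ' u - ℓ u‖ ≤ (2B/κ) 2δ + 24 δ/κ ≤ 1`. `P (G (W u)) = W^(-N) + q W = W^(-N) exp (N L W) = W^(-N) exp (N η u) = u^(-N)`. -/
def S_NBK : Prop := ∀ (κ B : ℝ) (γ ℓ q : ℂ → ℂ) (N : ℕ) (P : Polynomial ℂ), Blk κ B γ ℓ → 1 ≤ N →
  DifferentiableOn ℂ q (ball 0 (Real.exp (2 * κ))) →
  (∀ w ∈ ball (0:ℂ) (Real.exp (2 * κ)), w ≠ 0 → P.eval (Complex.exp (γ w) / w) = (w⁻¹) ^ N + q w) →
  (∀ w : ℂ, ‖w‖ ≤ Real.exp (3 / 2 * κ) → 400 * B * ‖w ^ N * q w‖ ≤ κ) →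
  ∃ γ' ℓ' : ℂ → ℂ, Blk (κ / 2) (2 * B) γ' ℓ' ∧ (∀ u : ℂ, ‖u‖ = 1 → ‖ℓ' u - ℓ u‖ ≤ 1) ∧
    ∀ u ∈ ball (0:ℂ) (Real.exp κ), u ≠ 0 → P.eval (Complex.exp (γ' u) / u) = (u⁻¹) ^ N

/-- `ψ` is the Riemann map of the basin of infinity of a polynomial with connected Julia set -/
def JuliaMap (ψ : ℂ → ℂ) : Prop := ∃ P : Polynomial ℂ, 2 ≤ P.natDegree ∧ P.Monic ∧
  ∀ z : ℂ, 1 < ‖z‖ → P.eval (ψ z) = ψ (z ^ P.natDegree)

/-- SIGP. The exterior map is a Riemann map of a basin. Proof: copy Pool/Agent/Run7/h705/SR/SIG.lean (`ψ z = z exp (-A z⁻¹)`,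
`h z = E z⁻¹ - A z⁻¹`); with `v = z⁻¹`, `τ = v exp (A (v^N)/N)`: `ψ z = exp (γ τ) / τ`, so `P (ψ z) = τ^(-N) = ψ (z^N)`. -/
def S_SIGP : Prop := ∀ (κ B : ℝ) (γ ℓ : ℂ → ℂ) (N : ℕ) (A E : ℂ → ℂ) (P : Polynomial ℂ), Fx κ B γ ℓ N A →
  InjOn (fun v => v * Complex.exp (A v)) (ball 0 1) →
  DifferentiableOn ℂ E (ball 0 1) → E 0 = 0 → (∀ v ∈ ball (0:ℂ) 1, Complex.exp (E v) = 1 + v * deriv A v) →
  P.Monic → P.natDegree = N →
  (∀ u ∈ ball (0:ℂ) (Real.exp (2 * κ)), u ≠ 0 → P.eval (Complex.exp (γ u) / u) = (u⁻¹) ^ N) →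
  ∃ ψ h : ℂ → ℂ, IsSig ψ h ∧ JuliaMap ψ ∧ ∀ z : ℂ, 1 < ‖z‖ → h z = E z⁻¹ - A z⁻¹

end Run7.h820.SR
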